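import Pool.Agent.Work.MP_a1ab50_an.T.Up

-- merged part: Pool.Agent.Work.MP_a1ab50_an.Main
section
set_option autoImplicit false

namespace Pool.Agent.Work.MP_a1ab50_an

open Real MeasureTheory

lemma zz_pow_mul_EE (n : ℕ) (ν : ℝ) (k : ℕ) (θ : ℝ) :
    zz θ ^ n * EE ν k θ = EE (n + ν) k θ := by
  rw [EE, EE, ← mul_assoc, zz, ← Complex.exp_nat_mul, ← Complex.exp_add]
  congr 2
  push_cast
  ring

/-- lower bound for the `ℓ¹` norm of the coefficient of `w^k`. -/
lemma wiener_lower (hs : ∀ k, Summable fun n => |MvPowerSeries.coeff (dd n k) HH|)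
    {m : ℝ} (hm : 1 ≤ m) {k : ℕ} (hk1 : m ^ 12 ≤ k) (hk2 : (k : ℝ) ≤ 2 * m ^ 12) :
    1 / (77 * 256 * 4 ^ 7 * m ^ 11) ≤ ∑' n, |MvPowerSeries.coeff (dd n k) HH| := by
  have hm0 : 0 < m := one_pos.trans_le hm
  have hm2 : 1 ≤ m ^ 2 := one_le_pow₀ hm
  have hab : 1 / (2 * m ^ 2) ≤ 1 / m ^ 2 := by
    apply one_div_le_one_div_of_le (by positivity)
    linarith only [hm2]
  set ν : ℝ := -(3 * k + 7 / 2) with hν
  set amp : ℝ → ℝ := fun θ =>
    (2 * sin (θ / 2)) ^ 7 / 64 * (1 - (2 * sin (θ / 2)) ^ 6 / 64) ^ k with hamp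
  have hampc : Continuous amp := by
    simp only [hamp]
    fun_prop
  set c : ℕ → ℝ := fun n => MvPowerSeries.coeff (dd n k) HH with hc
  have hsum : ∀ θ : ℝ, HasSum (fun n => (c n : ℂ) * EE (n + ν) k θ)
      (Complex.I * (amp θ : ℂ)) := by
    intro θ
    have hz : zz θ ≠ 2 := fun h => two_sub_ne θ (by rw [h, sub_self])
    have hv : ∀ j, Ev HH j (zz θ)
        (∑' n, ((MvPowerSeries.coeff (dd n j) HH : ℝ) : ℂ) * zz θ ^ n) := by
      intro j
      refine Summable.hasSum (Summable.of_norm ?_)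
      simpa [norm_zz] using hs j
    have h1 := ev_HH hz _ hv k
    have h2 := (hv k).mul_right (EE ν k θ)
    rw [h1, value_mul_test] at h2
    refine h2.congr_fun fun n => ?_
    rw [mul_assoc, zz_pow_mul_EE]
  have hint : HasSum (fun n => ∫ θ in (1 / (2 * m ^ 2))..(1 / m ^ 2), (c n : ℂ) * EE (n + ν) k θ)
      (∫ θ in (1 / (2 * m ^ 2))..(1 / m ^ 2), Complex.I * (amp θ : ℂ)) := by
    refine intervalIntegral.hasSum_integral_of_dominated_convergence (fun n _ => |c n|)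
      (fun n => ((continuous_EE _ _).const_mul _).aestronglyMeasurable) ?_ ?_ ?_ ?_
    · intro n
      refine Filter.Eventually.of_forall fun t _ => ?_
      rw [norm_mul, norm_EE, mul_one, Complex.norm_real, Real.norm_eq_abs]
    · exact Filter.Eventually.of_forall fun t _ => hs k
    · exact intervalIntegrable_const
    · exact Filter.Eventually.of_forall fun t _ => hsum t
  have hup : ‖∫ θ in (1 / (2 * m ^ 2))..(1 / m ^ 2), Complex.I * (amp θ : ℂ)‖
      ≤ (∑' n, |c n|) * (77 / m ^ 5) := by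
    refine HasSum.norm_le_of_bounded hint ((hs k).hasSum.mul_right _) fun n => ?_
    rw [intervalIntegral.integral_const_mul, norm_mul, Complex.norm_real, Real.norm_eq_abs]
    exact mul_le_mul_of_nonneg_left (osc_bound _ hm hk1) (abs_nonneg _)
  have hlow : 1 / (2 * m ^ 2) * ((1 / (4 * m ^ 2)) ^ 7 / 128)
      ≤ ‖∫ θ in (1 / (2 * m ^ 2))..(1 / m ^ 2), Complex.I * (amp θ : ℂ)‖ := by
    rw [intervalIntegral.integral_const_mul, norm_mul, Complex.norm_I, one_mul,
      intervalIntegral.integral_ofReal, Complex.norm_real, Real.norm_eq_abs]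
    refine le_trans ?_ (le_abs_self _)
    have := intervalIntegral.integral_mono_on (μ := volume) hab
      (f := fun _ => (1 / (4 * m ^ 2)) ^ 7 / 128) (g := amp) intervalIntegrable_const
      (hampc.intervalIntegrable _ _) (fun θ hθ => amp_lower hm hk2 hθ)
    rw [intervalIntegral.integral_const, smul_eq_mul] at this
    refine le_trans (le_of_eq ?_) this
    congr 1
    field_simp
    norm_num
  have h := hlow.trans hup
  rw [← div_le_iff₀ (by positivity)] at h
  refine le_trans (le_of_eq ?_) h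
  field_simp
  norm_num

theorem not_summable :
    ¬ Summable (fun k : Fin 2 →₀ ℕ => |MvPowerSeries.coeff k HH|) := by
  intro h
  have h1 : Summable (fun x : ℕ × ℕ => |MvPowerSeries.coeff (dd x.2 x.1) HH|) :=
    h.comp_injective dd_inj
  have hs : ∀ k, Summable fun n => |MvPowerSeries.coeff (dd n k) HH| := fun k => h1.prod_factor k
  have h2 : Summable fun k => ∑' n, |MvPowerSeries.coeff (dd n k) HH| := h1.prod
  set S := ∑' k, ∑' n, |MvPowerSeries.coeff (dd n k) HH| with hS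
  obtain ⟨m, hm⟩ := exists_nat_gt (max 1 (77 * 256 * 4 ^ 7 * S))
  have hm1 : (1 : ℝ) ≤ m := ((le_max_left _ _).trans_lt hm).le
  have hm2 : 77 * 256 * 4 ^ 7 * S < m := (le_max_right _ _).trans_lt hm
  have h3 : ∑ k ∈ Finset.Ico (m ^ 12) (2 * m ^ 12), ∑' n, |MvPowerSeries.coeff (dd n k) HH| ≤ S :=
    h2.sum_le_tsum _ fun k _ => tsum_nonneg fun n => abs_nonneg _
  have h4 : ∑ k ∈ Finset.Ico (m ^ 12) (2 * m ^ 12), 1 / (77 * 256 * 4 ^ 7 * (m : ℝ) ^ 11)
      ≤ ∑ k ∈ Finset.Ico (m ^ 12) (2 * m ^ 12), ∑' n, |MvPowerSeries.coeff (dd n k) HH| := by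
    refine Finset.sum_le_sum fun k hk => ?_
    rw [Finset.mem_Ico] at hk
    exact wiener_lower hs hm1 (by exact_mod_cast hk.1) (by exact_mod_cast hk.2.le)
  have h5 := h4.trans h3
  rw [Finset.sum_const, Nat.card_Ico, nsmul_eq_mul, two_mul, Nat.add_sub_cancel] at h5
  have hm0 : (0 : ℝ) < m := one_pos.trans_le hm1
  have h6 : ((m ^ 12 : ℕ) : ℝ) * (1 / (77 * 256 * 4 ^ 7 * (m : ℝ) ^ 11))
      = m / (77 * 256 * 4 ^ 7) := by
    push_cast
    field_simp
  rw [h6, div_le_iff₀ (by positivity)] at h5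
  linarith only [hm2, h5]

end Pool.Agent.Work.MP_a1ab50_an
end

-- merged part: Pool.Agent.Work.MP_a1ab50_an.T.Low
section
/-! The examples: the Taylor coefficients are not absolutely summable. -/

set_option autoImplicit false

namespace Pool.Agent.Work.MP_a1ab50_an.T

open Real MeasureTheory Finset MvPolynomial

variable {d m N k : ℕ}

/-- The coefficient of the `k`-th power of the variable `0`, summed at the point `z`, is `v`. -/
def Sv (G : MvPowerSeries (Fin (d + 1)) ℝ) (k : ℕ) (z : Fin d → ℂ) (v : ℂ) : Prop :=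
  HasSum (fun l : Fin d →₀ ℕ =>
    ((MvPowerSeries.coeff (Finsupp.cons k l) G : ℝ) : ℂ) * ∏ j, z j ^ l j) v

section
variable {G H : MvPowerSeries (Fin (d + 1)) ℝ} {z : Fin d → ℂ} {u v : ℂ}

theorem Sv.add (h1 : Sv G k z u) (h2 : Sv H k z v) : Sv (G + H) k z (u + v) := by
  simpa [Sv, add_mul] using HasSum.add h1 h2

theorem Sv.X_mul (j : Fin d) (h : Sv G k z u) :
    Sv (MvPowerSeries.X j.succ * G) k z (z j * u) := by
  refine ((add_right_injective (Finsupp.single j 1)).hasSum_iff fun l hl => ?_).1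
    ((h.mul_left (z j)).congr_fun fun l => ?_)
  · rw [MvPowerSeries.X_def, MvPowerSeries.coeff_monomial_mul, if_neg, Complex.ofReal_zero,
      zero_mul]
    refine fun h => hl ⟨l - Finsupp.single j 1, add_tsub_cancel_of_le ?_⟩
    simpa using h
  · have h1 : Finsupp.cons k (Finsupp.single j 1 + l)
        = Finsupp.single j.succ 1 + Finsupp.cons k l := by
      ext i
      refine Fin.cases ?_ (fun i => ?_) i <;> simp [Finsupp.single_apply]
    have h2 : ∏ i, z i ^ Finsupp.single j 1 i = z j := by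
      simp [Finsupp.single_apply, pow_ite]
    simp only [Function.comp_apply, h1, MvPowerSeries.X_def, MvPowerSeries.coeff_add_monomial_mul,
      Finsupp.add_apply, pow_add, prod_mul_distrib, h2, one_mul]
    ring

theorem Sv.X0_succ (h : Sv G k z u) : Sv (MvPowerSeries.X 0 * G) (k + 1) z u := by
  refine h.congr_fun fun l => ?_
  have h1 : Finsupp.cons (k + 1) l = Finsupp.single 0 1 + Finsupp.cons k l := by
    ext i
    refine Fin.cases ?_ (fun i => ?_) i <;> simp [add_comm]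
  rw [h1, MvPowerSeries.X_def, MvPowerSeries.coeff_add_monomial_mul, one_mul]

theorem Sv.X0_zero : Sv (MvPowerSeries.X 0 * G) 0 z 0 := by
  refine hasSum_zero.congr_fun fun l => ?_
  rw [MvPowerSeries.X_def, MvPowerSeries.coeff_monomial_mul, if_neg, Complex.ofReal_zero, zero_mul]
  simp

theorem Sv.poly (p : MvPolynomial (Fin d) ℝ) : ∀ {G : MvPowerSeries (Fin (d + 1)) ℝ} {u : ℂ},
    Sv G k z u → Sv (((rename Fin.succ p : MvPolynomial (Fin (d + 1)) ℝ) :
      MvPowerSeries (Fin (d + 1)) ℝ) * G) k z (aeval z p * u) := by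
  induction p using MvPolynomial.induction_on with
  | C a =>
    intro G u h
    simpa [Sv, MvPowerSeries.coeff_C_mul, mul_assoc] using HasSum.mul_left (a : ℂ) h
  | add p q hp hq =>
    intro G u h
    rw [map_add, map_add, MvPolynomial.coe_add, add_mul, add_mul]
    exact (hp h).add (hq h)
  | mul_X p j hp =>
    intro G u h
    rw [map_mul, map_mul, rename_X, MvPolynomial.coe_mul, coe_X, aeval_X, mul_assoc, mul_assoc]
    exact hp (h.X_mul j)

theorem Sv.one_zero : Sv 1 0 z 1 := by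
  have := hasSum_single (f := fun l : Fin d →₀ ℕ => ((MvPowerSeries.coeff (Finsupp.cons 0 l)
      (1 : MvPowerSeries (Fin (d + 1)) ℝ) : ℝ) : ℂ) * ∏ j, z j ^ l j) 0 fun l hl => by
    rw [MvPowerSeries.coeff_one, if_neg (Finsupp.cons_ne_zero_of_right hl), Complex.ofReal_zero,
      zero_mul]
  simpa [Sv] using this

theorem Sv.one_succ : Sv 1 (k + 1) z 0 := by
  refine hasSum_zero.congr_fun fun l => ?_
  rw [MvPowerSeries.coeff_one, if_neg (Finsupp.cons_ne_zero_of_left k.succ_ne_zero),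
    Complex.ofReal_zero, zero_mul]

theorem value_eq (hG : (Q0 d m : MvPowerSeries (Fin (d + 1)) ℝ) * G = P0 d N)
    (hz : ∀ j, ‖z j‖ ≤ 1) {v : ℕ → ℂ} (hv : ∀ k, Sv G k z (v k)) (k : ℕ) :
    v k = ∏ j, fn N (z j) / fa m (z j) * (fb m (z j) / fa m (z j)) ^ k := by
  have h0 : ∏ j, fa m (z j) ≠ 0 := prod_ne_zero_iff.2 fun j _ =>
    norm_pos_iff.1 (one_pos.trans_le (one_le_fa (hz j)))
  have e : rename Fin.succ (pr d (fa m)) = Q0 d m + rename Fin.succ (pr d (fb m)) * X 0 :=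
    (sub_add_cancel _ _).symm
  have key : ((rename Fin.succ (pr d (fa m)) : MvPolynomial (Fin (d + 1)) ℝ) :
      MvPowerSeries (Fin (d + 1)) ℝ) * G =
      ((rename Fin.succ (pr d (fn N)) : MvPolynomial (Fin (d + 1)) ℝ) :
        MvPowerSeries (Fin (d + 1)) ℝ) * 1 +
      ((rename Fin.succ (pr d (fb m)) : MvPolynomial (Fin (d + 1)) ℝ) :
        MvPowerSeries (Fin (d + 1)) ℝ) * (MvPowerSeries.X 0 * G) := by
    rw [e, MvPolynomial.coe_add, MvPolynomial.coe_mul, coe_X, add_mul, hG, mul_assoc, mul_one, P0]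
  rw [prod_mul_distrib, prod_pow, prod_div_distrib, prod_div_distrib]
  induction k with
  | zero =>
    have h1 := Sv.poly (pr d (fa m)) (hv 0)
    rw [key] at h1
    have h2 := HasSum.unique h1 ((Sv.poly _ Sv.one_zero).add (Sv.poly _ Sv.X0_zero))
    rw [ev_fa, ev_fb, ev_fn] at h2
    rw [pow_zero, mul_one, eq_div_iff h0]
    linear_combination h2
  | succ k ih =>
    have h1 := Sv.poly (pr d (fa m)) (hv (k + 1))
    rw [key] at h1
    have h2 := HasSum.unique h1 ((Sv.poly _ Sv.one_succ).add (Sv.poly _ (hv k).X0_succ))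
    rw [ev_fa, ev_fb, ev_fn] at h2
    rw [pow_succ, ← mul_assoc, ← ih, ← mul_div_assoc, eq_div_iff h0]
    linear_combination h2

end

theorem osc_bd (ν : ℝ) {u : ℝ} (hu : 1 ≤ u) (hk : u ^ (2 * m) ≤ k) :
    ‖∫ θ in (1 / (2 * u))..(1 / u), EE ν k θ‖ ≤ 77 * u / u ^ m := by
  have u0 : 0 < u := one_pos.trans_le hu
  have hab : 1 / (2 * u) ≤ 1 / u := one_div_le_one_div_of_le u0 (by linarith)
  have h := vdc (E := EE ν k) (η := fun θ => ν - 3 * k / (5 - 4 * cos θ))
    (η' := fun θ => 12 * k * sin θ / (5 - 4 * cos θ) ^ 2) (lam := u ^ (2 * m) / (18 * u))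
    (δ := u ^ m) hab (by positivity) (by positivity) (hasDerivAt_EE ν k) (norm_EE ν k) ?_ ?_ ?_
  · refine h.trans ?_
    have hpi := Real.pi_le_four
    have : π * u ^ m / (u ^ (2 * m) / (18 * u)) + (1 + π) / u ^ m
        = (18 * π * u + (1 + π)) / u ^ m := by
      rw [mul_comm 2 m, pow_mul]
      field_simp
    rw [this]
    gcongr
    linarith only [hu, hpi, mul_nonneg_of_nonpos_of_nonpos (Mathlib.Tactic.Linarith.sub_nonpos_of_le hu) (Mathlib.Tactic.Linarith.sub_nonpos_of_le hpi)]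
  · intro θ
    have h1 := ((hasDerivAt_const θ (3 * (k : ℝ))).div
      (((Real.hasDerivAt_cos θ).const_mul 4).const_sub 5) (den_pos θ).ne').const_sub ν
    refine h1.congr_deriv ?_
    ring
  · exact Continuous.div (by fun_prop) (by fun_prop) fun θ => (pow_pos (den_pos θ) 2).ne'
  · intro θ hθ
    have h0 : 0 < θ := lt_of_lt_of_le (by positivity) hθ.1
    have hs := sin_lower h0.le (hθ.2.trans ((div_le_one u0).2 hu))
    have hc : (5 - 4 * cos θ) ^ 2 ≤ 81 := by
      have := Real.neg_one_le_cos θ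
      have := den_pos θ
      nlinarith
    have hs' : 3 / (8 * u) ≤ sin θ := by
      refine le_trans ?_ hs
      have := hθ.1
      calc 3 / (8 * u) = 3 * (1 / (2 * u)) / 4 := by field_simp; norm_num
        _ ≤ _ := by gcongr
    calc u ^ (2 * m) / (18 * u) = 12 * u ^ (2 * m) * (3 / (8 * u)) / 81 := by field_simp; norm_num
      _ ≤ _ := by
        have := pow_pos (den_pos θ) 2
        have : 0 ≤ sin θ := le_trans (by positivity) hs'
        gcongr

/-- The amplitude. -/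
noncomputable def amp (m N k : ℕ) (θ : ℝ) : ℝ :=
  (2 * sin (θ / 2)) ^ N / 4 ^ m * (1 - (2 * sin (θ / 2)) ^ (2 * m) / 4 ^ m) ^ k

theorem value_test (θ : ℝ) :
    fn N (zz θ) / fa m (zz θ) * (fb m (zz θ) / fa m (zz θ)) ^ k * EE (-(m * k + N / 2)) k θ
      = (-Complex.I) ^ N * (amp m N k θ : ℂ) := by
  have hn : ‖1 - zz θ‖ ^ (2 * m) = (2 * sin (θ / 2)) ^ (2 * m) := by
    rw [one_sub_zz, norm_mul, norm_mul, norm_neg, Complex.norm_I, ← Complex.ofReal_mul,
      Complex.norm_exp_ofReal_mul_I, mul_one, mul_one, Complex.norm_real, Real.norm_eq_abs]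
    exact Even.pow_abs (even_two_mul m) _
  have h2 := two_sub_ne θ
  have h3 := two_mul_sub_ne θ
  have h1 : fb m (zz θ) / fa m (zz θ) * UU θ
      = zz θ ^ m * ((1 - (2 * sin (θ / 2)) ^ (2 * m) / 4 ^ m : ℝ) : ℂ) := by
    rw [fb, fa, fg_circle (norm_zz θ), hn, UU]
    push_cast
    field_simp
  have h4 : Complex.exp (((1 / 2 : ℝ) : ℂ) * θ * Complex.I) ^ N * (zz θ ^ m) ^ k
      * Complex.exp (((-(m * k + N / 2) : ℝ) : ℂ) * θ * Complex.I) = 1 := by
    rw [← pow_mul, zz, ← Complex.exp_nat_mul, ← Complex.exp_nat_mul, ← Complex.exp_add,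
      ← Complex.exp_add, ← Complex.exp_zero]
    refine congrArg Complex.exp ?_
    push_cast
    ring
  have h5 : fn N (zz θ) / fa m (zz θ) = (1 - zz θ) ^ N / 4 ^ m := mul_div_mul_right _ _ h2
  rw [h5, EE, mul_comm (Complex.exp _), mul_assoc, ← mul_assoc (_ ^ k), ← mul_pow, h1, one_sub_zz,
    amp, mul_pow, mul_pow, mul_pow, Complex.ofReal_mul (_ / _), Complex.ofReal_div (_ ^ N),
    Complex.ofReal_pow, Complex.ofReal_pow, Complex.ofReal_pow, Complex.ofReal_ofNat]
  linear_combination (-Complex.I) ^ N * (((2 * sin (θ / 2) : ℝ) : ℂ) ^ N / 4 ^ m *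
    ((1 - (2 * sin (θ / 2)) ^ (2 * m) / 4 ^ m : ℝ) : ℂ) ^ k) * h4

theorem amp_bd {u : ℝ} (hu : 1 ≤ u) (hm' : m ≠ 0) (hk : (k : ℝ) ≤ 2 * u ^ (2 * m)) {θ : ℝ}
    (hθ : θ ∈ Set.Icc (1 / (2 * u)) (1 / u)) :
    (1 / (4 * u)) ^ N / 4 ^ m * (1 / 2) ≤ amp m N k θ := by
  have u0 : 0 < u := one_pos.trans_le hu
  have h0 : 0 < θ := lt_of_lt_of_le (by positivity) hθ.1
  have h1' : 1 / u ≤ 1 := (div_le_one u0).2 hu
  have hs := sin_lower (x := θ / 2) (by linarith only [h0]) (by linarith only [h1', hθ, hθ.2])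
  have hs2 := Real.sin_le (x := θ / 2) (by linarith only [h0])
  rw [amp]
  set s := 2 * sin (θ / 2) with hr
  have s1 : 1 / (4 * u) ≤ s := by
    have h2 : 1 / (4 * u) = (1 / (2 * u)) / 2 := by field_simp; norm_num
    linarith only [h0, hs, h2, hθ, hθ.1]
  have s0 : 0 ≤ s := le_trans (by positivity) s1
  have s2 : s ≤ 1 / u := by linarith only [hs2, hθ, hθ.2]
  have s3 : s ^ (2 * m) ≤ 1 := pow_le_one₀ s0 (s2.trans h1')
  have s4 : (k : ℝ) * s ^ (2 * m) ≤ 2 := by
    calc (k : ℝ) * s ^ (2 * m) ≤ 2 * u ^ (2 * m) * (1 / u) ^ (2 * m) := by gcongr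
      _ = 2 := by rw [mul_assoc, ← mul_pow, mul_one_div_cancel u0.ne', one_pow, mul_one]
  have s5 : (4 : ℝ) ≤ 4 ^ m := le_self_pow₀ (by norm_num) hm'
  have s6 : s ^ (2 * m) / 4 ^ m ≤ s ^ (2 * m) / 4 := by gcongr
  have hb := one_add_mul_le_pow (a := -(s ^ (2 * m) / 4 ^ m)) (by linarith only [s3, s6]) k
  have hb' : 1 / 2 ≤ (1 - s ^ (2 * m) / 4 ^ m) ^ k := by
    rw [sub_eq_add_neg]
    linarith only [s4, hb, s6, mul_le_mul_of_nonneg_left s6 (Nat.cast_nonneg (α := ℝ) k)]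
  gcongr

theorem slice_lower {G : MvPowerSeries (Fin (d + 1)) ℝ} (hm' : m ≠ 0)
    (hG : (Q0 d m : MvPowerSeries (Fin (d + 1)) ℝ) * G = P0 d N)
    (hs : ∀ k, Summable fun l : Fin d →₀ ℕ => |MvPowerSeries.coeff (Finsupp.cons k l) G|)
    {u : ℝ} (hu : 1 ≤ u) (k1 : u ^ (2 * m) ≤ k) (k2 : (k : ℝ) ≤ 2 * u ^ (2 * m)) :
    (1 / (2 * u) * ((1 / (4 * u)) ^ N / 4 ^ m * (1 / 2))) ^ d ≤
      (∑' l : Fin d →₀ ℕ, |MvPowerSeries.coeff (Finsupp.cons k l) G|) * (77 * u / u ^ m) ^ d := by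
  have u0 : 0 < u := one_pos.trans_le hu
  have hab : 1 / (2 * u) ≤ 1 / u := one_div_le_one_div_of_le u0 (by linarith)
  set ν : ℝ := -(m * k + N / 2) with hν
  have ac : Continuous (amp m N k) := by
    unfold amp
    fun_prop
  have hsum : ∀ θ : Fin d → ℝ, HasSum (fun l : Fin d →₀ ℕ =>
      ((MvPowerSeries.coeff (Finsupp.cons k l) G : ℝ) : ℂ) * ∏ j, EE (l j + ν) k (θ j))
      (∏ j, (-Complex.I) ^ N * (amp m N k (θ j) : ℂ)) := fun θ => by
    have hv : ∀ i, Sv G i (fun j => zz (θ j)) (∑' l : Fin d →₀ ℕ,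
        ((MvPowerSeries.coeff (Finsupp.cons i l) G : ℝ) : ℂ) * ∏ j, zz (θ j) ^ l j) := fun i =>
      Summable.hasSum (Summable.of_norm (by simpa [norm_zz] using hs i))
    have h2 := (hv k).mul_right (∏ j, EE ν k (θ j))
    rw [value_eq hG (fun j => (norm_zz _).le) hv k, ← prod_mul_distrib] at h2
    simp only [hν, value_test] at h2
    refine h2.congr_fun fun l => ?_
    simp only [hν, mul_assoc, ← prod_mul_distrib, zz_pow_mul_EE]
  have hint := hasSum_integral_of_dominated_convergence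
    (μ := Measure.pi fun _ : Fin d => volume.restrict (Set.Ioc (1 / (2 * u)) (1 / u)))
    (F := fun (l : Fin d →₀ ℕ) (θ : Fin d → ℝ) =>
      ((MvPowerSeries.coeff (Finsupp.cons k l) G : ℝ) : ℂ) * ∏ j, EE (l j + ν) k (θ j))
    (fun l _ => |MvPowerSeries.coeff (Finsupp.cons k l) G|)
    (fun l => (continuous_const.mul (continuous_finsetProd _ fun j _ =>
      (continuous_EE (l j + ν) k).comp (continuous_apply j))).aestronglyMeasurable)
    (fun l => .of_forall fun θ => by simp [norm_EE]) (.of_forall fun _ => hs k)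
    (integrable_const _) (.of_forall hsum)
  rw [integral_fintype_prod_eq_pow (fun θ : ℝ => (-Complex.I) ^ N * (amp m N k θ : ℂ)),
    Fintype.card_fin, ← intervalIntegral.integral_of_le hab] at hint
  refine le_trans ?_ (hint.norm_le_of_bounded ((hs k).hasSum.mul_right _) fun l => ?_)
  · rw [norm_pow, intervalIntegral.integral_const_mul, norm_mul, norm_pow, norm_neg, Complex.norm_I,
      one_pow, one_mul, intervalIntegral.integral_ofReal, Complex.norm_real, Real.norm_eq_abs]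
    refine pow_le_pow_left₀ (by positivity) (le_trans ?_ (le_abs_self _)) _
    have := intervalIntegral.integral_mono_on (μ := volume) hab intervalIntegrable_const
      (ac.intervalIntegrable _ _) fun θ hθ => amp_bd hu hm' k2 hθ
    rw [intervalIntegral.integral_const, smul_eq_mul] at this
    refine le_trans (le_of_eq (congrArg (· * _) ?_)) this
    field_simp
    norm_num
  · rw [integral_const_mul, integral_fintype_prod_eq_prod (fun j => EE (l j + ν) k), norm_mul,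
      Complex.norm_real, Real.norm_eq_abs, norm_prod]
    refine mul_le_mul_of_nonneg_left ((prod_le_prod (fun _ _ => norm_nonneg _) fun j _ => ?_).trans_eq
      (by rw [prod_const, card_univ, Fintype.card_fin])) (abs_nonneg _)
    rw [← intervalIntegral.integral_of_le hab]
    exact osc_bd _ hu k1

theorem not_summable_ex {G : MvPowerSeries (Fin (d + 1)) ℝ} (hm' : m ≠ 0)
    (h : d * (N + 2) + 1 ≤ 2 * m + d * m)
    (hG : (Q0 d m : MvPowerSeries (Fin (d + 1)) ℝ) * G = P0 d N) :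
    ¬ Summable fun κ => |MvPowerSeries.coeff κ G| := fun h0 => by
  have h1 : Summable fun x : ℕ × (Fin d →₀ ℕ) => |MvPowerSeries.coeff (Finsupp.cons x.1 x.2) G| :=
    h0.comp_injective Finsupp.cons_injective2.uncurry
  set S := ∑' k, ∑' l : Fin d →₀ ℕ, |MvPowerSeries.coeff (Finsupp.cons k l) G| with hS
  set c : ℝ := (77 * 4 * 4 ^ N * 4 ^ m) ^ d with hc
  obtain ⟨u, hu⟩ := exists_nat_gt (max 1 (c * S))
  have u1 : (1 : ℝ) ≤ u := ((le_max_left _ _).trans_lt hu).le
  have u2 : c * S < u := (le_max_right _ _).trans_lt hu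
  have h3 : ∑ k ∈ Ico (u ^ (2 * m)) (2 * u ^ (2 * m)),
      ∑' l : Fin d →₀ ℕ, |MvPowerSeries.coeff (Finsupp.cons k l) G| ≤ S :=
    h1.prod.sum_le_tsum _ fun k _ => tsum_nonneg fun l => abs_nonneg _
  have h4 := (card_nsmul_le_sum (Ico (u ^ (2 * m)) (2 * u ^ (2 * m))) _ _ fun k hk =>
    slice_lower hm' hG h1.prod_factor u1 (by exact_mod_cast (mem_Ico.1 hk).1)
      (by exact_mod_cast (mem_Ico.1 hk).2.le)).trans
    ((sum_mul _ _ _).symm.trans_le (mul_le_mul_of_nonneg_right h3 (by positivity)))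
  rw [Nat.card_Ico, two_mul (u ^ _), Nat.add_sub_cancel, nsmul_eq_mul, ← div_le_iff₀ (by positivity),
    mul_div_assoc, ← div_pow] at h4
  have h5 : 1 / (2 * (u : ℝ)) * ((1 / (4 * u)) ^ N / 4 ^ m * (1 / 2)) / (77 * u / u ^ m)
      = u ^ m / (77 * 4 * 4 ^ N * 4 ^ m * u ^ (N + 2)) := by
    rw [one_div_pow, mul_pow]
    field_simp
    ring
  rw [h5, div_pow, mul_pow _ (_ ^ (N + 2)), ← hc, ← mul_div_assoc, div_le_iff₀ (by positivity),
    ← pow_mul, ← pow_mul, Nat.cast_pow, ← pow_add] at h4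
  have h6 : (u : ℝ) ^ ((N + 2) * d + 1) ≤ u ^ (2 * m + m * d) :=
    pow_le_pow_right₀ u1 (by rw [mul_comm _ d, mul_comm m d]; exact h)
  have h7 : (0 : ℝ) < u ^ ((N + 2) * d) := by positivity
  rw [pow_succ] at h6
  linarith only [h4, h6, u2, h7, mul_pos_of_neg_of_neg (Mathlib.Tactic.Linarith.sub_neg_of_lt u2) (Mathlib.Tactic.Linarith.sub_neg_of_lt h7)]

end Pool.Agent.Work.MP_a1ab50_an.T
end

-- merged part: Pool.Agent.Work.MP_a1ab50_an.T.Sharp
section
/-! Below the threshold there is a counterexample with one common zero on the torus. -/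

set_option autoImplicit false

namespace Pool.Agent.Work.MP_a1ab50_an.T

open MvPolynomial
open scoped NNReal

theorem exists_ex {n r : ℕ} {β : ℝ≥0} (b1 : β ≤ 1) (hn : 2 * (r + (β : ℝ)) < n - 1) :
    ∃ P Q : MvPolynomial (Fin n) ℝ, IsRelPrime P Q ∧ constantCoeff Q ≠ 0 ∧
      {z : Fin n → ℂ | (∀ i, ‖z i‖ = 1) ∧ aeval z P = 0 ∧ aeval z Q = 0}.Finite ∧
      Extends r β P Q ∧ ¬ AbsSummable P Q := by
  have s0 : (0 : ℝ) ≤ 2 * (r + β) := by positivity
  have n1 : 1 < n := by exact_mod_cast (by linarith only [hn] : (1 : ℝ) < n)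
  obtain ⟨d, rfl⟩ : ∃ d, n = d + 1 := ⟨n - 1, by omega⟩
  have d1 : 1 ≤ d := by omega
  rw [Nat.cast_succ, add_sub_cancel_right, ← sub_pos] at hn
  obtain ⟨t, ht⟩ := exists_nat_gt (3 / (d - 2 * (r + (β : ℝ))))
  have t0 : 0 < t := by exact_mod_cast (div_pos three_pos hn).trans ht
  rw [div_lt_iff₀ hn] at ht
  obtain ⟨N, hN⟩ : ∃ N, N + 3 = 2 * t + d * t :=
    ⟨_, Nat.sub_add_cancel (by nlinarith only [n1, t0])⟩
  have m0 : 0 < d * t := Nat.mul_pos d1 t0
  have hz : ∀ z : Fin (d + 1) → ℂ, (∀ i, ‖z i‖ < 1) → (aeval z (Q0 d (d * t)) : ℂ) ≠ 0 :=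
    fun z h h0 => by
      have := h 0
      rw [Q0_zero m0.ne' (fun i => (h i).le) h0] at this
      simp at this
  have h0 := hz 0 (by simp)
  obtain ⟨P, Q, c, h1, h2, h3⟩ := UniqueFactorizationMonoid.exists_reduced_factors'
    (P0 d N) (Q0 d (d * t)) fun h => h0 (by rw [h, map_zero])
  have hQ : constantCoeff Q ≠ 0 := fun h => h0 (by
    rw [← h3, map_mul, aeval_zero (p := Q), h, map_zero, mul_zero])
  obtain ⟨h4, C, h5⟩ := smooth_ex (d := d) (N := N) (r := r) b1 m0 (by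
    have e : (N : ℝ) + 3 = 2 * t + d * t := by exact_mod_cast hN
    have d0 : (0 : ℝ) < d := by exact_mod_cast d1
    push_cast
    linarith only [ht, e, hn, mul_nonneg_of_nonpos_of_nonpos (Mathlib.Tactic.Linarith.sub_nonpos_of_le (Mathlib.Tactic.Linarith.natCast_nonneg ℝ r)) (le_of_lt (Mathlib.Tactic.Linarith.sub_neg_of_lt ht)), Mathlib.Tactic.Linarith.mul_zero_eq (Mathlib.Tactic.Linarith.sub_nonpos_of_le (Mathlib.Tactic.Linarith.natCast_nonneg ℝ d)) (sub_eq_zero_of_eq e), mul_nonneg_of_nonpos_of_nonpos (Mathlib.Tactic.Linarith.sub_nonpos_of_le (NNReal.coe_nonneg β)) (le_of_lt (Mathlib.Tactic.Linarith.sub_neg_of_lt ht)), mul_pos_of_neg_of_neg (Mathlib.Tactic.Linarith.sub_neg_of_lt hn) (Mathlib.Tactic.Linarith.sub_neg_of_lt ht)])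
  refine ⟨P, Q, h1, hQ, (Set.finite_singleton 1).subset fun z h => ?_, ⟨_, C, h4, h5,
    fun z h _ => ?_⟩, not_summable_ex (N := N) m0.ne' (by nlinarith only [n1, hN]) ?_⟩
  · exact Q0_zero m0.ne' (fun i => (h.1 i).le) (by rw [← h3, map_mul, h.2.2, mul_zero])
  · have h6 := hz z h
    simp only [← h2, ← h3, map_mul] at h6 ⊢
    exact mul_div_mul_left _ _ (left_ne_zero_of_mul h6)
  · rw [← h2, ← h3, coe_mul, coe_mul, mul_assoc,
      mul_left_comm (Q : MvPowerSeries (Fin (d + 1)) ℝ),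
      MvPowerSeries.mul_inv_cancel (Q : MvPowerSeries (Fin (d + 1)) ℝ) hQ, mul_one]

end Pool.Agent.Work.MP_a1ab50_an.T
end
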