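import Mathlib

set_option autoImplicit false

namespace Pool.Agent.Work.MP_a1ab50_an.T

open scoped NNReal

/-- The closed unit polydisc. -/
def polydisc (n : ℕ) : Set (Fin n → ℂ) := {z | ∀ i, ‖z i‖ ≤ 1}

/-- The Taylor coefficients of `P / Q` at the origin are absolutely summable. -/
def AbsSummable {n : ℕ} (P Q : MvPolynomial (Fin n) ℝ) : Prop :=
  Summable fun k : Fin n →₀ ℕ =>
    |MvPowerSeries.coeff k ((P : MvPowerSeries (Fin n) ℝ) * (Q : MvPowerSeries (Fin n) ℝ)⁻¹)|

/-- `P / Q` extends from the open polydisc to a function of class `C^{r,β}` on the closed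
polydisc: `r` continuous real derivatives, the last one Hölder continuous with exponent `β`. -/
def Extends {n : ℕ} (r : ℕ) (β : ℝ≥0) (P Q : MvPolynomial (Fin n) ℝ) : Prop :=
  ∃ (F : (Fin n → ℂ) → ℂ) (C : ℝ≥0), ContDiffOn ℝ r F (polydisc n) ∧
    HolderOnWith C β (iteratedFDerivWithin ℝ r F (polydisc n)) (polydisc n) ∧
    ∀ z : Fin n → ℂ, (∀ i, ‖z i‖ < 1) → MvPolynomial.aeval z Q ≠ 0 →
      F z = MvPolynomial.aeval z P / MvPolynomial.aeval z Q

end Pool.Agent.Work.MP_a1ab50_an.T
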