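import Pool.Agent.Work.MP_a1ab50_an.T.Defs
import Mathlib

-- merged part: Pool.Agent.Work.MP_a1ab50_an.T.Res
section
/-! Elimination of one variable from two relatively prime polynomials, and the resulting lower
bound for the denominator. -/

set_option autoImplicit false

namespace Pool.Agent.Work.MP_a1ab50_an.T

open Filter Topology
open scoped nonZeroDivisors

section
open Polynomial

theorem bezout_poly {R : Type} [CommRing R] [IsDomain R] [UniqueFactorizationMonoid R]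
    {p q : R[X]} (h : IsRelPrime p q) : ∃ (a b : R[X]) (c : R), c ≠ 0 ∧ a * p + b * q = C c := by
  let K := FractionRing R
  let : NormalizedGCDMonoid R := Nonempty.some inferInstance
  have inj : Function.Injective (algebraMap R K) := IsFractionRing.injective R K
  have hc : IsCoprime (p.map (algebraMap R K)) (q.map (algebraMap R K)) := by
    refine isCoprime_of_irreducible_dvd (fun h0 => ?_) fun d hd hp hq => ?_
    · rw [Polynomial.map_eq_zero_iff inj, Polynomial.map_eq_zero_iff inj] at h0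
      rw [h0.1, h0.2] at h
      exact not_isRelPrime_zero_zero h
    · obtain ⟨b, hb, e⟩ := IsLocalization.integerNormalization_spec R⁰ d
      set D := IsLocalization.integerNormalization R⁰ d with hD
      have hD0 : D ≠ 0 := fun h0 =>
        hd.ne_zero (IsFractionRing.integerNormalization_eq_zero_iff.1 h0)
      have h1 : D.primPart.map (algebraMap R K) ∣ d := by
        have hb0 : algebraMap R K b ≠ 0 := fun h0 =>
          nonZeroDivisors.ne_zero hb (inj (by rw [h0, map_zero]))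
        have h2 : D.primPart.map (algebraMap R K) ∣ C (algebraMap R K b) * d := by
          rw [← smul_eq_C_mul, algebraMap_smul, ← e]
          exact Polynomial.map_dvd _ D.primPart_dvd
        exact ((isUnit_C.2 (IsUnit.mk0 _ hb0)).dvd_mul_left).1 h2
      have h2 := h (D.isPrimitive_primPart.dvd_of_fraction_map_dvd_fraction_map (h1.trans hp))
        (D.isPrimitive_primPart.dvd_of_fraction_map_dvd_fraction_map (h1.trans hq))
      rcases isUnit_or_eq_zero_of_isUnit_integerNormalization_primPart hd.ne_zero h2 with h3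
      exact hd.not_isUnit h3
  obtain ⟨a, b, e⟩ := hc
  obtain ⟨u, hu, ea⟩ := IsLocalization.integerNormalization_spec R⁰ a
  obtain ⟨v, hv, eb⟩ := IsLocalization.integerNormalization_spec R⁰ b
  refine ⟨C v * IsLocalization.integerNormalization R⁰ a,
    C u * IsLocalization.integerNormalization R⁰ b, u * v,
    mul_ne_zero (nonZeroDivisors.ne_zero hu) (nonZeroDivisors.ne_zero hv),
    Polynomial.map_injective _ inj ?_⟩
  simp only [Polynomial.map_add, Polynomial.map_mul, map_C, ea, eb, map_mul]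
  rw [← algebraMap_smul K u, ← algebraMap_smul K v, smul_eq_C_mul, smul_eq_C_mul]
  linear_combination (C (algebraMap R K u) * C (algebraMap R K v)) * e

end

open MvPolynomial

variable {n : ℕ}

theorem bezout_mv {P Q : MvPolynomial (Fin n) ℝ} (h : IsRelPrime P Q) (j : Fin n) :
    ∃ A B R : MvPolynomial (Fin n) ℝ, R ≠ 0 ∧ A * P + B * Q = R ∧
      ∀ (z : Fin n → ℂ) (w : ℂ), aeval (Function.update z j w) R = aeval z R := by
  let e := (renameEquiv ℝ (Equiv.optionSubtypeNe j).symm).trans (optionEquivLeft ℝ {i // i ≠ j})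
  have h1 : IsRelPrime (e P) (e Q) := fun d hp hq => by
    have := h (d := e.symm d) (by simpa using map_dvd e.symm hp) (by simpa using map_dvd e.symm hq)
    simpa using this.map e
  obtain ⟨a, b, c, hc, eq⟩ := bezout_poly h1
  have h2 : ∀ c : MvPolynomial {i // i ≠ j} ℝ, e (rename Subtype.val c) = Polynomial.C c := by
    intro c
    induction c using MvPolynomial.induction_on with
    | C x => simp [e]
    | add x y hx hy => rw [map_add, map_add, hx, hy, map_add]
    | mul_X x i hx =>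
      rw [map_mul, map_mul, hx, map_mul]
      simp [e, Equiv.optionSubtypeNe_symm_of_ne i.2]
  refine ⟨e.symm a, e.symm b, rename Subtype.val c, fun h0 => hc ?_, e.injective ?_, fun z w => ?_⟩
  · have := h2 c
    rw [h0, map_zero] at this
    exact Polynomial.C_eq_zero.1 this.symm
  · rw [h2, map_add, map_mul, map_mul, e.apply_symm_apply, e.apply_symm_apply, eq]
  · rw [aeval_rename, aeval_rename]
    refine congrArg (fun f => aeval f c) (funext fun i => ?_)
    exact Function.update_of_ne i.2 _ _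

theorem an_aeval (P : MvPolynomial (Fin n) ℝ) (x : Fin n → ℂ) :
    AnalyticAt ℂ (fun z : Fin n → ℂ => (aeval z P : ℂ)) x :=
  AnalyticAt.aeval_mvPolynomial (f := fun z : Fin n → ℂ => z)
    (fun i => (ContinuousLinearMap.proj (R := ℂ) (φ := fun _ : Fin n => ℂ) i).analyticAt x) P

theorem cont_aeval (P : MvPolynomial (Fin n) ℝ) :
    Continuous fun z : Fin n → ℂ => (aeval z P : ℂ) :=
  continuous_iff_continuousAt.2 fun x => (an_aeval P x).continuousAt

theorem polydisc_eq : polydisc n = Metric.closedBall 0 1 := by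
  ext z
  rw [mem_closedBall_zero_iff, pi_norm_le_iff_of_nonneg zero_le_one]
  rfl

theorem compact_polydisc : IsCompact (polydisc n) := by
  rw [polydisc_eq]
  exact isCompact_closedBall _ _

theorem convex_polydisc : Convex ℝ (polydisc n) := by
  rw [polydisc_eq]
  exact convex_closedBall _ _

theorem unique_polydisc : UniqueDiffOn ℝ (polydisc n) := by
  refine uniqueDiffOn_convex convex_polydisc ⟨0, ?_⟩
  rw [polydisc_eq, mem_interior_iff_mem_nhds]
  exact Metric.closedBall_mem_nhds _ one_pos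

theorem aeval_zero_ne {Q : MvPolynomial (Fin n) ℝ} (hQ : constantCoeff Q ≠ 0) :
    (aeval (0 : Fin n → ℂ) Q : ℂ) ≠ 0 := by
  rw [aeval_zero]
  simpa using hQ

theorem mul_eq_of_ext {P Q : MvPolynomial (Fin n) ℝ} (hQ : constantCoeff Q ≠ 0)
    {F : (Fin n → ℂ) → ℂ} (hF : ContinuousOn F (polydisc n))
    (e : ∀ z : Fin n → ℂ, (∀ i, ‖z i‖ < 1) → aeval z Q ≠ 0 → F z = aeval z P / aeval z Q)
    {z : Fin n → ℂ} (hz : z ∈ polydisc n) : aeval z Q * F z = aeval z P := by
  have ha : AnalyticOnNhd ℝ (fun t : ℝ => (aeval (t • z) Q : ℂ)) Set.univ := fun t _ =>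
    ((an_aeval Q (t • z)).restrictScalars (𝕜 := ℝ)).comp (f := fun t : ℝ => t • z)
      (analyticAt_id.smul analyticAt_const)
  have h1 : ∀ᶠ t in 𝓝[<] (1 : ℝ), (aeval (t • z) Q : ℂ) ≠ 0 := by
    rcases (ha 1 trivial).eventually_eq_zero_or_eventually_ne_zero with h | h
    · have := ha.eqOn_zero_of_preconnected_of_eventuallyEq_zero isPreconnected_univ trivial h
        (Set.mem_univ 0)
      simp only [zero_smul] at this
      exact absurd this (aeval_zero_ne hQ)
    · exact h.filter_mono (nhdsLT_le_nhdsNE 1)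
  have h2 : ∀ᶠ t in 𝓝[<] (1 : ℝ), ∀ i, ‖(t • z) i‖ < 1 := by
    filter_upwards [Ioo_mem_nhdsLT (zero_lt_one' ℝ)] with t ht i
    rw [Pi.smul_apply, norm_smul, Real.norm_of_nonneg ht.1.le]
    exact (mul_le_of_le_one_right ht.1.le (hz i)).trans_lt ht.2
  have h3 : Tendsto (fun t : ℝ => t • z) (𝓝[<] 1) (𝓝 z) := by
    have : Tendsto (fun t : ℝ => t • z) (𝓝 1) (𝓝 ((1 : ℝ) • z)) :=
      (continuous_id.smul continuous_const).tendsto 1
    rw [one_smul] at this
    exact this.mono_left nhdsWithin_le_nhds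
  have h4 : Tendsto (fun t : ℝ => F (t • z)) (𝓝[<] 1) (𝓝 (F z)) :=
    (hF z hz).tendsto.comp (tendsto_nhdsWithin_iff.2 ⟨h3, h2.mono fun t ht i => (ht i).le⟩)
  refine tendsto_nhds_unique_of_eventuallyEq ((((cont_aeval Q).tendsto z).comp h3).mul h4)
    (((cont_aeval P).tendsto z).comp h3) ?_
  filter_upwards [h1, h2] with t t1 t2
  simp only [Function.comp_apply]
  rw [e _ t2 t1, mul_div_cancel₀ _ t1]

theorem lower_bound {P Q : MvPolynomial (Fin n) ℝ} (h : IsRelPrime P Q)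
    {F : (Fin n → ℂ) → ℂ} (hF : ContinuousOn F (polydisc n))
    (e : ∀ z ∈ polydisc n, aeval z Q * F z = aeval z P) (j : Fin n) :
    ∃ (R : MvPolynomial (Fin n) ℝ) (K : ℝ), R ≠ 0 ∧ 0 < K ∧
      (∀ (z : Fin n → ℂ) (w : ℂ), aeval (Function.update z j w) R = aeval z R) ∧
      ∀ z ∈ polydisc n, ‖(aeval z R : ℂ)‖ ≤ K * ‖(aeval z Q : ℂ)‖ := by
  obtain ⟨A, B, R, h0, h1, h2⟩ := bezout_mv h j
  obtain ⟨K, hK⟩ := compact_polydisc.exists_bound_of_continuousOn
    (((cont_aeval A).continuousOn.mul hF).add (cont_aeval B).continuousOn)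
  refine ⟨R, max K 1, h0, by positivity, h2, fun z hz => ?_⟩
  have h3 : (aeval z R : ℂ) = (aeval z A * F z + aeval z B) * aeval z Q := by
    rw [← h1, map_add, map_mul, map_mul, ← e z hz]
    ring
  rw [h3, norm_mul]
  exact mul_le_mul_of_nonneg_right ((hK z hz).trans (le_max_left _ _)) (norm_nonneg _)

end Pool.Agent.Work.MP_a1ab50_an.T
end

-- merged part: Pool.Agent.Work.MP_a1ab50_an.T.Sub
section
/-! Sublevel sets of polynomials on the torus. -/

set_option autoImplicit false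

namespace Pool.Agent.Work.MP_a1ab50_an.T

open Filter Topology MeasureTheory Real

/-- Haar measure of the circle. -/
noncomputable abbrev hm : Measure UnitAddCircle := AddCircle.haarAddCircle

/-- Haar measure of the torus. -/
noncomputable abbrev pm (n : ℕ) : Measure (Fin n → UnitAddCircle) := Measure.pi fun _ => hm

/-- The point of the unit circle. -/
noncomputable def e1 (t : UnitAddCircle) : ℂ := fourier 1 t

/-- The point of the torus. -/
noncomputable def ex {n : ℕ} (θ : Fin n → UnitAddCircle) : Fin n → ℂ := fun i => e1 (θ i)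

theorem cont_e1 : Continuous e1 := (fourier 1).continuous

theorem cont_ex {n : ℕ} : Continuous (ex (n := n)) :=
  continuous_pi fun i => cont_e1.comp (continuous_apply i)

theorem norm_fourier (m : ℤ) (t : UnitAddCircle) : ‖fourier m t‖ = 1 := by
  rw [fourier_apply, Circle.norm_coe]

theorem norm_e1 (t : UnitAddCircle) : ‖e1 t‖ = 1 := norm_fourier 1 t

theorem e1_add (s t : UnitAddCircle) : e1 (s + t) = e1 s * e1 t := by
  simp [e1, AddCircle.toCircle_add]

theorem fourier_nat (m : ℕ) (t : UnitAddCircle) : fourier (m : ℤ) t = e1 t ^ m := by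
  simp [e1, AddCircle.toCircle_nsmul]

theorem e1_coe (t : ℝ) : e1 t = Complex.exp (Complex.I * ((2 * π * t : ℝ) : ℂ)) := by
  rw [e1, fourier_coe_apply]
  refine congrArg Complex.exp ?_
  push_cast
  ring

theorem chord_coe {t : ℝ} (ht : |t| ≤ 1 / 2) : 4 * |t| ≤ ‖e1 t - 1‖ := by
  rw [e1_coe, Complex.norm_exp_I_mul_ofReal_sub_one, Real.norm_eq_abs, abs_mul, abs_two,
    show 2 * π * t / 2 = π * t by ring]
  have h1 : |π * t| = π * |t| := by rw [abs_mul, abs_of_pos pi_pos]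
  have h2 := mul_abs_le_abs_sin (x := π * t) (by rw [h1]; nlinarith [pi_pos])
  rw [h1, ← mul_assoc, div_mul_cancel₀ _ pi_pos.ne'] at h2
  linarith

theorem chord (x : UnitAddCircle) : 4 * ‖x‖ ≤ ‖e1 x - 1‖ := by
  obtain ⟨t, ht, rfl⟩ : x ∈ ((↑) : ℝ → UnitAddCircle) '' Set.Ico (-(1 / 2)) (-(1 / 2) + 1) := by
    rw [AddCircle.coe_image_Ico_eq]
    trivial
  have h : |t| ≤ 1 / 2 := abs_le.2 ⟨ht.1, by linarith [ht.2]⟩
  rw [(AddCircle.norm_coe_eq_abs_iff 1 one_ne_zero).2 (by simpa using h)]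
  exact chord_coe h

theorem arc_le (r : ℂ) (ε : ℝ) : hm {t | ‖e1 t - r‖ < ε} ≤ ENNReal.ofReal ε := by
  rcases Set.eq_empty_or_nonempty {t | ‖e1 t - r‖ < ε} with h | ⟨s, hs⟩
  · simp [h]
  have h1 : {t | ‖e1 t - r‖ < ε} ⊆ Metric.closedBall s (ε / 2) := fun t ht => by
    have h2 := chord (t - s)
    have h3 : ‖e1 (t - s) - 1‖ = ‖(e1 t - r) - (e1 s - r)‖ := by
      have h5 : e1 t - e1 s = (e1 (t - s) - 1) * e1 s := by
        rw [sub_mul, ← e1_add, sub_add_cancel, one_mul]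
      rw [sub_sub_sub_cancel_right, h5, norm_mul, norm_e1, mul_one]
    have h4 := norm_sub_le (e1 t - r) (e1 s - r)
    rw [Metric.mem_closedBall, dist_eq_norm]
    simp only [Set.mem_ofPred_eq] at ht hs
    linarith
  refine (measure_mono h1).trans ?_
  have h2 := AddCircle.volume_closedBall 1 (x := s) (ε / 2)
  rw [AddCircle.volume_eq_smul_haarAddCircle, ENNReal.ofReal_one, one_smul] at h2
  rw [h2]
  exact ENNReal.ofReal_le_ofReal ((min_le_right _ _).trans_eq (by ring))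

theorem poly_sub (q : Polynomial ℂ) {ε : ℝ} (hε : 0 < ε) :
    hm {t | ‖q.eval (e1 t)‖ < ‖q.leadingCoeff‖ * ε ^ q.natDegree} ≤
      ENNReal.ofReal (q.natDegree * ε) := by
  classical
  have h1 : {t | ‖q.eval (e1 t)‖ < ‖q.leadingCoeff‖ * ε ^ q.natDegree} ⊆
      ⋃ r ∈ q.roots.toFinset, {t | ‖e1 t - r‖ < ε} := fun t ht => by
    by_contra h
    simp only [Set.mem_iUnion, Set.mem_ofPred_eq, not_exists, not_lt, Multiset.mem_toFinset] at h
    rw [Set.mem_ofPred_eq] at ht
    refine (not_le.2 ht) ?_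
    rw [(IsAlgClosed.splits q).eval_eq_prod_roots, norm_mul]
    refine mul_le_mul_of_nonneg_left ?_ (norm_nonneg _)
    have h2 := Multiset.prod_map_le_prod_map₀ (s := q.roots) (fun _ => ε) (fun r => ‖e1 t - r‖)
      (fun _ _ => hε.le) h
    rw [Multiset.map_const', Multiset.prod_replicate, IsAlgClosed.card_roots_eq_natDegree] at h2
    refine h2.trans_eq ?_
    have := map_multiset_prod (normHom (α := ℂ)) (q.roots.map fun r => e1 t - r)
    rw [Multiset.map_map] at this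
    exact this.symm
  refine (measure_mono h1).trans ((measure_biUnion_finset_le _ _).trans ?_)
  refine (Finset.sum_le_card_nsmul _ _ _ fun r _ => arc_le r ε).trans ?_
  rw [ENNReal.ofReal_mul (Nat.cast_nonneg _), ENNReal.ofReal_natCast, nsmul_eq_mul]
  gcongr
  exact (Multiset.toFinset_card_le _).trans (Polynomial.card_roots' q)

open MvPolynomial in
theorem sublevel_c : ∀ (n : ℕ) (R : MvPolynomial (Fin n) ℂ), R ≠ 0 → ∃ (N : ℕ) (C : ℝ), 0 ≤ C ∧
    ∀ ε : ℝ, 0 < ε → pm n {θ | ‖eval (ex θ) R‖ ≤ ε ^ (N + 1)} ≤ ENNReal.ofReal (C * ε)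
  | 0, R, h => by
    obtain ⟨c, rfl⟩ := C_surjective (Fin 0) R
    have hc : 0 < ‖c‖ := norm_pos_iff.2 fun h0 => h (by rw [h0, C_0])
    refine ⟨0, ‖c‖⁻¹, by positivity, fun ε _ => ?_⟩
    simp only [eval_C, zero_add, pow_one]
    by_cases h1 : ‖c‖ ≤ ε
    · refine prob_le_one.trans ?_
      rw [← ENNReal.ofReal_one]
      exact ENNReal.ofReal_le_ofReal ((one_le_inv_mul₀ hc).2 h1)
    · simp [h1]
  | n + 1, R, h => by
    set p := finSuccEquiv ℂ n R with hp
    have hL : p.leadingCoeff ≠ 0 :=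
      Polynomial.leadingCoeff_ne_zero.2 fun h0 => h ((finSuccEquiv ℂ n).map_eq_zero_iff.1 h0)
    obtain ⟨N, C, hC, hN⟩ := sublevel_c n _ hL
    refine ⟨N + p.natDegree, C + p.natDegree, by positivity, fun ε hε => ?_⟩
    have hc : ∀ (k : ℕ) (S : MvPolynomial (Fin k) ℂ) (a : ℝ),
        MeasurableSet {θ : Fin k → UnitAddCircle | ‖eval (ex θ) S‖ ≤ a} := fun k S a =>
      (isClosed_le ((MvPolynomial.continuous_eval S).comp cont_ex).norm continuous_const).measurableSet
    have mp := (measurePreserving_piFinSuccAbove (fun _ : Fin (n + 1) => hm) 0).symm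
    rw [← mp.measure_preimage (hc _ R _).nullMeasurableSet,
      Measure.prod_apply_symm (mp.measurable (hc _ R _))]
    refine (lintegral_mono (g := fun θ => Set.indicator
      {θ : Fin n → UnitAddCircle | ‖eval (ex θ) p.leadingCoeff‖ ≤ ε ^ (N + 1)} 1 θ +
        ENNReal.ofReal (p.natDegree * ε)) fun θ => ?_).trans ?_
    · by_cases h1 : ‖eval (ex θ) p.leadingCoeff‖ ≤ ε ^ (N + 1)
      · refine prob_le_one.trans ?_
        beta_reduce
        rw [Set.indicator_of_mem (by exact h1)]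
        exact le_self_add
      · refine le_trans ?_ le_add_self
        have h2 : eval (ex θ) p.leadingCoeff ≠ 0 := fun h0 => h1 (by rw [h0, norm_zero]; positivity)
        have h3 := poly_sub (p.map (eval (ex θ))) hε
        rw [Polynomial.natDegree_map_of_leadingCoeff_ne_zero _ h2,
          Polynomial.leadingCoeff_map_of_leadingCoeff_ne_zero _ h2] at h3
        refine (measure_mono fun t ht => ?_).trans h3
        have h4 : ex ((MeasurableEquiv.piFinSuccAbove (fun _ : Fin (n + 1) => UnitAddCircle) 0).symm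
            (t, θ)) = Fin.cons (e1 t) (ex θ) := by
          funext i
          refine Fin.cases ?_ (fun i => ?_) i <;>
            simp [ex, MeasurableEquiv.piFinSuccAbove_symm_apply, Fin.insertNthEquiv]
        simp only [Set.mem_preimage, Set.mem_ofPred_eq, h4, eval_eq_eval_mv_eval'] at ht
        refine lt_of_le_of_lt ht ?_
        rw [add_right_comm, pow_add]
        exact mul_lt_mul_of_pos_right (not_le.1 h1) (by positivity)
    · rw [lintegral_add_right _ measurable_const, lintegral_indicator_one (hc _ _ _),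
        lintegral_const, measure_univ, mul_one, add_mul,
        ENNReal.ofReal_add (by positivity) (by positivity)]
      exact add_le_add_left (hN ε hε) _

open MvPolynomial in
theorem sublevel {n : ℕ} {R : MvPolynomial (Fin n) ℝ} (h : R ≠ 0) : ∃ (N : ℕ) (C : ℝ), 0 ≤ C ∧
    ∀ ε : ℝ, 0 < ε → (pm n).real {θ | ‖(aeval (ex θ) R : ℂ)‖ ≤ ε ^ (N + 1)} ≤ C * ε := by
  obtain ⟨N, C, hC, hN⟩ := sublevel_c n (map (algebraMap ℝ ℂ) R)
    fun h0 => h (map_injective _ (algebraMap ℝ ℂ).injective (by rw [h0, map_zero]))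
  refine ⟨N, C, hC, fun ε hε => ENNReal.toReal_le_of_le_ofReal (by positivity) ?_⟩
  simpa only [eval_map, aeval_def] using hN ε hε

open MvPolynomial in
theorem ae_ne {n : ℕ} {R : MvPolynomial (Fin n) ℝ} (h : R ≠ 0) :
    ∀ᵐ θ ∂pm n, (aeval (ex θ) R : ℂ) ≠ 0 := by
  obtain ⟨N, C, hC, hN⟩ := sublevel h
  rw [ae_iff, ← measureReal_eq_zero_iff]
  refine le_antisymm (le_of_forall_pos_le_add fun δ hδ => ?_) measureReal_nonneg
  have hε : 0 < δ / (C + 1) := by positivity
  refine (measureReal_mono (fun θ hθ => ?_)).trans ((hN _ hε).trans ?_)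
  · simp only [Set.mem_ofPred_eq, not_not] at hθ ⊢
    rw [hθ, norm_zero]
    positivity
  · rw [zero_add, ← mul_div_assoc, div_le_iff₀ (by positivity)]
    nlinarith

end Pool.Agent.Work.MP_a1ab50_an.T
end

-- merged part: Pool.Agent.Work.MP_a1ab50_an.T.Hank
section
/-! Sequences whose shifts span a space of bounded dimension, and the Hankel inequality. -/

set_option autoImplicit false

namespace Pool.Agent.Work.MP_a1ab50_an.T

open Filter Topology MeasureTheory Real Finset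
open scoped ComplexConjugate InnerProductSpace

/-- The shifts of `a` span a space of dimension at most `N`. -/
def Rk (N : ℕ) (a : ℕ → ℂ) : Prop :=
  ∃ V : Submodule ℂ (ℕ → ℂ), Module.Finite ℂ V ∧ Module.finrank ℂ V ≤ N ∧
    ∀ k, (fun m => a (m + k)) ∈ V

theorem Rk.of_rec {D : ℕ} {a q : ℕ → ℂ} (h0 : q 0 ≠ 0)
    (h : ∀ m, D < m → ∑ l ∈ range (D + 1), q l * a (m - l) = 0) : Rk (D + 1) a := by
  refine ⟨Submodule.span ℂ (Set.range fun (i : Fin (D + 1)) (m : ℕ) => a (m + i)),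
    Module.Finite.span_of_finite ℂ (Set.finite_range _),
    (finrank_range_le_card _).trans_eq (Fintype.card_fin _), fun k => ?_⟩
  induction k using Nat.strong_induction_on with
  | _ k ih =>
    rcases le_or_gt k D with hk | hk
    · exact Submodule.subset_span ⟨⟨k, by omega⟩, rfl⟩
    · have e : (fun m => a (m + k)) =
          ∑ l ∈ range D, (-(q (l + 1) / q 0)) • fun m => a (m + (k - (l + 1))) := by
        funext m
        have h1 := h (m + k) (by omega)
        rw [sum_range_succ', Nat.sub_zero] at h1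
        rw [Finset.sum_apply]
        refine mul_left_cancel₀ h0 ?_
        rw [eq_neg_of_add_eq_zero_right h1, ← sum_neg_distrib, mul_sum]
        refine sum_congr rfl fun l hl => ?_
        have := mem_range.1 hl
        rw [Nat.add_sub_assoc (by omega), Pi.smul_apply, smul_eq_mul]
        field_simp
      rw [e]
      exact Submodule.sum_mem _ fun l _ => Submodule.smul_mem _ _ (ih _ (by omega))

theorem Rk.twist {N : ℕ} {a b : ℕ → ℂ} (h : Rk N a) (w : ℕ → ℂ)
    (e : ∀ k, ∃ (k' : ℕ) (x y : ℂ), ∀ m, b (m + k) = x * a (m + k') + y * (w m * a (m + k'))) :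
    Rk (2 * N) b := by
  obtain ⟨V, h1, h2, h3⟩ := h
  let L : (ℕ → ℂ) →ₗ[ℂ] (ℕ → ℂ) := LinearMap.mulLeft ℂ w
  refine ⟨V ⊔ V.map L, inferInstance, ?_, fun k => ?_⟩
  · have := Submodule.finrank_add_le_finrank_add_finrank V (V.map L)
    have := Submodule.finrank_map_le L V
    omega
  · obtain ⟨k', x, y, e⟩ := e k
    have : (fun m => b (m + k)) = x • (fun m => a (m + k')) + y • L fun m => a (m + k') :=
      funext e
    rw [this]
    exact Submodule.add_mem_sup (V.smul_mem _ (h3 _))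
      (Submodule.smul_mem _ _ (Submodule.mem_map_of_mem (h3 _)))

theorem Rk.der {N : ℕ} {a : ℕ → ℂ} (h : Rk N a) : Rk (2 * N) fun m => (m + 1) * a (m + 1) :=
  h.twist (fun m => m) fun k => ⟨k + 1, k + 1, 1, fun m => by
    rw [← add_assoc]
    push_cast
    ring⟩

theorem Rk.rot {N : ℕ} {a : ℕ → ℂ} (h : Rk N a) (ζ : ℂ) :
    Rk (2 * N) fun m => (ζ ^ m - 1) * a m :=
  h.twist (fun m => ζ ^ m) fun k => ⟨k, -1, ζ ^ k, fun m => by ring⟩

theorem int_of_cont {E : Type} [NormedAddCommGroup E] {g : UnitAddCircle → E} (h : Continuous g) :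
    Integrable g hm :=
  h.integrable_of_hasCompactSupport (HasCompactSupport.of_compactSpace g)

theorem int_fourier (m : ℤ) :
    ∫ t : UnitAddCircle, fourier m t ∂hm = if m = 0 then 1 else 0 := by
  have := congrFun (fourierCoeff_fourier (T := 1) m) 0
  simp only [fourierCoeff, neg_zero, fourier_zero, one_smul, Pi.single_apply] at this
  rw [this]
  simp only [eq_comm]

theorem bessel1 {g : UnitAddCircle → ℂ} (h : Continuous g) (M : ℕ) :
    ∑ k ∈ range M, ‖fourierCoeff g (k : ℤ)‖ ^ 2 ≤ ∫ t, ‖g t‖ ^ 2 ∂hm := by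
  let G : C(UnitAddCircle, ℂ) := ⟨g, h⟩
  have h1 := hasSum_sq_fourierCoeff (ContinuousMap.toLp (E := ℂ) 2 hm ℂ G)
  simp only [fourierCoeff_toLp] at h1
  have h2 : ∫ t, ‖(ContinuousMap.toLp (E := ℂ) 2 hm ℂ G) t‖ ^ 2 ∂hm = ∫ t, ‖g t‖ ^ 2 ∂hm := by
    refine integral_congr_ae ?_
    filter_upwards [ContinuousMap.coeFn_toLp (p := 2) (𝕜 := ℂ) hm G] with t ht
    rw [ht]
    rfl
  rw [h2] at h1
  exact (sum_map (range M) ⟨_, Nat.cast_injective (R := ℤ)⟩
    fun k => ‖fourierCoeff g k‖ ^ 2).symm.trans_le (sum_le_hasSum _ (fun _ _ => by positivity) h1)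

theorem int_sq_poly {M : ℕ} (u : Fin M → ℂ) :
    ∫ t : UnitAddCircle, ‖∑ i, u i * fourier (-((i : ℕ) : ℤ)) t‖ ^ 2 ∂hm = ∑ i, ‖u i‖ ^ 2 := by
  refine Complex.ofReal_injective ?_
  rw [← integral_complex_ofReal]
  have h1 : ∀ t : UnitAddCircle, ((‖∑ i, u i * fourier (-((i : ℕ) : ℤ)) t‖ ^ 2 : ℝ) : ℂ) =
      ∑ i, ∑ k, u i * conj (u k) * fourier (((k : ℕ) : ℤ) - (i : ℕ)) t := fun t => by
    rw [← Complex.normSq_eq_norm_sq, ← Complex.mul_conj, map_sum, sum_mul_sum]
    refine sum_congr rfl fun i _ => sum_congr rfl fun k _ => ?_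
    rw [map_mul, ← fourier_neg, neg_neg, sub_eq_add_neg, fourier_add]
    ring
  simp only [h1]
  rw [integral_finsetSum _ fun i _ => int_of_cont (by fun_prop)]
  push_cast
  refine sum_congr rfl fun i _ => ?_
  rw [integral_finsetSum _ fun i _ => int_of_cont (by fun_prop)]
  simp only [integral_const_mul, int_fourier, sub_eq_zero, Nat.cast_inj, Fin.val_inj, mul_ite,
    mul_one, mul_zero, sum_ite_eq', mem_univ, if_true]
  rw [Complex.mul_conj, Complex.normSq_eq_norm_sq, Complex.ofReal_pow]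

theorem op_bound {g : UnitAddCircle → ℂ} (h : Continuous g) {σ : ℝ} (hσ : ∀ t, ‖g t‖ ≤ σ)
    {M : ℕ} (u : Fin M → ℂ) :
    ∑ k ∈ range M, ‖∑ i, u i * fourierCoeff g (((i : ℕ) + k : ℕ) : ℤ)‖ ^ 2 ≤
      σ ^ 2 * ∑ i, ‖u i‖ ^ 2 := by
  have h1 := bessel1 (g := fun t => (∑ i, u i * fourier (-((i : ℕ) : ℤ)) t) * g t) (by fun_prop) M
  rw [← int_sq_poly, ← integral_const_mul]
  refine le_trans (le_of_eq (sum_congr rfl fun k _ => ?_)) (h1.trans
    (integral_mono (int_of_cont (by fun_prop)) (int_of_cont (by fun_prop)) fun t => ?_))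
  · refine congrArg (fun x : ℂ => ‖x‖ ^ 2) ?_
    simp only [fourierCoeff, smul_eq_mul, sum_mul, mul_sum, ← integral_const_mul]
    rw [integral_finsetSum _ fun i _ => int_of_cont (by fun_prop)]
    refine sum_congr rfl fun i _ => integral_congr_ae (.of_forall fun t => ?_)
    simp only [Nat.cast_add, neg_add, fourier_add]
    ring
  · simp only [norm_mul, mul_pow]
    rw [mul_comm]
    exact mul_le_mul_of_nonneg_right (pow_le_pow_left₀ (norm_nonneg _) (hσ t) 2) (by positivity)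

theorem hankel {g : UnitAddCircle → ℂ} (h : Continuous g) {σ : ℝ} (hσ : ∀ t, ‖g t‖ ≤ σ) {N : ℕ}
    (hr : Rk N fun m => fourierCoeff g (m : ℤ)) (M : ℕ) :
    ∑ k ∈ range M, ∑ i ∈ range M, ‖fourierCoeff g ((i + k : ℕ) : ℤ)‖ ^ 2 ≤ N * σ ^ 2 := by
  obtain ⟨V, h1, h2, h3⟩ := hr
  let L : (ℕ → ℂ) →ₗ[ℂ] EuclideanSpace ℂ (Fin M) :=
    (WithLp.linearEquiv 2 ℂ (Fin M → ℂ)).symm.toLinearMap ∘ₗ LinearMap.funLeft ℂ ℂ Fin.val
  let b := stdOrthonormalBasis ℂ (V.map L)
  have h4 : ∀ k, ∑ i ∈ range M, ‖fourierCoeff g ((i + k : ℕ) : ℤ)‖ ^ 2 =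
      ∑ l, ‖∑ i : Fin M, conj ((b l).1 i) * fourierCoeff g (((i : ℕ) + k : ℕ) : ℤ)‖ ^ 2 := by
    intro k
    have h5 := b.sum_sq_norm_inner_right ⟨_, Submodule.mem_map_of_mem (h3 k)⟩
    rw [Submodule.coe_norm, EuclideanSpace.norm_sq_eq] at h5
    rw [← Fin.sum_univ_eq_sum_range fun i => ‖fourierCoeff g ((i + k : ℕ) : ℤ)‖ ^ 2]
    refine Eq.trans h5.symm (sum_congr rfl fun l _ => ?_)
    rw [Submodule.coe_inner, PiLp.inner_apply]
    simp only [RCLike.inner_apply, mul_comm]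
    rfl
  simp only [h4]
  rw [sum_comm]
  refine (sum_le_card_nsmul _ _ (σ ^ 2) fun l _ => (op_bound h hσ _).trans_eq ?_).trans ?_
  · have h5 := b.orthonormal.1 l
    have h6 := EuclideanSpace.norm_sq_eq (b l).1
    rw [← Submodule.coe_norm, h5] at h6
    simp only [Complex.norm_conj]
    rw [← h6, one_pow, mul_one]
  · rw [card_univ, Fintype.card_fin, nsmul_eq_mul]
    refine mul_le_mul_of_nonneg_right ?_ (by positivity)
    exact_mod_cast (Submodule.finrank_map_le L V).trans h2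

theorem hankel_block {g : UnitAddCircle → ℂ} (h : Continuous g) {σ : ℝ} (hσ : ∀ t, ‖g t‖ ≤ σ)
    {N : ℕ} (hr : Rk N fun m => fourierCoeff g (m : ℤ)) (M : ℕ) :
    M * ∑ m ∈ Ico M (2 * M), ‖fourierCoeff g (m : ℤ)‖ ^ 2 ≤ N * σ ^ 2 := by
  refine le_trans ?_ (hankel h hσ hr (2 * M))
  calc _ = ∑ k ∈ range M, ∑ m ∈ Ico M (2 * M), ‖fourierCoeff g (m : ℤ)‖ ^ 2 := by simp
    _ ≤ ∑ k ∈ range M, ∑ i ∈ range (2 * M), ‖fourierCoeff g ((i + k : ℕ) : ℤ)‖ ^ 2 := by
      refine sum_le_sum fun k hk => ?_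
      have := mem_range.1 hk
      rw [range_eq_Ico, sum_Ico_add' (fun m : ℕ => ‖fourierCoeff g (m : ℤ)‖ ^ 2)]
      exact sum_le_sum_of_subset_of_nonneg (Ico_subset_Ico (by omega) (by omega))
        fun _ _ _ => by positivity
    _ ≤ _ := sum_le_sum_of_subset_of_nonneg (range_subset_range.2 (by omega))
        fun _ _ _ => by positivity

end Pool.Agent.Work.MP_a1ab50_an.T
end

-- merged part: Pool.Agent.Work.MP_a1ab50_an.T.Line
section
/-! One variable estimates for Taylor coefficients. -/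

set_option autoImplicit false

namespace Pool.Agent.Work.MP_a1ab50_an.T

open Filter Topology MeasureTheory Real Finset Metric
open scoped Nat

/-- Taylor coefficients at the origin. -/
noncomputable def co (f : ℂ → ℂ) (m : ℕ) : ℂ := (m ! : ℂ)⁻¹ * iteratedDeriv m f 0

variable {f : ℂ → ℂ} {ρ : ℝ}

theorem hasSum_co (hf : DifferentiableOn ℂ f (ball 0 ρ)) {w : ℂ} (hw : ‖w‖ < ρ) :
    HasSum (fun k => co f k * w ^ k) (f w) := by
  refine (Complex.hasSum_taylorSeries_on_ball hf (mem_ball_zero_iff.2 hw)).congr_fun fun k => ?_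
  simp only [co, smul_eq_mul, sub_zero]
  ring

theorem hasSum_fc (hf : DifferentiableOn ℂ f (ball 0 ρ)) (hρ : 1 < ρ) {ζ : ℂ} (hζ : ‖ζ‖ = 1)
    (m : ℤ) : HasSum (fun k : ℕ => if (k : ℤ) = m then ζ ^ k * co f k else 0)
      (fourierCoeff (fun t => f (ζ * e1 t)) m) := by
  have h1 : Summable fun k => ‖co f k‖ := by
    simpa using (hasSum_co hf (w := 1) (by simpa using hρ)).summable.norm
  have h2 := hasSum_integral_of_summable_integral_norm (μ := hm)
    (F := fun (k : ℕ) (t : UnitAddCircle) => ζ ^ k * co f k * fourier ((k : ℤ) - m) t)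
    (fun k => int_of_cont (by fun_prop)) (by simpa [norm_fourier, hζ, -fourier_apply] using h1)
  simp only [integral_const_mul, int_fourier, sub_eq_zero, mul_ite, mul_one, mul_zero] at h2
  refine (congrArg (HasSum fun k : ℕ => if (k : ℤ) = m then ζ ^ k * co f k else 0)
    (integral_congr_ae (.of_forall fun t => ?_))).mp h2
  refine HasSum.tsum_eq ?_
  refine ((hasSum_co hf (w := ζ * e1 t) (by rwa [norm_mul, hζ, norm_e1, one_mul])).mul_left
    (fourier (-m) t)).congr_fun fun k => ?_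
  rw [sub_eq_add_neg, fourier_add, fourier_nat, mul_pow]
  ring

theorem fc_nat (hf : DifferentiableOn ℂ f (ball 0 ρ)) (hρ : 1 < ρ) {ζ : ℂ} (hζ : ‖ζ‖ = 1)
    (m : ℕ) : fourierCoeff (fun t => f (ζ * e1 t)) (m : ℤ) = ζ ^ m * co f m := by
  refine (hasSum_fc hf hρ hζ m).unique ?_
  simp only [Nat.cast_inj]
  exact hasSum_ite_eq m _ |>.congr_fun fun k => by split_ifs with h <;> simp [h]

theorem fc_nat' (hf : DifferentiableOn ℂ f (ball 0 ρ)) (hρ : 1 < ρ) (m : ℕ) :
    fourierCoeff (fun t => f (e1 t)) (m : ℤ) = co f m := by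
  simpa using fc_nat hf hρ (ζ := 1) norm_one m

theorem fc_neg (hf : DifferentiableOn ℂ f (ball 0 ρ)) (hρ : 1 < ρ) {m : ℤ} (hm' : m < 0) :
    fourierCoeff (fun t => f (e1 t)) m = 0 := by
  have h := hasSum_fc hf hρ (ζ := 1) norm_one m
  simp only [one_mul] at h
  refine h.unique (hasSum_zero.congr_fun fun k => if_neg (by omega))

theorem fc_poly_mul {g : UnitAddCircle → ℂ} (hg : Continuous g) {q : Polynomial ℂ} {D : ℕ}
    (hq : q.natDegree ≤ D) (m : ℤ) : fourierCoeff (fun t => q.eval (e1 t) * g t) m =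
      ∑ l ∈ range (D + 1), q.coeff l * fourierCoeff g (m - l) := by
  simp only [Polynomial.eval_eq_sum_range' (Nat.lt_succ_of_le hq), fourierCoeff, smul_eq_mul,
    sum_mul, mul_sum, ← integral_const_mul, ← fourier_nat]
  rw [integral_finsetSum _ fun i _ => int_of_cont (by fun_prop)]
  refine sum_congr rfl fun i _ => integral_congr_ae (.of_forall fun t => ?_)
  simp only [sub_eq_add_neg, neg_add, neg_neg, fourier_add]
  ring

theorem rk_rat {g : UnitAddCircle → ℂ} (hg : Continuous g) {p q : Polynomial ℂ} {D : ℕ}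
    (hp : p.natDegree ≤ D) (hq : q.natDegree ≤ D) (h0 : q.coeff 0 ≠ 0)
    (e : ∀ t, q.eval (e1 t) * g t = p.eval (e1 t)) :
    Rk (D + 1) fun m => fourierCoeff g (m : ℤ) := by
  refine Rk.of_rec h0 fun m hm' => ?_
  have h1 := fc_poly_mul hg hq m
  have h2 := fc_poly_mul (g := fun _ => 1) continuous_const hp m
  simp only [e] at h1
  simp only [mul_one] at h2
  rw [h2, sum_eq_zero fun l hl => ?_] at h1
  · refine Eq.trans (sum_congr rfl fun l hl => ?_) h1.symm
    rw [Nat.cast_sub (by have := mem_range.1 hl; omega)]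
  · have := mem_range.1 hl
    simp only [fourierCoeff, smul_eq_mul, mul_one, int_fourier]
    rw [if_neg (by omega), mul_zero]

theorem co_deriv (f : ℂ → ℂ) (m : ℕ) : co (deriv f) m = (m + 1) * co f (m + 1) := by
  have h1 : (m ! : ℂ) ≠ 0 := by exact_mod_cast m.factorial_ne_zero
  have h2 : (m + 1 : ℂ) ≠ 0 := by exact_mod_cast m.succ_ne_zero
  rw [co, co, iteratedDeriv_succ', Nat.factorial_succ]
  push_cast
  field_simp

theorem rk_iter {N : ℕ} (h : Rk N (co f)) (r : ℕ) : Rk (2 ^ r * N) (co (iteratedDeriv r f)) := by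
  induction r with
  | zero => simpa using h
  | succ r ih =>
    rw [iteratedDeriv_succ, pow_succ', mul_assoc, funext (co_deriv _)]
    exact ih.der

theorem co_iter (r : ℕ) : ∀ m : ℕ, (m : ℝ) ^ r * ‖co f (m + r)‖ ≤ ‖co (iteratedDeriv r f) m‖ := by
  induction r with
  | zero => simp
  | succ r ih =>
    intro m
    have h := ih (m + 1)
    rw [iteratedDeriv_succ, co_deriv, norm_mul, pow_succ', mul_assoc, add_comm r, ← add_assoc]
    refine mul_le_mul ?_ (le_trans ?_ h) (by positivity) (norm_nonneg _)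
    · rw [← Nat.cast_succ, Complex.norm_natCast]
      exact_mod_cast m.le_succ
    · gcongr
      omega

theorem diff_iter (hf : DifferentiableOn ℂ f (ball 0 ρ)) (r : ℕ) :
    DifferentiableOn ℂ (iteratedDeriv r f) (ball 0 ρ) := by
  induction r with
  | zero => simpa using hf
  | succ r ih =>
    rw [iteratedDeriv_succ]
    exact ih.deriv isOpen_ball

theorem holder_block (hf : DifferentiableOn ℂ f (ball 0 ρ)) (hρ : 1 < ρ) {N r n : ℕ}
    (h : Rk N (co f)) {C β : ℝ} (hC : 0 ≤ C) (b0 : 0 ≤ β) (b1 : β ≤ 1)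
    (hn : (n : ℝ) - 1 ≤ 2 * (r + β))
    (hH : ∀ w w' : ℂ, ‖w‖ = 1 → ‖w'‖ = 1 →
      ‖iteratedDeriv r f w - iteratedDeriv r f w'‖ ≤ C * ‖w - w'‖ ^ β) {M : ℕ} (hM : 1 ≤ M) :
    (M : ℝ) ^ n * ∑ m ∈ Ico M (2 * M), ‖co f (m + r)‖ ^ 2 ≤ (2 * (2 ^ r * N) : ℕ) * (4 * C ^ 2) := by
  have M1 : (1 : ℝ) ≤ M := by exact_mod_cast hM
  have M0 : (0 : ℝ) < M := by linarith
  obtain ⟨ζ, hζ⟩ : ∃ ζ, ζ = e1 ((1 / (4 * M) : ℝ) : UnitAddCircle) := ⟨_, rfl⟩
  have z1 : ‖ζ‖ = 1 := by rw [hζ, norm_e1]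
  have hd := diff_iter hf r
  set g := iteratedDeriv r f
  have hc : ∀ u : ℂ, ‖u‖ = 1 → Continuous fun t => g (u * e1 t) := fun u hu =>
    hd.continuousOn.comp_continuous (continuous_const.mul cont_e1) fun t => by
      rwa [mem_ball_zero_iff, norm_mul, hu, norm_e1, one_mul]
  have h1 : ∀ m : ℕ, fourierCoeff (fun t => g (ζ * e1 t) - g (1 * e1 t)) (m : ℤ) =
      (ζ ^ m - 1) * co g m := fun m => by
    have h2 := fc_nat hd hρ z1 m
    have h3 := fc_nat hd hρ (ζ := 1) norm_one m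
    simp only [fourierCoeff, smul_eq_mul, mul_sub] at h2 h3 ⊢
    have c1 : ∀ u : ℂ, ‖u‖ = 1 → Integrable (fun t => fourier (-m) t * g (u * e1 t)) hm :=
      fun u hu => int_of_cont ((fourier _).continuous.mul (hc _ hu))
    rw [integral_sub (c1 _ z1) (c1 _ norm_one), h2, h3]
    ring
  have h2 : ‖ζ - 1‖ ≤ 2 / M := by
    rw [hζ, e1_coe]
    refine norm_exp_I_mul_ofReal_sub_one_le.trans ?_
    rw [Real.norm_of_nonneg (by positivity), le_div_iff₀ M0]
    field_simp
    linarith [pi_le_four]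
  have h3 := hankel_block (g := fun t => g (ζ * e1 t) - g (1 * e1 t))
    ((hc _ z1).sub (hc _ norm_one))
    (σ := C * (2 / M) ^ β) (N := 2 * (2 ^ r * N)) (fun t => by
      refine (hH _ _ (by rw [norm_mul, z1, norm_e1, one_mul])
        (by rw [one_mul, norm_e1])).trans ?_
      rw [← sub_mul, norm_mul, norm_e1, mul_one]
      gcongr) (by simpa only [h1] using (rk_iter h r).rot ζ) M
  simp only [h1] at h3
  have h4 : (M : ℝ) ^ (2 * r) * ∑ m ∈ Ico M (2 * M), ‖co f (m + r)‖ ^ 2 ≤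
      ∑ m ∈ Ico M (2 * M), ‖(ζ ^ m - 1) * co g m‖ ^ 2 := by
    rw [mul_sum]
    refine sum_le_sum fun m hm' => ?_
    have m1 : (M : ℝ) ≤ m := by exact_mod_cast (mem_Ico.1 hm').1
    have m2 : (m : ℝ) ≤ 2 * M := by exact_mod_cast (mem_Ico.1 hm').2.le
    have h5 : 1 ≤ ‖ζ ^ m - 1‖ := by
      have h6 : ζ ^ m = e1 ((m / (4 * M) : ℝ) : UnitAddCircle) := by
        rw [hζ, e1_coe, e1_coe, ← Complex.exp_nat_mul]
        refine congrArg Complex.exp ?_
        push_cast
        ring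
      have h7 : |(m : ℝ) / (4 * M)| = m / (4 * M) := abs_of_nonneg (by positivity)
      have h8 := chord_coe (t := m / (4 * M)) (by rw [h7, div_le_iff₀ (by positivity)]; linarith)
      rw [h7, ← h6] at h8
      refine le_trans ?_ h8
      rw [← mul_div_assoc, le_div_iff₀ (by positivity)]
      linarith
    rw [pow_mul', ← mul_pow, norm_mul]
    refine pow_le_pow_left₀ (by positivity) ?_ 2
    refine le_trans (le_trans ?_ (co_iter r m)) (le_mul_of_one_le_left (norm_nonneg _) h5)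
    gcongr
  have h5 : (M : ℝ) ^ n ≤ (M ^ β) ^ 2 * (M * M ^ (2 * r)) := by
    rw [← pow_succ', ← Real.rpow_natCast, ← Real.rpow_natCast, ← Real.rpow_natCast,
      ← Real.rpow_mul M0.le, ← Real.rpow_add M0]
    refine Real.rpow_le_rpow_of_exponent_le M1 ?_
    push_cast
    linarith
  have h6 : (M : ℝ) ^ β * (2 / M) ^ β ≤ 2 := by
    rw [← Real.mul_rpow M0.le (by positivity), mul_div_cancel₀ _ M0.ne']
    simpa using Real.rpow_le_rpow_of_exponent_le one_le_two b1
  calc _ ≤ (M ^ β) ^ 2 * (M * M ^ (2 * r)) * ∑ m ∈ Ico M (2 * M), ‖co f (m + r)‖ ^ 2 := by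
        gcongr
    _ = (M ^ β) ^ 2 * (M * (M ^ (2 * r) * ∑ m ∈ Ico M (2 * M), ‖co f (m + r)‖ ^ 2)) := by ring
    _ ≤ (M ^ β) ^ 2 * ((2 * (2 ^ r * N) : ℕ) * (C * (2 / M) ^ β) ^ 2) :=
        mul_le_mul_of_nonneg_left ((mul_le_mul_of_nonneg_left h4 M0.le).trans h3) (by positivity)
    _ = (2 * (2 ^ r * N) : ℕ) * (((M : ℝ) ^ β * (2 / M) ^ β) ^ 2 * C ^ 2) := by ring
    _ ≤ _ := by
        gcongr
        exact (pow_le_pow_left₀ (by positivity) h6 2).trans_eq (by norm_num)

theorem decay_block {δ B : ℝ} (d0 : 0 < δ) (d1 : δ ≤ 1)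
    (hf : DifferentiableOn ℂ f (ball 0 (1 + 2 * δ))) (hB : ∀ w : ℂ, ‖w‖ = 1 + δ → ‖f w‖ ≤ B)
    (n r : ℕ) {M : ℕ} (hM : 1 ≤ M) : (M : ℝ) ^ n * ∑ m ∈ Ico M (2 * M), ‖co f (m + r)‖ ^ 2 ≤
      (B * (n + 1)! * (2 / δ) ^ (n + 1)) ^ 2 / M := by
  have M1 : (1 : ℝ) ≤ M := by exact_mod_cast hM
  have M0 : (0 : ℝ) < M := by linarith
  have B0 : 0 ≤ B := (norm_nonneg _).trans (hB (1 + δ : ℝ) (by
    rw [Complex.norm_real, Real.norm_of_nonneg (by positivity)]))
  have h1 : ∀ m ∈ Ico M (2 * M),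
      ‖co f (m + r)‖ ^ 2 ≤ (B * (n + 1)! * (2 / δ) ^ (n + 1) / M ^ (n + 1)) ^ 2 := fun m hm' => by
    refine pow_le_pow_left₀ (norm_nonneg _) ?_ 2
    have h2 := Complex.norm_iteratedDeriv_le_of_forall_mem_sphere_norm_le (m + r)
      (show 0 < 1 + δ by positivity) (hf.diffContOnCl_ball (closedBall_subset_ball (by linarith)))
      fun w hw => hB w (mem_sphere_zero_iff_norm.1 hw)
    have h3 : (0 : ℝ) < (m + r)! := by exact_mod_cast (m + r).factorial_pos
    rw [co, norm_mul, norm_inv, Complex.norm_natCast, inv_mul_le_iff₀ h3]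
    refine h2.trans ?_
    rw [mul_div_assoc]
    refine mul_le_mul_of_nonneg_left ?_ h3.le
    have h4 : Real.exp (δ / 2) ≤ 1 + δ := by
      have h5 := Real.add_one_le_exp (-(δ / 2))
      have h6 : Real.exp (δ / 2) * Real.exp (-(δ / 2)) = 1 := by rw [← Real.exp_add]; simp
      nlinarith [Real.exp_pos (δ / 2)]
    have h5 : (M * (δ / 2)) ^ (n + 1) / (n + 1)! ≤ (1 + δ) ^ (m + r) := by
      refine (Real.pow_div_factorial_le_exp _ (by positivity) _).trans ?_
      rw [Real.exp_nat_mul]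
      exact (pow_le_pow_left₀ (Real.exp_pos _).le h4 M).trans
        (pow_le_pow_right₀ (by linarith) (by have := (mem_Ico.1 hm').1; omega))
    refine (div_le_div_of_nonneg_left B0 (by positivity) h5).trans_eq ?_
    rw [mul_pow, div_pow, div_pow]
    field_simp
  refine (mul_le_mul_of_nonneg_left (sum_le_card_nsmul _ _ _ h1) (by positivity)).trans ?_
  rw [Nat.card_Ico, two_mul, Nat.add_sub_cancel, nsmul_eq_mul, ← mul_assoc, ← pow_succ, div_pow,
    ← mul_div_assoc, div_le_div_iff₀ (by positivity) M0]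
  have h2 : (M : ℝ) ≤ M ^ (n + 1) := le_self_pow₀ M1 n.succ_ne_zero
  calc _ = (B * (n + 1)! * (2 / δ) ^ (n + 1)) ^ 2 * (M ^ (n + 1) * M) := by ring
    _ ≤ (B * (n + 1)! * (2 / δ) ^ (n + 1)) ^ 2 * (M ^ (n + 1) * M ^ (n + 1)) := by gcongr
    _ = _ := by ring

end Pool.Agent.Work.MP_a1ab50_an.T
end

-- merged part: Pool.Agent.Work.MP_a1ab50_an.T.Tor
section
/-! Fourier coefficients on the torus, slices, and the link with formal power series. -/

set_option autoImplicit false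

namespace Pool.Agent.Work.MP_a1ab50_an.T

open Filter Topology MeasureTheory Real Finset UnitAddTorus

variable {n : ℕ} {G : (Fin n → UnitAddCircle) → ℂ}

/-- Fourier coefficient on the torus. -/
noncomputable def cf (G : (Fin n → UnitAddCircle) → ℂ) (k : Fin n → ℤ) : ℂ :=
  ∫ θ, mFourier (-k) θ * G θ ∂pm n

/-- Fourier coefficient along a slice. -/
noncomputable def sl (G : (Fin n → UnitAddCircle) → ℂ) (j : Fin n) (m : ℤ)
    (θ : Fin n → UnitAddCircle) : ℂ :=
  fourierCoeff (fun t => G (θ + Pi.single j t)) m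

theorem int_tor {E : Type} [NormedAddCommGroup E] {g : (Fin n → UnitAddCircle) → E}
    (h : Continuous g) : Integrable g (pm n) :=
  h.integrable_of_hasCompactSupport (HasCompactSupport.of_compactSpace g)

theorem cont_slice (hG : Continuous G) (j : Fin n) :
    Continuous fun x : (Fin n → UnitAddCircle) × UnitAddCircle => G (x.1 + Pi.single j x.2) :=
  hG.comp (continuous_fst.add ((continuous_single j).comp continuous_snd))

theorem cont_sl (hG : Continuous G) (j : Fin n) (m : ℤ) : Continuous (sl G j m) := by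
  have := continuous_parametric_integral_of_continuous (μ := hm)
    (f := fun (θ : Fin n → UnitAddCircle) (t : UnitAddCircle) =>
      fourier (-m) t • G (θ + Pi.single j t))
    (((fourier (-m)).continuous.comp continuous_snd).smul (cont_slice hG j)) isCompact_univ
  simpa only [Measure.restrict_univ] using! this

theorem mFourier_shift (k : Fin n → ℤ) (θ : Fin n → UnitAddCircle) (j : Fin n)
    (t : UnitAddCircle) : mFourier k (θ + Pi.single j t) = mFourier k θ * fourier (k j) t := by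
  have h : ∀ i, fourier (k i) ((θ + Pi.single j t : Fin n → UnitAddCircle) i) =
      fourier (k i) (θ i) * if i = j then fourier (k j) t else 1 := fun i => by
    split_ifs with h
    · simp [h, AddCircle.toCircle_add]
    · simp [h]
  simp only [mFourier, ContinuousMap.coe_mk, h, prod_mul_distrib, prod_ite_eq', mem_univ, if_true]

theorem cf_sl (hG : Continuous G) (j : Fin n) (m : ℤ) (k : Fin n → ℤ) :
    cf (sl G j m) k = if k j = m then cf G k else 0 := by
  have h1 : ∀ t : UnitAddCircle, ∫ θ, mFourier (-k) θ * (fourier (-m) t * G (θ + Pi.single j t))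
      ∂pm n = fourier (k j - m) t * cf G k := fun t => by
    rw [cf, ← integral_add_right_eq_self (fun θ => mFourier (-k) θ * G θ) (Pi.single j t),
      ← integral_const_mul]
    refine integral_congr_ae (.of_forall fun θ => ?_)
    have h2 : fourier (k j - m) t * fourier (-k j) t = fourier (-m) t := by
      rw [← fourier_add]
      refine congrArg (fun x => fourier x t) (by ring)
    simp only [mFourier_shift, Pi.neg_apply]
    rw [← h2]
    ring
  simp only [cf, sl, fourierCoeff, smul_eq_mul, ← integral_const_mul]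
  rw [integral_integral_swap]
  · simp only [h1, integral_mul_const, int_fourier, sub_eq_zero, ite_mul, one_mul, zero_mul]
    rfl
  · exact Continuous.integrable_of_hasCompactSupport
      (((mFourier (-k)).continuous.comp continuous_fst).mul
        (((fourier (-m)).continuous.comp continuous_snd).mul (cont_slice hG j)))
      (HasCompactSupport.of_compactSpace _)

theorem bessel (hG : Continuous G) (T : Finset (Fin n → ℤ)) :
    ∑ k ∈ T, ‖cf G k‖ ^ 2 ≤ ∫ θ, ‖G θ‖ ^ 2 ∂pm n := by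
  let g : C(Fin n → UnitAddCircle, ℂ) := ⟨G, hG⟩
  have h1 := hasSum_sq_mFourierCoeff (ContinuousMap.toLp (E := ℂ) 2 (pm n) ℂ g)
  have h2 := ContinuousMap.coeFn_toLp (p := 2) (𝕜 := ℂ) (pm n) g
  have h3 : ∀ k, mFourierCoeff (ContinuousMap.toLp (E := ℂ) 2 (pm n) ℂ g) k = cf G k := fun k =>
    integral_congr_ae (μ := pm n) (h2.mono fun θ e => congrArg (mFourier (-k) θ * ·) e)
  have h4 : ∫ θ, ‖(ContinuousMap.toLp (E := ℂ) 2 (pm n) ℂ g) θ‖ ^ 2 ∂pm n =
      ∫ θ, ‖G θ‖ ^ 2 ∂pm n := integral_congr_ae (h2.mono fun θ e => congrArg (‖·‖ ^ 2) e)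
  rw [← h4, ← funext h3]
  exact sum_le_hasSum _ (fun _ _ => by positivity) h1

theorem bessel_sl (hG : Continuous G) (j : Fin n) (I : Finset ℕ) (r : ℕ)
    (T : Finset (Fin n →₀ ℕ)) (hT : ∀ k ∈ T, ∃ m ∈ I, k j = m + r) :
    ∑ k ∈ T, ‖cf G fun i => k i‖ ^ 2 ≤ ∫ θ, ∑ m ∈ I, ‖sl G j (m + r : ℕ) θ‖ ^ 2 ∂pm n := by
  rw [integral_finsetSum (f := fun (m : ℕ) θ => ‖sl G j (m + r : ℕ) θ‖ ^ 2) _
    fun m _ => int_tor ((cont_sl hG j _).norm.pow 2)]
  let φ : (Fin n →₀ ℕ) ↪ (Fin n → ℤ) := ⟨fun k i => k i, fun k k' e =>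
    Finsupp.ext fun i => Nat.cast_injective (congrFun e i)⟩
  refine le_trans ?_ (sum_le_sum fun m _ => bessel (cont_sl hG j _) (T.map φ))
  simp only [sum_map]
  rw [sum_comm]
  refine sum_le_sum fun k hk => ?_
  obtain ⟨m, hm', e⟩ := hT k hk
  refine le_trans (le_of_eq ?_) (single_le_sum (f := fun m : ℕ =>
    ‖cf (sl G j (m + r : ℕ)) (φ k)‖ ^ 2) (fun _ _ => by positivity) hm')
  rw [cf_sl hG, if_pos (show φ k j = (m + r : ℕ) from congrArg Nat.cast e)]
  rfl

theorem cf_zero (hG : Continuous G) {j : Fin n} {k : Fin n → ℤ}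
    (h : ∀ᵐ θ ∂pm n, sl G j (k j) θ = 0) : cf G k = 0 := by
  have h1 := cf_sl hG j (k j) k
  rw [if_pos rfl] at h1
  rw [← h1]
  exact integral_eq_zero_of_ae (h.mono fun θ e => by simp [e])

theorem cf_X (G : (Fin n → UnitAddCircle) → ℂ) (i : Fin n) (k : Fin n → ℤ) :
    cf (fun θ => e1 (θ i) * G θ) k = cf G (k - Pi.single i 1) := by
  refine integral_congr_ae (.of_forall fun θ => ?_)
  simp only [neg_sub', sub_neg_eq_add, mFourier_add, mFourier_single, e1, mul_assoc]

theorem cf_one (k : Fin n → ℤ) : cf (fun _ => 1) k = if k = 0 then 1 else 0 := by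
  simp only [cf, mul_one, mFourier, ContinuousMap.coe_mk]
  rw [integral_fintype_prod_eq_prod fun i (t : UnitAddCircle) => fourier ((-k) i) t]
  simp only [int_fourier, prod_ite_zero, prod_const_one, mem_univ, forall_true_left, Pi.neg_apply,
    neg_eq_zero, funext_iff, Pi.zero_apply]

/-- The power series with the Fourier coefficients of `G`. -/
noncomputable def ps (G : (Fin n → UnitAddCircle) → ℂ) : MvPowerSeries (Fin n) ℂ :=
  fun k => cf G fun i => k i

theorem ps_mul (Q : MvPolynomial (Fin n) ℝ) : ∀ {G : (Fin n → UnitAddCircle) → ℂ}, Continuous G →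
    (∀ (k : Fin n → ℤ) j, k j < 0 → cf G k = 0) →
    ps (fun θ => MvPolynomial.aeval (ex θ) Q * G θ) =
      MvPowerSeries.map (algebraMap ℝ ℂ) (Q : MvPowerSeries (Fin n) ℝ) * ps G := by
  induction Q using MvPolynomial.induction_on with
  | C a =>
    intro G _ _
    ext k
    rw [MvPolynomial.coe_C, MvPowerSeries.map_C, MvPowerSeries.coeff_C_mul]
    simp only [MvPolynomial.aeval_C]
    refine Eq.trans ?_ (integral_const_mul _ _)
    exact integral_congr_ae (.of_forall fun θ => mul_left_comm _ _ _)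
  | add p q hp hq =>
    intro G h1 h2
    rw [MvPolynomial.coe_add, map_add, add_mul, ← hp h1 h2, ← hq h1 h2]
    ext k
    have c : ∀ (p : MvPolynomial (Fin n) ℝ) (l : Fin n → ℤ), Integrable
        (fun θ => mFourier l θ * (MvPolynomial.aeval (ex θ) p * G θ)) (pm n) := fun p l =>
      int_tor ((mFourier l).continuous.mul (((cont_aeval p).comp cont_ex).mul h1))
    refine Eq.trans ?_ (integral_add (c p _) (c q _))
    exact integral_congr_ae (.of_forall fun θ => by simp only [map_add]; ring)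
  | mul_X p i hp =>
    intro G h1 h2
    have h3 := hp (G := fun θ => e1 (θ i) * G θ) ((cont_e1.comp (continuous_apply i)).mul h1)
      fun k j h => by
        rw [cf_X]
        refine h2 _ j ?_
        rw [Pi.sub_apply, Pi.single_apply]
        split_ifs <;> omega
    have h4 : ps (fun θ => e1 (θ i) * G θ) = MvPowerSeries.X i * ps G := by
      ext k
      rw [MvPowerSeries.X_def, MvPowerSeries.coeff_monomial_mul]
      refine (cf_X G i _).trans ?_
      split_ifs with h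
      · rw [one_mul]
        refine congrArg (cf G) (funext fun j => ?_)
        have := h j
        rw [Pi.sub_apply, Finsupp.tsub_apply, Nat.cast_sub this, Finsupp.single_apply,
          Pi.single_apply]
        simp [eq_comm]
      · refine h2 _ i ?_
        rw [Finsupp.single_le_iff] at h
        simp only [Pi.sub_apply, Pi.single_eq_same]
        omega
    rw [MvPolynomial.coe_mul, map_mul, MvPolynomial.coe_X, MvPowerSeries.map_X, mul_assoc, ← h4,
      ← h3]
    simp only [map_mul, MvPolynomial.aeval_X, ex, mul_assoc]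

theorem ps_one : ps (fun _ : Fin n → UnitAddCircle => 1) = 1 := by
  ext k
  rw [MvPowerSeries.coeff_one]
  refine (cf_one _).trans (if_congr ?_ rfl rfl)
  simp [funext_iff, Finsupp.ext_iff]

theorem coeff_eq {P Q : MvPolynomial (Fin n) ℝ} (hQ : MvPolynomial.constantCoeff Q ≠ 0)
    (hG : Continuous G) (h : ∀ (k : Fin n → ℤ) j, k j < 0 → cf G k = 0)
    (e : ∀ θ, MvPolynomial.aeval (ex θ) Q * G θ = MvPolynomial.aeval (ex θ) P) (k : Fin n →₀ ℕ) :
    |MvPowerSeries.coeff k ((P : MvPowerSeries (Fin n) ℝ) * (Q : MvPowerSeries (Fin n) ℝ)⁻¹)| =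
      ‖cf G fun i => k i‖ := by
  have h1 := ps_mul Q hG h
  have h2 := ps_mul P (G := fun _ => 1) continuous_const fun k j h => by
    rw [cf_one, if_neg]
    rintro rfl
    exact h.false
  simp only [e] at h1
  simp only [mul_one, ps_one] at h2
  have h3 : (Q : MvPowerSeries (Fin n) ℝ) * (Q : MvPowerSeries (Fin n) ℝ)⁻¹ = 1 :=
    MvPowerSeries.mul_inv_cancel _ hQ
  have h4 : MvPowerSeries.map (algebraMap ℝ ℂ)
      ((P : MvPowerSeries (Fin n) ℝ) * (Q : MvPowerSeries (Fin n) ℝ)⁻¹) = ps G := by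
    rw [map_mul, ← h2, h1, mul_right_comm, ← map_mul, h3, map_one, one_mul]
  have h5 := congrArg (fun φ => ‖MvPowerSeries.coeff k φ‖) h4
  simp only [MvPowerSeries.coeff_map, Complex.coe_algebraMap, Complex.norm_real,
    Real.norm_eq_abs] at h5
  exact h5

end Pool.Agent.Work.MP_a1ab50_an.T
end

-- merged part: Pool.Agent.Work.MP_a1ab50_an.T.Slice
section
/-! Estimates along one slice. -/

set_option autoImplicit false

namespace Pool.Agent.Work.MP_a1ab50_an.T

open Filter Topology MeasureTheory Real Finset Metric MvPolynomial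
open scoped NNReal Nat

variable {n : ℕ}

theorem slice_deriv {F : (Fin n → ℂ) → ℂ} {r : ℕ} (hF : ContDiffOn ℝ r F (polydisc n))
    {x v : Fin n → ℂ} (hm' : ∀ w ∈ closedBall (0 : ℂ) 1, x + w • v ∈ polydisc n) {f : ℂ → ℂ}
    (hf : ∀ w ∈ closedBall (0 : ℂ) 1, AnalyticAt ℂ f w)
    (e : ∀ w ∈ closedBall (0 : ℂ) 1, f w = F (x + w • v)) {w : ℂ} (hw : w ∈ closedBall (0 : ℂ) 1) :
    iteratedDeriv r f w = iteratedFDerivWithin ℝ r F (polydisc n) (x + w • v) fun _ => v := by
  let g : ℂ →ᴬ[ℝ] (Fin n → ℂ) := ContinuousAffineMap.const ℝ ℂ x +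
    ((ContinuousLinearMap.toSpanSingleton ℂ v).restrictScalars ℝ).toContinuousAffineMap
  have u : UniqueDiffOn ℝ (closedBall (0 : ℂ) 1) := uniqueDiffOn_convex (convex_closedBall _ _)
    ⟨0, mem_interior_iff_mem_nhds.2 (closedBall_mem_nhds _ one_pos)⟩
  have h1 := ((((hF.ftaylorSeriesWithin unique_polydisc).comp_continuousAffineMap g).mono
    (t := closedBall 0 1) hm').congr e).eq_iteratedFDerivWithin_of_uniqueDiffOn le_rfl u hw
  rw [iteratedFDerivWithin_eq_iteratedFDeriv u ((hf w hw).contDiffAt.restrict_scalars ℝ) hw,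
    ← (hf w hw).contDiffAt.restrictScalars_iteratedFDeriv] at h1
  have h2 := congrArg (fun ψ => ψ fun _ => 1) h1
  refine h2.symm.trans ?_
  simp only [ContinuousMultilinearMap.compContinuousLinearMap_apply]
  refine congrArg _ (funext fun _ => ?_)
  simp [g]

theorem slice_poly (Q : MvPolynomial (Fin n) ℝ) : ∃ D : ℕ, ∀ x v : Fin n → ℂ,
    ∃ q : Polynomial ℂ, q.natDegree ≤ D ∧ ∀ w, q.eval w = aeval (x + w • v) Q := by
  induction Q using MvPolynomial.induction_on with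
  | C a => exact ⟨0, fun _ _ => ⟨Polynomial.C (a : ℂ), by simp, by simp⟩⟩
  | add p q hp hq =>
    obtain ⟨D, hp⟩ := hp
    obtain ⟨E, hq⟩ := hq
    refine ⟨max D E, fun x v => ?_⟩
    obtain ⟨a, a1, a2⟩ := hp x v
    obtain ⟨b, b1, b2⟩ := hq x v
    exact ⟨a + b, (Polynomial.natDegree_add_le _ _).trans (max_le_max a1 b1), by simp [a2, b2]⟩
  | mul_X p i hp =>
    obtain ⟨D, hp⟩ := hp
    refine ⟨D + 1, fun x v => ?_⟩
    obtain ⟨a, a1, a2⟩ := hp x v
    refine ⟨a * (Polynomial.C (v i) * Polynomial.X + Polynomial.C (x i)),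
      Polynomial.natDegree_mul_le.trans (add_le_add a1 Polynomial.natDegree_linear_le), fun w => ?_⟩
    simp only [Polynomial.eval_mul, Polynomial.eval_add, Polynomial.eval_C, Polynomial.eval_X, a2,
      map_mul, aeval_X, Pi.add_apply, Pi.smul_apply, smul_eq_mul]
    ring

theorem lip_aeval (Q : MvPolynomial (Fin n) ℝ) : ∃ L : ℝ, 0 < L ∧ ∀ x y : Fin n → ℂ,
    ‖x‖ ≤ 3 → ‖y‖ ≤ 3 → ‖(aeval x Q : ℂ) - aeval y Q‖ ≤ L * ‖x - y‖ := by
  obtain ⟨K, hK⟩ := ContDiffOn.exists_lipschitzOnWith (s := closedBall 0 3) (n := 1)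
    (f := fun z : Fin n → ℂ => (aeval z Q : ℂ))
    (fun x _ => ((an_aeval Q x).contDiffAt.restrict_scalars ℝ).contDiffWithinAt) one_ne_zero
    (convex_closedBall _ _) (isCompact_closedBall _ _)
  refine ⟨K + 1, by positivity, fun x y hx hy => ?_⟩
  refine (hK.norm_sub_le (mem_closedBall_zero_iff.2 hx) (mem_closedBall_zero_iff.2 hy)).trans ?_
  gcongr
  linarith

theorem bdd_aeval (Q : MvPolynomial (Fin n) ℝ) : ∃ B : ℝ, 0 < B ∧ ∀ x : Fin n → ℂ,
    ‖x‖ ≤ 3 → ‖(aeval x Q : ℂ)‖ ≤ B := by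
  obtain ⟨B, hB⟩ := (isCompact_closedBall (0 : Fin n → ℂ) 3).exists_bound_of_continuousOn
    (cont_aeval Q).continuousOn
  exact ⟨max B 1, by positivity, fun x hx =>
    (hB x (mem_closedBall_zero_iff.2 hx)).trans (le_max_left _ _)⟩

theorem ex_mem (θ : Fin n → UnitAddCircle) : ex θ ∈ polydisc n := fun _ => (norm_e1 _).le

theorem slice_est {P Q R : MvPolynomial (Fin n) ℝ} {F : (Fin n → ℂ) → ℂ} {r : ℕ} {C β : ℝ≥0}
    (hF : ContDiffOn ℝ r F (polydisc n))
    (hH : HolderOnWith C β (iteratedFDerivWithin ℝ r F (polydisc n)) (polydisc n))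
    (e : ∀ z ∈ polydisc n, aeval z Q * F z = aeval z P) (b1 : β ≤ 1)
    (hn : (n : ℝ) - 1 ≤ 2 * (r + β)) (j : Fin n) {K : ℝ} (hK : 0 < K)
    (hR : ∀ (z : Fin n → ℂ) (w : ℂ), aeval (Function.update z j w) R = aeval z R)
    (hl : ∀ z ∈ polydisc n, ‖(aeval z R : ℂ)‖ ≤ K * ‖(aeval z Q : ℂ)‖) :
    ∃ A : ℝ, 0 ≤ A ∧ ∀ θ, (aeval (ex θ) R : ℂ) ≠ 0 →
      (∀ m < 0, sl (fun θ => F (ex θ)) j m θ = 0) ∧ ∀ M : ℕ, 1 ≤ M →
        (M : ℝ) ^ n * ∑ m ∈ Ico M (2 * M), ‖sl (fun θ => F (ex θ)) j (m + r : ℕ) θ‖ ^ 2 ≤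
          A * min 1 (1 / (‖(aeval (ex θ) R : ℂ)‖ ^ (2 * (n + 2)) * M)) := by
  obtain ⟨L, L0, hL⟩ := lip_aeval Q
  obtain ⟨B, B0, hB⟩ := bdd_aeval P
  obtain ⟨Λ, Λ0, hΛ⟩ := bdd_aeval R
  obtain ⟨D, hD⟩ := slice_poly P
  obtain ⟨E, hE⟩ := slice_poly Q
  obtain ⟨c, c0, c1, c2⟩ : ∃ c : ℝ, 0 < c ∧ c * Λ ≤ 1 ∧ c * (4 * L * K) ≤ 1 :=
    ⟨min (1 / Λ) (1 / (4 * L * K)), by positivity, (le_div_iff₀ Λ0).1 (min_le_left _ _),
      (le_div_iff₀ (by positivity)).1 (min_le_right _ _)⟩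
  refine ⟨max ((2 * (2 ^ r * (max D E + 1)) : ℕ) * (4 * (C : ℝ) ^ 2))
    ((B * (2 * K) * (n + 1)! * (2 / c) ^ (n + 1)) ^ 2), by positivity, fun θ h0 => ?_⟩
  set lam := ‖(aeval (ex θ) R : ℂ)‖ with hlam
  have l0 : 0 < lam := norm_pos_iff.2 h0
  set x := Function.update (ex θ) j 0
  set v : Fin n → ℂ := Pi.single j (ex θ j)
  have v1 : ‖v‖ = 1 := by rw [Pi.norm_single, ex, norm_e1]
  have u1 : ∀ w : ℂ, x + w • v = Function.update (ex θ) j (ex θ j * w) := fun w => by
    funext i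
    by_cases h : i = j <;> simp [x, v, h, mul_comm]
  have u2 : ∀ (w : ℂ) (a : ℝ), 1 ≤ a → ‖w‖ ≤ a → ∀ i, ‖(x + w • v) i‖ ≤ a := fun w a a1 a2 i => by
    rw [u1]
    by_cases h : i = j
    · rwa [h, Function.update_self, norm_mul, ex, norm_e1, one_mul]
    · rwa [Function.update_of_ne h, ex, norm_e1]
  have u3 : ∀ w : ℂ, ‖w‖ ≤ 3 → ‖x + w • v‖ ≤ 3 := fun w hw =>
    (pi_norm_le_iff_of_nonneg (by norm_num)).2 (u2 w 3 (by norm_num) hw)
  have u4 : ∀ w ∈ closedBall (0 : ℂ) 1, x + w • v ∈ polydisc n := fun w hw =>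
    u2 w 1 le_rfl (mem_closedBall_zero_iff.1 hw)
  have u5 : ∀ w w' : ℂ, ‖x + w • v - (x + w' • v)‖ = ‖w - w'‖ := fun w w' => by
    rw [add_sub_add_left_eq_sub, ← sub_smul, norm_smul, v1, mul_one]
  have d0 : 0 < c * lam := by positivity
  have d1 : c * lam ≤ 1 := le_trans (mul_le_mul_of_nonneg_left (hΛ _ ((pi_norm_le_iff_of_nonneg
    (by norm_num)).2 fun i => (ex_mem θ i).trans (by norm_num))) c0.le) c1
  have q1 : ∀ w : ℂ, ‖w‖ ≤ 1 + 2 * (c * lam) →
      lam / (2 * K) ≤ ‖(aeval (x + w • v) Q : ℂ)‖ := fun w hw => by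
    set w' := w / ((1 + 2 * (c * lam) : ℝ) : ℂ) with hw'
    have h1 : ‖w'‖ ≤ 1 := by
      rwa [hw', norm_div, Complex.norm_real, Real.norm_of_nonneg (by positivity),
        div_le_one (by positivity)]
    have h2 : ‖w' - w‖ ≤ 2 * (c * lam) := by
      have : w' - w = w' * ((-(2 * (c * lam)) : ℝ) : ℂ) := by
        have : ((1 + 2 * (c * lam) : ℝ) : ℂ) ≠ 0 := Complex.ofReal_ne_zero.2 (by positivity)
        have h2 : w = w' * ((1 + 2 * (c * lam) : ℝ) : ℂ) := (div_mul_cancel₀ w this).symm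
        push_cast at h2 ⊢
        linear_combination -h2
      rw [this, norm_mul, Complex.norm_real, norm_neg, Real.norm_of_nonneg (by positivity)]
      exact mul_le_of_le_one_left (by positivity) h1
    have h3 := hl _ (u4 w' (mem_closedBall_zero_iff.2 h1))
    have h4 := hL _ _ (u3 w' (by linarith only [h1])) (u3 w (by linarith only [hw, d1]))
    rw [u5] at h4
    rw [u1, hR, ← u1, ← hlam] at h3
    have h5 := norm_sub_norm_le (aeval (x + w' • v) Q : ℂ) (aeval (x + w • v) Q)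
    have h6 : L * ‖w' - w‖ ≤ L * (2 * (c * lam)) := mul_le_mul_of_nonneg_left h2 L0.le
    have h7 := mul_le_mul_of_nonneg_right c2 l0.le
    rw [div_le_iff₀ (mul_pos two_pos hK)]
    linarith only [h3, h7, mul_le_mul_of_nonneg_left (h5.trans (h4.trans h6)) hK.le]
  have q2 : ∀ w : ℂ, ‖w‖ ≤ 1 + 2 * (c * lam) → (aeval (x + w • v) Q : ℂ) ≠ 0 := fun w hw =>
    norm_pos_iff.1 (lt_of_lt_of_le (by positivity) (q1 w hw))
  set f : ℂ → ℂ := fun w => aeval (x + w • v) P / aeval (x + w • v) Q with hf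
  have a1 : ∀ w : ℂ, ‖w‖ ≤ 1 + 2 * (c * lam) → AnalyticAt ℂ f w := fun w hw => by
    have : AnalyticAt ℂ (fun w : ℂ => x + w • v) w := by fun_prop
    exact ((an_aeval P _).comp this).div ((an_aeval Q _).comp this) (q2 w hw)
  have a2 : DifferentiableOn ℂ f (ball 0 (1 + 2 * (c * lam))) := fun w hw =>
    (a1 w (mem_ball_zero_iff.1 hw).le).differentiableAt.differentiableWithinAt
  have a3 : ∀ w ∈ closedBall (0 : ℂ) 1, f w = F (x + w • v) := fun w hw => by
    have := q2 w (by linarith [mem_closedBall_zero_iff.1 hw])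
    simp only [hf]
    rw [← e _ (u4 w hw), mul_div_cancel_left₀ _ this]
  have t1 : ∀ t, e1 t ∈ closedBall (0 : ℂ) 1 := fun t => mem_closedBall_zero_iff.2 (norm_e1 t).le
  have a4 : ∀ m, sl (fun θ => F (ex θ)) j m θ = fourierCoeff (fun t => f (e1 t)) m := fun m => by
    refine congrArg (fun g => fourierCoeff g m) (funext fun t => ?_)
    rw [a3 _ (t1 t), u1]
    refine congrArg F (funext fun i => ?_)
    by_cases h : i = j <;> simp [ex, h, e1_add]
  have r1 : 1 < 1 + 2 * (c * lam) := by linarith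
  refine ⟨fun m hm' => by rw [a4, fc_neg a2 r1 hm'], fun M hM => ?_⟩
  simp only [a4, fc_nat' a2 r1]
  rw [mul_min_of_nonneg _ _ (by positivity), mul_one]
  refine le_min (le_trans ?_ (le_max_left _ _)) ?_
  · obtain ⟨p, p1, p2⟩ := hD x v
    obtain ⟨q, q3, q4⟩ := hE x v
    have h1 := rk_rat (g := fun t => f (e1 t)) (a2.continuousOn.comp_continuous cont_e1 fun t => by
        rwa [mem_ball_zero_iff, norm_e1]) (p1.trans (le_max_left D E)) (q3.trans (le_max_right D E))
      (by rw [Polynomial.coeff_zero_eq_eval_zero, q4]; exact q2 0 (by simp; positivity))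
      fun t => by rw [a3 _ (t1 t), p2, q4, e _ (u4 _ (t1 t))]
    simp only [fc_nat' a2 r1] at h1
    refine holder_block a2 r1 h1 C.2 β.2 b1 hn (fun w w' h2 h3 => ?_) hM
    have h4 := mem_closedBall_zero_iff.2 h2.le
    have h5 := mem_closedBall_zero_iff.2 h3.le
    have h6 : ∀ w ∈ closedBall (0 : ℂ) 1, AnalyticAt ℂ f w := fun w hw =>
      a1 w (by linarith [mem_closedBall_zero_iff.1 hw])
    have h7 := hH.dist_le (u4 w h4) (u4 w' h5)
    rw [dist_eq_norm, dist_eq_norm, u5] at h7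
    rw [slice_deriv hF u4 h6 a3 h4, slice_deriv hF u4 h6 a3 h5,
      ← sub_apply]
    refine (ContinuousMultilinearMap.le_opNorm _ _).trans ?_
    simpa [v1] using h7
  · refine (decay_block d0 d1 a2 (B := B * (2 * K) / lam) (fun w hw => ?_) n r hM).trans ?_
    · simp only [hf]
      rw [norm_div, ← div_div_eq_mul_div]
      exact div_le_div₀ B0.le (hB _ (u3 w (by linarith))) (by positivity) (q1 w (by linarith))
    · refine le_trans (le_of_eq ?_) (mul_le_mul_of_nonneg_right (le_max_right _ _) (by positivity))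
      rw [div_pow, div_pow, mul_pow c]
      field_simp
      ring

end Pool.Agent.Work.MP_a1ab50_an.T
end

-- merged part: Pool.Agent.Work.MP_a1ab50_an.T.Up
section
/-! Smoothness of order at least `(n - 1) / 2` forces absolute summability. -/

set_option autoImplicit false

namespace Pool.Agent.Work.MP_a1ab50_an.T

open Filter Topology MeasureTheory Real Finset Metric MvPolynomial
open scoped NNReal Nat

variable {n : ℕ}

theorem card_box (T : Finset (Fin n →₀ ℕ)) {B : ℕ} (h : ∀ k ∈ T, ∀ i, k i < B) :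
    T.card ≤ B ^ n := by
  refine (card_le_card_of_injOn (t := Fintype.piFinset fun _ : Fin n => range B) (fun k i => k i)
    (fun k hk => ?_) fun k _ k' _ e => Finsupp.ext (congrFun e)).trans_eq (by simp)
  simpa using h k hk

theorem summable_shell {a : (Fin n →₀ ℕ) → ℝ} (a0 : ∀ k, 0 ≤ a k) (r : ℕ)
    (h : ∀ j, ∃ b : ℕ → ℝ, Summable b ∧ ∀ (s : ℕ) (T : Finset (Fin n →₀ ℕ)),
      (∀ k ∈ T, (∀ i, k i ≤ k j) ∧ ∃ m ∈ Ico (2 ^ s) (2 * 2 ^ s), k j = m + r) →
        ∑ k ∈ T, a k ≤ b s) : Summable a := by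
  have h1 : ∀ j, Summable fun k : Fin n →₀ ℕ =>
      if (∀ i, k i ≤ k j) ∧ r < k j then a k else 0 := fun j => by
    obtain ⟨b, b1, b2⟩ := h j
    refine summable_of_sum_le (c := ∑' s, b s) (fun k => ite_nonneg (a0 k) le_rfl) fun u => ?_
    rw [← sum_filter, ← sum_fiberwise_of_maps_to (g := fun k : Fin n →₀ ℕ => Nat.log 2 (k j - r))
      fun k hk => mem_image_of_mem (fun k : Fin n →₀ ℕ => Nat.log 2 (k j - r)) hk]
    refine (sum_le_sum fun s _ => b2 s _ fun k hk => ?_).trans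
      (b1.sum_le_tsum _ fun s _ => by simpa using b2 s ∅ (by simp))
    obtain ⟨h1, h2⟩ := mem_filter.1 hk
    obtain ⟨-, h3, h4⟩ := mem_filter.1 h1
    have h5 := Nat.pow_log_le_self 2 (x := k j - r) (by omega)
    have h6 := Nat.lt_pow_succ_log_self one_lt_two (k j - r)
    rw [h2] at h5 h6
    exact ⟨h3, k j - r, mem_Ico.2 ⟨h5, by rwa [pow_succ'] at h6⟩, by omega⟩
  have h2 : Summable fun k : Fin n →₀ ℕ => if ∀ i, k i ≤ r then a k else 0 := by
    refine summable_of_hasFiniteSupport ((Set.finite_Iic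
      (Finsupp.equivFunOnFinite.symm fun _ => r : Fin n →₀ ℕ)).subset fun k hk i => ?_)
    by_contra h3
    exact hk (if_neg fun h4 => h3 (h4 i))
  refine Summable.of_nonneg_of_le a0 (fun k => ?_) (h2.add (summable_sum (s := univ) fun j _ => h1 j))
  have h3 : ∀ j ∈ (univ : Finset (Fin n)),
      0 ≤ if (∀ i, k i ≤ k j) ∧ r < k j then a k else 0 := fun j _ => ite_nonneg (a0 k) le_rfl
  split_ifs with h4
  · exact le_add_of_nonneg_right (sum_nonneg h3)
  · push Not at h4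
    obtain ⟨i, hi⟩ := h4
    obtain ⟨j, -, hj⟩ := exists_max_image univ k ⟨i, mem_univ i⟩
    rw [zero_add]
    refine le_trans (le_of_eq ?_) (single_le_sum h3 (mem_univ j))
    rw [if_pos ⟨fun i => hj i (mem_univ i), hi.trans_le (hj i (mem_univ i))⟩]

theorem int_min {R : MvPolynomial (Fin n) ℝ} (h : R ≠ 0) (κ : ℕ) : ∃ C ω : ℝ, 0 ≤ C ∧ 0 ≤ ω ∧
    ω < 1 ∧ ∀ (s : ℕ) (E : (Fin n → UnitAddCircle) → ℝ), Continuous E →
      (∀ θ, (aeval (ex θ) R : ℂ) ≠ 0 → E θ ≤ min 1 (1 / (‖(aeval (ex θ) R : ℂ)‖ ^ κ * 2 ^ s))) →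
      ∫ θ, E θ ∂pm n ≤ (C * ω ^ s) ^ 2 := by
  obtain ⟨N, C, C0, hN⟩ := sublevel h
  set l := (N + 1) * κ with hl
  set η : ℝ := 1 - 1 / (4 * (l + 1)) with hη
  have e1 : (1 : ℝ) / (4 * (l + 1)) ≤ 1 / 4 :=
    one_div_le_one_div_of_le (by norm_num) (by linarith [Nat.cast_nonneg (α := ℝ) l])
  have e2 : (0 : ℝ) < 1 / (4 * (l + 1)) := by positivity
  have e3 : 3 / 4 ≤ η ^ l := by
    refine le_trans ?_ (one_add_mul_le_pow (a := -(1 / (4 * ((l : ℝ) + 1)))) (by linarith) l)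
    have : (l : ℝ) * (1 / (4 * (l + 1))) ≤ 1 / 4 := by
      rw [mul_one_div, div_le_div_iff₀ (by positivity) (by norm_num)]
      linarith
    linarith
  have η0 : 0 < η := by linarith
  refine ⟨√(C + 1), √η, by positivity, by positivity,
    (Real.sqrt_lt' one_pos).2 (by linarith), fun s E hE hb => ?_⟩
  have hS : MeasurableSet {θ : Fin n → UnitAddCircle |
      ‖(aeval (ex θ) R : ℂ)‖ ≤ (η ^ s) ^ (N + 1)} :=
    (isClosed_le ((cont_aeval R).comp cont_ex).norm continuous_const).measurableSet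
  have i1 := (integrable_const (μ := pm n) (1 : ℝ)).indicator hS
  refine (integral_mono_ae (int_tor hE) (i1.add (integrable_const (η ^ s))) ?_).trans ?_
  · filter_upwards [ae_ne h] with θ h0
    rw [Pi.add_apply]
    by_cases h1 : ‖(aeval (ex θ) R : ℂ)‖ ≤ (η ^ s) ^ (N + 1)
    · rw [Set.indicator_of_mem (by exact h1)]
      exact ((hb θ h0).trans (min_le_left _ _)).trans (le_add_of_nonneg_right (by positivity))
    · rw [Set.indicator_of_notMem (by exact h1), zero_add]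
      refine ((hb θ h0).trans (min_le_right _ _)).trans ?_
      have h2 : (η ^ l) ^ s ≤ ‖(aeval (ex θ) R : ℂ)‖ ^ κ := by
        rw [← pow_mul, mul_comm, pow_mul, hl, pow_mul]
        exact pow_le_pow_left₀ (by positivity) (not_le.1 h1).le κ
      have h3 : 1 ≤ (η * (η ^ l * 2)) ^ s := one_le_pow₀ (by nlinarith)
      have h4 := norm_pos_iff.2 h0
      rw [div_le_iff₀ (by positivity)]
      refine h3.trans ?_
      rw [mul_pow, mul_pow]
      gcongr
  · rw [integral_add' i1 (integrable_const _), integral_indicator_const _ hS, integral_const,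
      probReal_univ, one_smul, smul_eq_mul, mul_one, mul_pow, pow_right_comm √η,
      Real.sq_sqrt (by positivity), Real.sq_sqrt η0.le, add_mul, one_mul]
    exact add_le_add_left (hN _ (by positivity)) _

theorem summable_of_ext {P Q : MvPolynomial (Fin n) ℝ} {r : ℕ} {β : ℝ≥0} (b1 : β ≤ 1)
    (hn : (n : ℝ) - 1 ≤ 2 * (r + β)) (h : IsRelPrime P Q) (hQ : constantCoeff Q ≠ 0)
    (hE : Extends r β P Q) : AbsSummable P Q := by
  obtain ⟨F, C, hF, hH, e⟩ := hE
  have e' : ∀ z ∈ polydisc n, aeval z Q * F z = aeval z P := fun z hz =>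
    mul_eq_of_ext hQ hF.continuousOn e hz
  choose R K R0 K0 hR hl using lower_bound h hF.continuousOn e'
  choose A A0 hA using fun j => slice_est hF hH e' b1 hn j (K0 j) (hR j) (hl j)
  have hG : Continuous fun θ => F (ex θ) := hF.continuousOn.comp_continuous cont_ex ex_mem
  have h1 := coeff_eq hQ hG (fun k j hk => cf_zero hG (j := j)
    ((ae_ne (R0 j)).mono fun θ h0 => (hA j θ h0).1 _ hk)) fun θ => e' _ (ex_mem θ)
  unfold AbsSummable
  simp only [h1]
  refine summable_shell (fun _ => norm_nonneg _) r fun j => ?_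
  obtain ⟨C', ω, C0, ω0, ω1, hω⟩ := int_min (R0 j) (2 * (n + 2))
  refine ⟨fun s => √((2 + r) ^ n * (A j + 1)) * C' * ω ^ s,
    (summable_geometric_of_lt_one ω0 ω1).mul_left _, fun s T hT => ?_⟩
  have a0 := A0 j
  have h2 := hω s (fun θ => ((2 ^ s : ℕ) : ℝ) ^ n / (A j + 1) * ∑ m ∈ Ico (2 ^ s) (2 * 2 ^ s),
      ‖sl (fun θ => F (ex θ)) j (m + r : ℕ) θ‖ ^ 2)
    (continuous_const.mul (continuous_finsetSum _ fun m _ => (cont_sl hG j _).norm.pow 2))
    fun θ h0 => by
      have h3 := (hA j θ h0).2 (2 ^ s) Nat.one_le_two_pow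
      rw [div_mul_eq_mul_div, div_le_iff₀' (by positivity)]
      refine h3.trans ?_
      push_cast
      gcongr
      linarith
  rw [integral_const_mul, div_mul_eq_mul_div, div_le_iff₀' (by positivity)] at h2
  have h3 := bessel_sl hG j _ r T fun k hk => (hT k hk).2
  have h4 : (T.card : ℝ) ≤ (2 + r) ^ n * ((2 ^ s : ℕ) : ℝ) ^ n := by
    rw [← mul_pow]
    exact_mod_cast card_box T fun k hk i => by
      obtain ⟨h4, m, h5, h6⟩ := hT k hk
      have := h4 i
      have := (mem_Ico.1 h5).2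
      have := Nat.le_mul_of_pos_right r (Nat.two_pow_pos s)
      rw [add_mul]
      omega
  refine (abs_le_of_sq_le_sq' (sq_sum_le_card_mul_sum_sq.trans ?_) (by positivity)).2
  beta_reduce
  rw [mul_assoc, mul_pow, Real.sq_sqrt (by positivity), mul_assoc]
  refine (mul_le_mul h4 h3 (by positivity) (by positivity)).trans ?_
  rw [mul_assoc]
  gcongr

end Pool.Agent.Work.MP_a1ab50_an.T
end

-- merged part: Pool.Agent.Work.MP_a1ab50_an.T.Smooth
section
/-! Smoothness up to the singular set from growth bounds. -/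

set_option autoImplicit false

namespace Pool.Agent.Work.MP_a1ab50_an.T

open Filter Topology Metric
open scoped NNReal

variable {n : ℕ}

theorem cauchy_iter (l : ℕ) : ∃ C : ℝ, 0 ≤ C ∧ ∀ (G : (Fin n → ℂ) → ℂ) (x : Fin n → ℂ) (ρ M : ℝ),
    0 < ρ → AnalyticOnNhd ℂ G (ball x ρ) → (∀ y ∈ ball x ρ, ‖G y‖ ≤ M) →
      ‖iteratedFDeriv ℂ l G x‖ ≤ C * M / ρ ^ l := by
  induction l with
  | zero => exact ⟨1, zero_le_one, fun G x ρ M h0 _ h => by simpa using h x (mem_ball_self h0)⟩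
  | succ l ih =>
    obtain ⟨C, C0, h⟩ := ih
    refine ⟨C * 2 ^ l * 4, by positivity, fun G x ρ M h0 h1 h2 => ?_⟩
    have h3 : ∀ y ∈ ball x (ρ / 2), ‖iteratedFDeriv ℂ l G y‖ ≤ C * M / (ρ / 2) ^ l := fun y hy => by
      have : ball y (ρ / 2) ⊆ ball x ρ := ball_subset_ball' (by linarith [mem_ball.1 hy])
      exact h G y _ M (by positivity) (h1.mono this) fun z hz => h2 z (this hz)
    rw [← norm_fderiv_iteratedFDeriv]
    refine (Complex.norm_fderiv_le_div_of_mapsTo_ball (R₁ := ρ / 2) (R₂ := 2 * (C * M / (ρ / 2) ^ l))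
      ((h1.mono (ball_subset_ball (by linarith))).iteratedFDeriv l).differentiableOn
      (fun y hy => ?_) (by positivity)).trans_eq ?_
    · rw [mem_closedBall, dist_eq_norm]
      linarith [norm_sub_le (iteratedFDeriv ℂ l G y) (iteratedFDeriv ℂ l G x), h3 y hy,
        h3 x (mem_ball_self (by positivity))]
    · rw [div_pow, pow_succ]
      field_simp
      ring

theorem smooth_ext {F : (Fin n → ℂ) → ℂ} {lam : (Fin n → ℂ) → ℝ} {K γ : ℝ} {r : ℕ} {β : ℝ≥0}
    (b1 : β ≤ 1) (hγ : r + (β : ℝ) < γ) (K0 : 0 ≤ K) (l0 : ∀ x, 0 ≤ lam x)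
    (l1 : ∀ x ∈ polydisc n, lam x ≤ 1)
    (l2 : ∀ x ∈ polydisc n, ∀ y ∈ polydisc n, lam y ≤ lam x + ‖y - x‖)
    (h0 : ∀ x ∈ polydisc n, lam x = 0 → F x = 0)
    (h1 : ∀ x ∈ polydisc n, 0 < lam x → AnalyticOnNhd ℂ F (ball x (lam x / 2)) ∧
      ∀ y ∈ ball x (lam x / 2), ‖F y‖ ≤ K * lam x ^ γ) :
    ContDiffOn ℝ r F (polydisc n) ∧
      ∃ C, HolderOnWith C β (iteratedFDerivWithin ℝ r F (polydisc n)) (polydisc n) := by
  have β0 : (0 : ℝ) ≤ β := β.2
  have β1 : (β : ℝ) ≤ 1 := b1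
  let p : (Fin n → ℂ) → FormalMultilinearSeries ℝ (Fin n → ℂ) ℂ := fun x l =>
    if lam x = 0 then 0 else iteratedFDeriv ℝ l F x
  have an : ∀ x ∈ polydisc n, lam x ≠ 0 → AnalyticAt ℂ F x := fun x hx h =>
    have := (l0 x).lt_of_ne' h
    (h1 x hx this).1 x (mem_ball_self (by positivity))
  have b : ∀ l : ℕ, ∃ C : ℝ, 0 ≤ C ∧ ∀ x ∈ polydisc n, ‖p x l‖ ≤ C * lam x ^ (γ - l) := fun l => by
    obtain ⟨C, C0, hC⟩ := cauchy_iter (n := n) l
    refine ⟨C * K * 2 ^ l, by positivity, fun x hx => ?_⟩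
    have := l0 x
    by_cases h : lam x = 0
    · simp only [p, if_pos h, norm_zero]
      positivity
    have h' := (l0 x).lt_of_ne' h
    simp only [p, if_neg h]
    rw [← (an x hx h).contDiffAt.restrictScalars_iteratedFDeriv]
    refine (hC F x _ _ (by positivity) (h1 x hx h').1 (h1 x hx h').2).trans_eq ?_
    rw [Real.rpow_sub_natCast h, div_pow]
    field_simp
  choose C C0 hC using b
  have der : ∀ l : ℕ, ∀ x ∈ polydisc n, lam x ≠ 0 →
      HasFDerivWithinAt (p · l) (p x (l + 1)).curryLeft (polydisc n) x := fun l x hx h => by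
    have h2 := (((an x hx h).contDiffAt (n := (l + 1 : ℕ))).restrict_scalars
      ℝ).differentiableAt_iteratedFDeriv (m := l) (Nat.cast_lt.2 l.lt_succ_self)
    have h3 : HasFDerivWithinAt (iteratedFDeriv ℝ l F) (p x (l + 1)).curryLeft (polydisc n) x := by
      simp only [p, if_neg h]
      exact h2.hasFDerivAt.hasFDerivWithinAt
    refine h3.congr_of_eventuallyEq ?_ (if_neg h)
    filter_upwards [self_mem_nhdsWithin,
      mem_nhdsWithin_of_mem_nhds (ball_mem_nhds x ((l0 x).lt_of_ne' h))] with y hy h4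
    refine if_neg fun h5 => ?_
    have := l2 y hy x hx
    rw [mem_ball, dist_eq_norm, norm_sub_rev] at h4
    linarith
  have sm : ∀ l : ℕ, l ≤ r → ∀ x ∈ polydisc n, lam x = 0 → ∀ y ∈ polydisc n,
      ‖p y l‖ ≤ C l * ‖y - x‖ ^ (γ - l) := fun l hl x hx h y hy => by
    refine (hC l y hy).trans (mul_le_mul_of_nonneg_left (Real.rpow_le_rpow (l0 y) ?_ ?_) (C0 l))
    · simpa [h] using l2 x hx y hy
    · have : (l : ℝ) ≤ r := by exact_mod_cast hl
      linarith
  have lim : ∀ (x : Fin n → ℂ) (c e : ℝ), 0 < e →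
      Tendsto (fun y => c * ‖y - x‖ ^ e) (𝓝[polydisc n] x) (𝓝 0) := fun x c e he => by
    have : Tendsto (fun y => c * ‖y - x‖ ^ e) (𝓝 x) (𝓝 (c * ‖x - x‖ ^ e)) :=
      (((continuous_id.sub continuous_const).norm.rpow_const fun _ => .inr he.le).tendsto
        x).const_mul c
    rw [sub_self, norm_zero, Real.zero_rpow he.ne', mul_zero] at this
    exact this.mono_left nhdsWithin_le_nhds
  have T : HasFTaylorSeriesUpToOn (r : ℕ∞) F p (polydisc n) := by
    refine ⟨fun x hx => ?_, fun l hl x hx => ?_, fun l hl x hx => ?_⟩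
    · by_cases h : lam x = 0
      · simp [p, h, h0 x hx h]
      · simp [p, h]
    · by_cases h : lam x = 0
      swap
      · exact der l x hx h
      have hl' : l < r := by exact_mod_cast hl
      have h2 : (l : ℝ) + 1 ≤ r := by exact_mod_cast hl'
      refine HasFDerivWithinAt.of_isLittleO (Asymptotics.isLittleO_iff.2 fun c hc => ?_)
      filter_upwards [self_mem_nhdsWithin,
        (lim x (C l) (γ - l - 1) (by linarith)).eventually (gt_mem_nhds hc)] with y hy h3
      have h4 : p x l = 0 := if_pos h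
      have h5 : (p x (l + 1)).curryLeft (y - x) = 0 := by
        ext v
        simp [p, h]
      rw [h4, h5, sub_zero, sub_zero]
      refine (sm l hl'.le x hx h y hy).trans ?_
      rw [← sub_add_cancel (γ - l) 1, Real.rpow_add_one' (norm_nonneg _) (by linarith), ← mul_assoc]
      gcongr
    · by_cases h : lam x = 0
      swap
      · exact (der l x hx h).continuousWithinAt
      have hl' : l ≤ r := by exact_mod_cast hl
      have h2 : (l : ℝ) ≤ r := by exact_mod_cast hl'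
      have h4 : p x l = 0 := if_pos h
      rw [ContinuousWithinAt, h4]
      refine squeeze_zero_norm' ?_ (lim x (C l) (γ - l) (by linarith))
      filter_upwards [self_mem_nhdsWithin] with y hy using sm l hl' x hx h y hy
  refine ⟨T.contDiffOn, ⟨6 * C r + C (r + 1), by have := C0 r; have := C0 (r + 1); positivity⟩,
    fun x hx y hy => ?_⟩
  rw [← T.eq_iteratedFDerivWithin_of_uniqueDiffOn le_rfl unique_polydisc hx,
    ← T.eq_iteratedFDerivWithin_of_uniqueDiffOn le_rfl unique_polydisc hy, edist_dist, edist_dist,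
    ENNReal.ofReal_rpow_of_nonneg dist_nonneg β0, ← ENNReal.ofReal_coe_nnreal,
    ← ENNReal.ofReal_mul (NNReal.coe_nonneg _), dist_comm, dist_comm x, dist_eq_norm, dist_eq_norm]
  refine ENNReal.ofReal_le_ofReal ?_
  change _ ≤ (6 * C r + C (r + 1)) * _
  have d0 : 0 ≤ ‖y - x‖ ^ (β : ℝ) := by positivity
  rcases le_or_gt (lam x) (2 * ‖y - x‖) with h | h
  · have h2 : ∀ z ∈ polydisc n, lam z ≤ 3 * ‖y - x‖ →
        ‖p z r‖ ≤ C r * (3 * ‖y - x‖ ^ (β : ℝ)) := fun z hz h2 => by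
      refine (hC r z hz).trans (mul_le_mul_of_nonneg_left ?_ (C0 r))
      refine (Real.rpow_le_rpow_of_exponent_ge' (l0 z) (l1 z hz) β0 (by linarith)).trans
        ((Real.rpow_le_rpow (l0 z) h2 β0).trans ?_)
      rw [Real.mul_rpow (by norm_num) (norm_nonneg _)]
      refine mul_le_mul_of_nonneg_right ?_ d0
      simpa using Real.rpow_le_rpow_of_exponent_le (x := 3) (by norm_num) β1
    have h3 := h2 x hx (by linarith [norm_nonneg (y - x)])
    have h4 := h2 y hy (by linarith [l2 x hx y hy])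
    have h5 := mul_nonneg (C0 (r + 1)) d0
    linarith [norm_sub_le (p y r) (p x r)]
  · rcases (norm_nonneg (y - x)).eq_or_lt with h2 | h2
    · rw [sub_eq_zero.1 (norm_eq_zero.1 h2.symm), sub_self, norm_zero]
      have := C0 r
      have := C0 (r + 1)
      positivity
    have h3 : segment ℝ x y ⊆ polydisc n := convex_polydisc.segment_subset hx hy
    have h4 : ∀ z ∈ segment ℝ x y, ‖y - x‖ ≤ lam z := fun z hz => by
      have h5 := l2 z (h3 hz) x hx
      have h6 := norm_sub_le_of_mem_segment hz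
      rw [norm_sub_rev x z] at h5
      linarith
    have h5 := (convex_segment x y).norm_image_sub_le_of_norm_hasFDerivWithin_le
      (C := C (r + 1) * ‖y - x‖ ^ ((β : ℝ) - 1))
      (fun z hz => (der r z (h3 hz) (h2.trans_le (h4 z hz)).ne').mono h3) (fun z hz => by
        rw [ContinuousMultilinearMap.curryLeft_norm]
        refine (hC _ z (h3 hz)).trans (mul_le_mul_of_nonneg_left ?_ (C0 _))
        refine (Real.rpow_le_rpow_of_exponent_ge (h2.trans_le (h4 z hz)) (l1 z (h3 hz)) ?_).trans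
          (Real.rpow_le_rpow_of_nonpos h2 (h4 z hz) (by linarith))
        push_cast
        linarith) (left_mem_segment ℝ x y) (right_mem_segment ℝ x y)
    rw [mul_assoc, ← Real.rpow_add_one h2.ne', sub_add_cancel] at h5
    have h6 := mul_nonneg (C0 r) d0
    linarith

end Pool.Agent.Work.MP_a1ab50_an.T
end

-- merged part: Pool.Agent.Work.MP_a1ab50_an.VdC
section
set_option autoImplicit false

namespace Pool.Agent.Work.MP_a1ab50_an

open Real MeasureTheory

/-- van der Corput's second derivative test, for a unimodular function `E` with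
logarithmic derivative `i η`, `η' ≥ lam` on the interval. -/
lemma vdc {E : ℝ → ℂ} {η η' : ℝ → ℝ} {α β lam δ : ℝ} (hab : α ≤ β) (hlam : 0 < lam)
    (hδ : 0 < δ)
    (hE : ∀ t, HasDerivAt E (Complex.I * (η t : ℂ) * E t) t)
    (hE1 : ∀ t, ‖E t‖ = 1)
    (hη : ∀ t, HasDerivAt η (η' t) t) (hc : Continuous η')
    (hl : ∀ t ∈ Set.Icc α β, lam ≤ η' t) :
    ‖∫ t in α..β, E t‖ ≤ π * δ / lam + (1 + π) / δ := by
  have hEc : Continuous E := continuous_iff_continuousAt.2 fun t => (hE t).continuousAt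
  have hηc : Continuous η := continuous_iff_continuousAt.2 fun t => (hη t).continuousAt
  have hD : ∀ t, 0 < η t ^ 2 + δ ^ 2 := fun t => by positivity
  set m : ℝ → ℝ := fun t => η t / (η t ^ 2 + δ ^ 2) with hm
  set m' : ℝ → ℝ := fun t => η' t * (δ ^ 2 - η t ^ 2) / (η t ^ 2 + δ ^ 2) ^ 2 with hm'
  have hmd : ∀ t, HasDerivAt m (m' t) t := by
    intro t
    have h1 := (hη t).div (((hη t).pow 2).add_const (δ ^ 2)) (hD t).ne'
    refine h1.congr_deriv ?_
    simp only [hm', Pi.pow_apply]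
    congr 1
    push_cast
    ring
  have hm'c : Continuous m' := by
    refine Continuous.div (by fun_prop) (by fun_prop) fun t => (pow_pos (hD t) 2).ne'
  set G : ℝ → ℂ := fun t => -Complex.I * (E t * (m t : ℂ)) with hG
  set R : ℝ → ℂ := fun t => E t * ((δ ^ 2 / (η t ^ 2 + δ ^ 2) : ℝ) : ℂ)
    + Complex.I * E t * (m' t : ℂ) with hR
  have hRc : Continuous R := by
    have : Continuous fun t => δ ^ 2 / (η t ^ 2 + δ ^ 2) :=
      Continuous.div (by fun_prop) (by fun_prop) fun t => (hD t).ne'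
    simp only [hR]
    fun_prop
  have hGd : ∀ t, HasDerivAt G (E t - R t) t := by
    intro t
    have h1 := (((hE t).mul (hmd t).ofReal_comp)).const_mul (-Complex.I)
    refine h1.congr_deriv ?_
    have hDc : ((η t : ℂ) ^ 2 + (δ : ℂ) ^ 2) ≠ 0 := by exact_mod_cast (hD t).ne'
    simp only [hR, hm]
    push_cast
    field_simp
    ring_nf
    simp only [Complex.I_sq]
    ring
  have hint : ∫ t in α..β, (E t - R t) = G β - G α :=
    intervalIntegral.integral_eq_sub_of_hasDerivAt (fun t _ => hGd t)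
      ((hEc.sub hRc).intervalIntegrable _ _)
  have hsplit : ∫ t in α..β, E t = (G β - G α) + ∫ t in α..β, R t := by
    rw [← hint, intervalIntegral.integral_sub (hEc.intervalIntegrable _ _)
      (hRc.intervalIntegrable _ _)]
    ring
  have hGn : ∀ t, ‖G t‖ ≤ 1 / (2 * δ) := by
    intro t
    simp only [hG, norm_mul, norm_neg, Complex.norm_I, hE1, one_mul, Complex.norm_real,
      Real.norm_eq_abs, hm, abs_div, abs_of_pos (hD t)]
    rw [div_le_div_iff₀ (hD t) (by positivity)]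
    linarith only [sq_nonneg (|η t| - δ), sq_abs (η t)]
  set A : ℝ → ℝ := fun t => Real.arctan (η t / δ) with hA
  have hAd : ∀ t, HasDerivAt A (δ * η' t / (η t ^ 2 + δ ^ 2)) t := by
    intro t
    have h1 := ((hη t).div_const δ).arctan
    refine h1.congr_deriv ?_
    have := (hD t).ne'
    field_simp
    ring
  have hAc : Continuous fun t => δ * η' t / (η t ^ 2 + δ ^ 2) :=
    Continuous.div (by fun_prop) (by fun_prop) fun t => (hD t).ne'
  have hAint : ∫ t in α..β, δ * η' t / (η t ^ 2 + δ ^ 2) = A β - A α :=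
    intervalIntegral.integral_eq_sub_of_hasDerivAt (fun t _ => hAd t)
      (hAc.intervalIntegrable _ _)
  have hAle : A β - A α ≤ π := by
    have h1 := Real.arctan_lt_pi_div_two (η β / δ)
    have h2 := Real.neg_pi_div_two_lt_arctan (η α / δ)
    simp only [hA]
    linarith
  have hRn : ∀ t ∈ Set.Icc α β,
      ‖R t‖ ≤ (δ / lam + 1 / δ) * (δ * η' t / (η t ^ 2 + δ ^ 2)) := by
    intro t ht
    have hl' := hl t ht
    have hp : 0 < η' t := hlam.trans_le hl'
    have hDt := hD t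
    have h1 : ‖E t * ((δ ^ 2 / (η t ^ 2 + δ ^ 2) : ℝ) : ℂ)‖
        ≤ δ / lam * (δ * η' t / (η t ^ 2 + δ ^ 2)) := by
      rw [norm_mul, hE1, one_mul, Complex.norm_real, Real.norm_eq_abs,
        abs_of_pos (by positivity)]
      have : δ / lam * (δ * η' t / (η t ^ 2 + δ ^ 2))
          = δ ^ 2 / (η t ^ 2 + δ ^ 2) * (η' t / lam) := by
        field_simp
      rw [this]
      have h2 : 1 ≤ η' t / lam := (one_le_div hlam).2 hl'
      exact le_mul_of_one_le_right (div_nonneg (sq_nonneg _) hDt.le) h2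
    have h2 : ‖Complex.I * E t * (m' t : ℂ)‖ ≤ 1 / δ * (δ * η' t / (η t ^ 2 + δ ^ 2)) := by
      rw [norm_mul, norm_mul, Complex.norm_I, hE1, one_mul, one_mul, Complex.norm_real,
        Real.norm_eq_abs]
      have : 1 / δ * (δ * η' t / (η t ^ 2 + δ ^ 2))
          = η' t * (η t ^ 2 + δ ^ 2) / (η t ^ 2 + δ ^ 2) ^ 2 := by
        field_simp
      rw [this]
      simp only [hm']
      rw [abs_div, abs_mul, abs_of_pos hp, abs_of_pos (pow_pos hDt 2)]
      gcongr
      rw [abs_le]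
      constructor <;> linarith only [sq_nonneg (η t), sq_nonneg δ]
    calc ‖R t‖ ≤ _ := norm_add_le _ _
      _ ≤ _ := add_le_add h1 h2
      _ = _ := by ring
  have hRint : ‖∫ t in α..β, R t‖ ≤ (δ / lam + 1 / δ) * π := by
    calc ‖∫ t in α..β, R t‖
        ≤ ∫ t in α..β, (δ / lam + 1 / δ) * (δ * η' t / (η t ^ 2 + δ ^ 2)) := by
          refine intervalIntegral.norm_integral_le_of_norm_le hab ?_
            ((hAc.const_mul _).intervalIntegrable _ _)
          refine Filter.Eventually.of_forall fun t ht => hRn t ⟨ht.1.le, ht.2⟩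
      _ = (δ / lam + 1 / δ) * (A β - A α) := by
          rw [intervalIntegral.integral_const_mul, hAint]
      _ ≤ _ := by gcongr
  rw [hsplit]
  calc ‖G β - G α + ∫ t in α..β, R t‖ ≤ ‖G β‖ + ‖G α‖ + ‖∫ t in α..β, R t‖ :=
        (norm_add_le _ _).trans (add_le_add (norm_sub_le _ _) le_rfl)
    _ ≤ 1 / (2 * δ) + 1 / (2 * δ) + (δ / lam + 1 / δ) * π :=
        add_le_add (add_le_add (hGn _) (hGn _)) hRint
    _ = _ := by field_simp; ring

end Pool.Agent.Work.MP_a1ab50_an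
end

-- merged part: Pool.Agent.Work.MP_a1ab50_an.Alg
section
set_option autoImplicit false

namespace Pool.Agent.Work.MP_a1ab50_an

open MvPolynomial

/-- numerator; variable `1` is `z`, variable `0` is `w`. -/
noncomputable def PP : MvPolynomial (Fin 2) ℝ := (1 - X 1) ^ 7 * (2 - X 1)

/-- denominator. -/
noncomputable def QQ : MvPolynomial (Fin 2) ℝ :=
  64 * (2 - X 1) - (2 * X 1 - 1) * (64 * X 1 ^ 3 + (1 - X 1) ^ 6) * X 0

noncomputable def pp : Polynomial ℝ := (1 - Polynomial.X) ^ 7 * (2 - Polynomial.X)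
noncomputable def pa : Polynomial ℝ := 64 * (2 - Polynomial.X)
noncomputable def pb : Polynomial ℝ :=
  (2 * Polynomial.X - 1) * (64 * Polynomial.X ^ 3 + (1 - Polynomial.X) ^ 6)

lemma aeval_PP (z : Fin 2 → ℂ) : aeval z PP = (1 - z 1) ^ 7 * (2 - z 1) := by
  simp [PP, map_ofNat]

lemma aeval_QQ (z : Fin 2 → ℂ) : aeval z QQ =
    64 * (2 - z 1) - (2 * z 1 - 1) * (64 * z 1 ^ 3 + (1 - z 1) ^ 6) * z 0 := by
  simp [QQ, map_ofNat]

lemma constantCoeff_QQ : constantCoeff QQ = 128 := by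
  simp [QQ, map_ofNat]
  norm_num

lemma isRelPrime_PP_QQ : IsRelPrime PP QQ := by
  intro D hP hQ
  set e := finSuccEquiv ℝ 1 with he
  have h1 : e (X 1) = Polynomial.C (X 0) := finSuccEquiv_X_succ (j := (0 : Fin 1))
  have h0 : e (X 0) = Polynomial.X := finSuccEquiv_X_zero
  set a : MvPolynomial (Fin 1) ℝ := 64 * (2 - X 0) with ha
  set b : MvPolynomial (Fin 1) ℝ := (2 * X 0 - 1) * (64 * X 0 ^ 3 + (1 - X 0) ^ 6) with hb
  set p : MvPolynomial (Fin 1) ℝ := (1 - X 0) ^ 7 * (2 - X 0) with hp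
  have heP : e PP = Polynomial.C p := by
    simp [PP, hp, map_ofNat, h1]
  have heQ : e QQ = Polynomial.C a - Polynomial.C b * Polynomial.X := by
    simp [QQ, ha, hb, map_ofNat, h1, h0]
  have hp0 : p ≠ 0 := by
    intro h
    have := congrArg (constantCoeff) h
    simp [hp, map_ofNat] at this
  have hDP : e D ∣ Polynomial.C p := heP ▸ map_dvd e hP
  have hDQ : e D ∣ Polynomial.C a - Polynomial.C b * Polynomial.X := heQ ▸ map_dvd e hQ
  have hdeg : (e D).natDegree = 0 := by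
    have := Polynomial.natDegree_le_of_dvd hDP (Polynomial.C_ne_zero.2 hp0)
    simpa using this
  obtain ⟨d, hd⟩ : ∃ d, e D = Polynomial.C d := ⟨_, Polynomial.eq_C_of_natDegree_eq_zero hdeg⟩
  rw [hd, Polynomial.C_dvd_iff_dvd_coeff] at hDQ
  have hda : d ∣ a := by simpa using hDQ 0
  have hdb : d ∣ b := by simpa [Polynomial.coeff_C] using hDQ 1
  have hbez : (64 * b - a * (770 + 381 * X 0 + 204 * X 0 ^ 2 + 109 * X 0 ^ 3 + 18 * X 0 ^ 4
      - 9 * X 0 ^ 5 + 2 * X 0 ^ 6) * (-1) : MvPolynomial (Fin 1) ℝ) = C (98496 : ℝ) := by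
    rw [show (C (98496 : ℝ) : MvPolynomial (Fin 1) ℝ) = 98496 from map_ofNat _ _, ha, hb]
    ring
  have hdu : IsUnit d := by
    refine isUnit_of_dvd_unit (y := C (98496 : ℝ)) ?_ ?_
    · rw [← hbez]
      exact dvd_sub (hdb.mul_left _) ((hda.mul_right _).mul_right _)
    · exact (IsUnit.mk0 _ (by norm_num)).map C
  have : IsUnit (e D) := hd ▸ hdu.map Polynomial.C
  simpa using this.map e.symm

/-- exponent vector of `z^n w^k`. -/
noncomputable def dd (n k : ℕ) : Fin 2 →₀ ℕ := Finsupp.single 1 n + Finsupp.single 0 k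

lemma dd_inj : Function.Injective (fun x : ℕ × ℕ => dd x.2 x.1) := by
  rintro ⟨k, n⟩ ⟨k', n'⟩ h
  have h0 := DFunLike.congr_fun h 0
  have h1 := DFunLike.congr_fun h 1
  simp [dd] at h0 h1
  simp [h0, h1]

/-- the coefficient of `w^k`, summed at the point `z`, equals `v`. -/
def Ev (G : MvPowerSeries (Fin 2) ℝ) (k : ℕ) (z v : ℂ) : Prop :=
  HasSum (fun n => ((MvPowerSeries.coeff (dd n k) G : ℝ) : ℂ) * z ^ n) v

lemma Ev.add {G H : MvPowerSeries (Fin 2) ℝ} {k : ℕ} {z u v : ℂ} (h1 : Ev G k z u)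
    (h2 : Ev H k z v) : Ev (G + H) k z (u + v) := by
  have := HasSum.add h1 h2
  simpa [Ev, add_mul] using this

lemma Ev.sub {G H : MvPowerSeries (Fin 2) ℝ} {k : ℕ} {z u v : ℂ} (h1 : Ev G k z u)
    (h2 : Ev H k z v) : Ev (G - H) k z (u - v) := by
  have := HasSum.sub h1 h2
  simpa [Ev, sub_mul] using this

lemma Ev.C_mul {G : MvPowerSeries (Fin 2) ℝ} {k : ℕ} {z u : ℂ} (a : ℝ) (h1 : Ev G k z u) :
    Ev (MvPowerSeries.C a * G) k z (a * u) := by
  have := HasSum.mul_left (a : ℂ) h1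
  simpa [Ev, MvPowerSeries.coeff_C_mul, mul_assoc] using this

lemma Ev.X1_mul {G : MvPowerSeries (Fin 2) ℝ} {k : ℕ} {z u : ℂ} (h1 : Ev G k z u) :
    Ev (MvPowerSeries.X 1 * G) k z (z * u) := by
  unfold Ev
  rw [← hasSum_nat_add_iff' 1]
  have h0 : MvPowerSeries.coeff (dd 0 k) (MvPowerSeries.X 1 * G) = 0 := by
    rw [MvPowerSeries.X_def, MvPowerSeries.coeff_monomial_mul, if_neg]
    intro h
    have := h 1
    simp [dd] at this
  have hs : ∀ n, MvPowerSeries.coeff (dd (n + 1) k) (MvPowerSeries.X 1 * G)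
      = MvPowerSeries.coeff (dd n k) G := by
    intro n
    have : dd (n + 1) k = Finsupp.single 1 1 + dd n k := by
      simp only [dd, Finsupp.single_add]
      abel
    rw [this, MvPowerSeries.X_def, MvPowerSeries.coeff_add_monomial_mul, one_mul]
  simp only [Finset.range_one, Finset.sum_singleton, h0, hs, Complex.ofReal_zero, zero_mul,
    sub_zero]
  have := HasSum.mul_left z h1
  refine this.congr_fun fun n => ?_
  ring

lemma Ev.X0_mul_succ {G : MvPowerSeries (Fin 2) ℝ} {k : ℕ} {z u : ℂ} (h1 : Ev G k z u) :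
    Ev (MvPowerSeries.X 0 * G) (k + 1) z u := by
  unfold Ev
  have hs : ∀ n, MvPowerSeries.coeff (dd n (k + 1)) (MvPowerSeries.X 0 * G)
      = MvPowerSeries.coeff (dd n k) G := by
    intro n
    have : dd n (k + 1) = Finsupp.single 0 1 + dd n k := by
      simp only [dd, Finsupp.single_add]
      abel
    rw [this, MvPowerSeries.X_def, MvPowerSeries.coeff_add_monomial_mul, one_mul]
  simp only [hs]
  exact h1

lemma Ev.X0_mul_zero (G : MvPowerSeries (Fin 2) ℝ) (z : ℂ) :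
    Ev (MvPowerSeries.X 0 * G) 0 z 0 := by
  unfold Ev
  have hs : ∀ n, MvPowerSeries.coeff (dd n 0) (MvPowerSeries.X 0 * G) = 0 := by
    intro n
    rw [MvPowerSeries.X_def, MvPowerSeries.coeff_monomial_mul, if_neg]
    intro h
    have := h 0
    simp [dd] at this
  simp only [hs, Complex.ofReal_zero, zero_mul]
  exact hasSum_zero

lemma Ev.poly_mul (p : Polynomial ℝ) {k : ℕ} {z : ℂ} :
    ∀ {G : MvPowerSeries (Fin 2) ℝ} {u : ℂ}, Ev G k z u →
      Ev (Polynomial.aeval (MvPowerSeries.X 1 : MvPowerSeries (Fin 2) ℝ) p * G) k z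
        (Polynomial.aeval z p * u) := by
  induction p using Polynomial.induction_on with
  | C a =>
    intro G u h
    simpa [MvPowerSeries.algebraMap_apply] using h.C_mul a
  | add p q hp hq =>
    intro G u h
    simpa [add_mul] using (hp h).add (hq h)
  | monomial n a ih =>
    intro G u h
    have := ih h.X1_mul
    convert this using 1
    · simp only [map_mul, map_pow, Polynomial.aeval_X]
      ring
    · simp only [map_mul, map_pow, Polynomial.aeval_X]
      ring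

lemma Ev.one_zero (z : ℂ) : Ev 1 0 z 1 := by
  classical
  unfold Ev
  have := hasSum_single (f := fun n => ((MvPowerSeries.coeff (dd n 0)
    (1 : MvPowerSeries (Fin 2) ℝ) : ℝ) : ℂ) * z ^ n) 0 (by
      intro n hn
      rw [MvPowerSeries.coeff_one, if_neg]
      · simp
      · intro h
        have := DFunLike.congr_fun h 1
        simp [dd] at this
        exact hn this)
  simpa [dd] using this

lemma Ev.one_succ (k : ℕ) (z : ℂ) : Ev 1 (k + 1) z 0 := by
  classical
  unfold Ev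
  have hs : ∀ n, MvPowerSeries.coeff (dd n (k + 1)) (1 : MvPowerSeries (Fin 2) ℝ) = 0 := by
    intro n
    rw [MvPowerSeries.coeff_one, if_neg]
    intro h
    have := DFunLike.congr_fun h 0
    simp [dd] at this
  simp only [hs, Complex.ofReal_zero, zero_mul]
  exact hasSum_zero

/-- the power series of `PP / QQ`. -/
noncomputable def HH : MvPowerSeries (Fin 2) ℝ :=
  (PP : MvPowerSeries (Fin 2) ℝ) * (QQ : MvPowerSeries (Fin 2) ℝ)⁻¹

lemma coe_PP : (PP : MvPowerSeries (Fin 2) ℝ)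
    = Polynomial.aeval (MvPowerSeries.X 1 : MvPowerSeries (Fin 2) ℝ) pp := by
  rw [← coeToMvPowerSeries.ringHom_apply]
  simp only [PP, pp, map_mul, map_pow, map_sub, map_one, map_ofNat, Polynomial.aeval_X,
    coeToMvPowerSeries.ringHom_apply, coe_X]

lemma coe_QQ : (QQ : MvPowerSeries (Fin 2) ℝ)
    = Polynomial.aeval (MvPowerSeries.X 1 : MvPowerSeries (Fin 2) ℝ) pa
      - Polynomial.aeval (MvPowerSeries.X 1 : MvPowerSeries (Fin 2) ℝ) pb
        * MvPowerSeries.X 0 := by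
  rw [← coeToMvPowerSeries.ringHom_apply]
  simp only [QQ, pa, pb, map_mul, map_pow, map_sub, map_add, map_one, map_ofNat,
    Polynomial.aeval_X, coeToMvPowerSeries.ringHom_apply, coe_X]

lemma QQ_mul_HH : (QQ : MvPowerSeries (Fin 2) ℝ) * HH = PP := by
  have h : MvPowerSeries.constantCoeff (QQ : MvPowerSeries (Fin 2) ℝ) ≠ 0 := by
    have : MvPowerSeries.constantCoeff (QQ : MvPowerSeries (Fin 2) ℝ) = constantCoeff QQ := rfl
    rw [this, constantCoeff_QQ]
    norm_num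
  rw [HH, mul_left_comm, MvPowerSeries.mul_inv_cancel _ h, mul_one]

/-- If all the `w`-coefficients of `HH` are summable at `z`, they are given by the
explicit formula. -/
lemma ev_HH {z : ℂ} (hz : z ≠ 2) (v : ℕ → ℂ) (hv : ∀ k, Ev HH k z (v k)) (k : ℕ) :
    v k = (1 - z) ^ 7 / 64
      * ((2 * z - 1) * (64 * z ^ 3 + (1 - z) ^ 6) / (64 * (2 - z))) ^ k := by
  have h2 : (2 - z) ≠ 0 := sub_ne_zero.2 hz.symm
  have key : Polynomial.aeval (MvPowerSeries.X 1 : MvPowerSeries (Fin 2) ℝ) pa * HH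
      - Polynomial.aeval (MvPowerSeries.X 1 : MvPowerSeries (Fin 2) ℝ) pb
        * (MvPowerSeries.X 0 * HH)
      = Polynomial.aeval (MvPowerSeries.X 1 : MvPowerSeries (Fin 2) ℝ) pp * 1 := by
    rw [mul_one, ← coe_PP, ← QQ_mul_HH, coe_QQ]
    ring
  induction k with
  | zero =>
    have h1 := (Ev.poly_mul pa (hv 0)).sub (Ev.poly_mul pb (Ev.X0_mul_zero HH z))
    rw [key] at h1
    have h3 := HasSum.unique h1 (Ev.poly_mul pp (Ev.one_zero z))
    simp [pa, pp, map_ofNat] at h3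
    rw [pow_zero, mul_one, eq_div_iff (by norm_num)]
    apply mul_right_cancel₀ h2
    linear_combination h3
  | succ k ih =>
    have h1 := (Ev.poly_mul pa (hv (k + 1))).sub (Ev.poly_mul pb (hv k).X0_mul_succ)
    rw [key] at h1
    have h3 := HasSum.unique h1 (Ev.poly_mul pp (Ev.one_succ k z))
    simp only [pa, pb, map_mul, map_sub, map_add, map_pow, map_one, map_ofNat,
      Polynomial.aeval_X, mul_zero] at h3
    rw [pow_succ _ k, ← mul_assoc, ← ih]
    field_simp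
    linear_combination h3

end Pool.Agent.Work.MP_a1ab50_an
end

-- merged part: Pool.Agent.Work.MP_a1ab50_an.Cont
section
set_option autoImplicit false

namespace Pool.Agent.Work.MP_a1ab50_an

open MvPolynomial

lemma one_sub_sq_of_norm_one {z : ℂ} (hz : ‖z‖ = 1) :
    (1 - z) ^ 2 = -z * ((‖1 - z‖ : ℝ) : ℂ) ^ 2 := by
  have h1 : z * (starRingEnd ℂ) z = 1 := by
    rw [Complex.mul_conj, Complex.normSq_eq_norm_sq, hz]
    simp
  have h2 : ((‖1 - z‖ : ℝ) : ℂ) ^ 2 = (1 - z) * (1 - (starRingEnd ℂ) z) := by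
    have := Complex.mul_conj (1 - z)
    rw [Complex.normSq_eq_norm_sq] at this
    push_cast at this
    rw [← this]
    simp
  rw [h2]
  linear_combination (1 - z) * (-1) * h1

lemma G_circle {z : ℂ} (hz : ‖z‖ = 1) :
    64 * z ^ 3 + (1 - z) ^ 6 = z ^ 3 * ((64 - ‖1 - z‖ ^ 6 : ℝ) : ℂ) := by
  have h := one_sub_sq_of_norm_one hz
  have : (1 - z) ^ 6 = ((1 - z) ^ 2) ^ 3 := by ring
  rw [this, h]
  push_cast
  ring

lemma norm_one_sub_le_two {z : ℂ} (hz : ‖z‖ ≤ 1) : ‖1 - z‖ ≤ 2 := by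
  have := norm_sub_le (1 : ℂ) z
  rw [norm_one] at this
  linarith

lemma G_bound_circle {z : ℂ} (hz : ‖z‖ = 1) :
    ‖64 * z ^ 3 + (1 - z) ^ 6‖ + ‖1 - z‖ ^ 6 ≤ 64 := by
  rw [G_circle hz, norm_mul, norm_pow, hz, one_pow, one_mul, Complex.norm_real, Real.norm_eq_abs]
  have h1 : ‖1 - z‖ ^ 6 ≤ 2 ^ 6 := pow_le_pow_left₀ (norm_nonneg _) (norm_one_sub_le_two hz.le) 6
  rw [abs_of_nonneg (by linarith)]
  linarith

lemma exists_unit (a : ℂ) : ∃ u : ℂ, ‖u‖ = 1 ∧ u * a = (‖a‖ : ℝ) := by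
  by_cases h : a = 0
  · exact ⟨1, by simp, by simp [h]⟩
  · refine ⟨(‖a‖ : ℝ) / a, ?_, ?_⟩
    · rw [norm_div, Complex.norm_real, norm_norm, div_self (norm_ne_zero_iff.2 h)]
    · field_simp

lemma G_bound {z : ℂ} (hz : ‖z‖ ≤ 1) :
    ‖64 * z ^ 3 + (1 - z) ^ 6‖ + ‖1 - z‖ ^ 6 ≤ 64 := by
  obtain ⟨u, hu, hu'⟩ := exists_unit (64 * z ^ 3 + (1 - z) ^ 6)
  obtain ⟨v, hv, hv'⟩ := exists_unit ((1 - z) ^ 6)
  set f : ℂ → ℂ := fun x => u * (64 * x ^ 3 + (1 - x) ^ 6) + v * (1 - x) ^ 6 with hf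
  have hd : Differentiable ℂ f := by
    simp only [hf]
    fun_prop
  have h1 : ‖f z‖ ≤ 64 := by
    refine Complex.norm_le_of_forall_mem_frontier_norm_le (U := Metric.ball (0 : ℂ) 1)
      Metric.isBounded_ball hd.diffContOnCl ?_ ?_
    · intro x hx
      rw [frontier_ball _ one_ne_zero, mem_sphere_zero_iff_norm] at hx
      refine (norm_add_le _ _).trans ?_
      rw [norm_mul, norm_mul, hu, hv, one_mul, one_mul, norm_pow]
      exact G_bound_circle hx
    · rw [closure_ball _ one_ne_zero, mem_closedBall_zero_iff]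
      exact hz
  simp only [hf, hu', hv'] at h1
  rw [← Complex.ofReal_add, Complex.norm_real, Real.norm_eq_abs, norm_pow] at h1
  exact (le_abs_self _).trans h1

lemma blaschke_le {z : ℂ} (hz : ‖z‖ ≤ 1) : ‖2 * z - 1‖ ≤ ‖2 - z‖ := by
  rw [← sq_le_sq₀ (norm_nonneg _) (norm_nonneg _), ← Complex.normSq_eq_norm_sq,
    ← Complex.normSq_eq_norm_sq]
  have h : z.re * z.re + z.im * z.im ≤ 1 := by
    rw [← Complex.normSq_apply, Complex.normSq_eq_norm_sq]
    nlinarith [norm_nonneg z]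
  simp [Complex.normSq_apply]
  nlinarith

lemma one_le_norm_two_sub {z : ℂ} (hz : ‖z‖ ≤ 1) : 1 ≤ ‖2 - z‖ := by
  have := norm_sub_norm_le (2 : ℂ) z
  simp at this
  linarith

lemma Q_lower {z w : ℂ} (hz : ‖z‖ ≤ 1) (hw : ‖w‖ ≤ 1) :
    ‖2 - z‖ * ‖1 - z‖ ^ 6 ≤ ‖64 * (2 - z) - (2 * z - 1) * (64 * z ^ 3 + (1 - z) ^ 6) * w‖ := by
  refine le_trans ?_ (norm_sub_norm_le _ _)
  rw [norm_mul, norm_mul, norm_mul]
  have h1 := G_bound hz
  have h2 := blaschke_le hz
  have h3 : ‖2 * z - 1‖ * ‖64 * z ^ 3 + (1 - z) ^ 6‖ * ‖w‖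
      ≤ ‖2 - z‖ * ‖64 * z ^ 3 + (1 - z) ^ 6‖ * 1 := by gcongr
  have h4 : ‖(64 : ℂ)‖ = 64 := by simp
  rw [h4]
  nlinarith [norm_nonneg (2 - z)]

lemma PQ_le {z : Fin 2 → ℂ} (hz : ∀ i, ‖z i‖ ≤ 1) :
    ‖(aeval z PP : ℂ) / aeval z QQ‖ ≤ ‖1 - z 1‖ := by
  rw [aeval_PP, aeval_QQ, norm_div]
  by_cases h : 1 - z 1 = 0
  · simp [h]
  have h1 := Q_lower (hz 1) (hz 0)
  have h2 := one_le_norm_two_sub (hz 1)
  have h3 : 0 < ‖1 - z 1‖ := norm_pos_iff.2 h
  have h4 : 0 < ‖2 - z 1‖ * ‖1 - z 1‖ ^ 6 := by positivity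
  rw [div_le_iff₀ (h4.trans_le h1), norm_mul, norm_pow]
  calc ‖1 - z 1‖ ^ 7 * ‖2 - z 1‖ = ‖1 - z 1‖ * (‖2 - z 1‖ * ‖1 - z 1‖ ^ 6) := by ring
    _ ≤ _ := by gcongr

lemma continuousOn_PQ :
    ContinuousOn (fun z : Fin 2 → ℂ => (aeval z PP : ℂ) / aeval z QQ)
      {z : Fin 2 → ℂ | ∀ i, ‖z i‖ ≤ 1} := by
  intro z hz
  by_cases h : 1 - z 1 = 0
  · have h0 : (aeval z PP : ℂ) / aeval z QQ = 0 := by
      rw [aeval_PP, h]
      simp
    unfold ContinuousWithinAt
    simp only [h0]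
    refine squeeze_zero_norm' (a := fun x : Fin 2 → ℂ => ‖1 - x 1‖) ?_ ?_
    · filter_upwards [self_mem_nhdsWithin] with x hx using PQ_le hx
    · have hc : Continuous fun x : Fin 2 → ℂ => ‖1 - x 1‖ := by fun_prop
      have := hc.tendsto z
      rw [h, norm_zero] at this
      exact this.mono_left nhdsWithin_le_nhds
  · have hQ : (aeval z QQ : ℂ) ≠ 0 := by
      have h1 := Q_lower (hz 1) (hz 0)
      have h2 := one_le_norm_two_sub (hz 1)
      have h3 : 0 < ‖1 - z 1‖ := norm_pos_iff.2 h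
      have h4 : 0 < ‖2 - z 1‖ * ‖1 - z 1‖ ^ 6 := by positivity
      rw [aeval_QQ]
      exact norm_pos_iff.1 (h4.trans_le h1)
    refine ContinuousAt.continuousWithinAt ?_
    refine ContinuousAt.div ?_ ?_ hQ
    · simp only [aeval_PP]
      fun_prop
    · simp only [aeval_QQ]
      fun_prop

lemma common_zeros_finite :
    {z : Fin 2 → ℂ | (∀ i, ‖z i‖ = 1) ∧ aeval z PP = 0 ∧ aeval z QQ = 0}.Finite := by
  refine (Set.finite_singleton (fun _ => (1 : ℂ))).subset ?_
  rintro z ⟨hz, hP, hQ⟩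
  rw [aeval_PP] at hP
  rw [aeval_QQ] at hQ
  have h2 : (2 - z 1) ≠ 0 := norm_pos_iff.1 (one_pos.trans_le (one_le_norm_two_sub (hz 1).le))
  have h1 : z 1 = 1 := by
    rcases mul_eq_zero.1 hP with h | h
    · exact (sub_eq_zero.1 (pow_eq_zero_iff (by norm_num) |>.1 h)).symm
    · exact absurd h h2
  rw [h1] at hQ
  have h0 : z 0 = 1 := by linear_combination (-1 / 64 : ℂ) * hQ
  rw [Set.mem_singleton_iff]
  funext i
  fin_cases i
  · exact h0
  · exact h1

end Pool.Agent.Work.MP_a1ab50_an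
end

-- merged part: Pool.Agent.Work.MP_a1ab50_an.Osc
section
set_option autoImplicit false

namespace Pool.Agent.Work.MP_a1ab50_an

open Real MeasureTheory

noncomputable def zz (θ : ℝ) : ℂ := Complex.exp (θ * Complex.I)

noncomputable def UU (θ : ℝ) : ℂ := (2 - zz θ) / (2 * zz θ - 1)

noncomputable def EE (ν : ℝ) (k : ℕ) (θ : ℝ) : ℂ :=
  Complex.exp (ν * θ * Complex.I) * UU θ ^ k

lemma norm_zz (θ : ℝ) : ‖zz θ‖ = 1 := Complex.norm_exp_ofReal_mul_I θ

lemma zz_ne (θ : ℝ) : zz θ ≠ 0 := Complex.exp_ne_zero _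

lemma two_sub_ne (θ : ℝ) : 2 - zz θ ≠ 0 :=
  norm_pos_iff.1 (one_pos.trans_le (one_le_norm_two_sub (norm_zz θ).le))

lemma two_mul_sub_ne (θ : ℝ) : 2 * zz θ - 1 ≠ 0 := by
  intro h
  have h1 : 2 * zz θ = 1 := sub_eq_zero.1 h
  have h2 := congrArg norm h1
  rw [norm_mul, norm_zz] at h2
  norm_num at h2

lemma den_pos (θ : ℝ) : 0 < 5 - 4 * cos θ := by
  have := Real.cos_le_one θ
  linarith

lemma cos_eq (θ : ℝ) : ((cos θ : ℝ) : ℂ) = (zz θ + (zz θ)⁻¹) / 2 := by
  rw [Complex.ofReal_cos, Complex.cos, zz, ← Complex.exp_neg, neg_mul]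

lemma prod_eq (θ : ℝ) :
    (2 * zz θ - 1) * (2 - zz θ) = zz θ * ((5 - 4 * cos θ : ℝ) : ℂ) := by
  have h := zz_ne θ
  push_cast [-Complex.ofReal_cos]
  rw [cos_eq]
  field_simp
  ring

lemma norm_UU (θ : ℝ) : ‖UU θ‖ = 1 := by
  have h1 : zz θ * (starRingEnd ℂ) (zz θ) = 1 := by
    rw [Complex.mul_conj, Complex.normSq_eq_norm_sq, norm_zz]
    simp
  have h2 : 2 - zz θ = zz θ * (starRingEnd ℂ) (2 * zz θ - 1) := by
    simp only [map_sub, map_mul, map_one, map_ofNat]
    linear_combination (-2) * h1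
  rw [UU, norm_div, h2, norm_mul, norm_zz, one_mul, Complex.norm_conj,
    div_self (norm_ne_zero_iff.2 (two_mul_sub_ne θ))]

lemma hasDerivAt_cexp (ν θ : ℝ) :
    HasDerivAt (fun t : ℝ => Complex.exp (ν * t * Complex.I))
      (Complex.exp (ν * θ * Complex.I) * (ν * Complex.I)) θ := by
  have h1 : HasDerivAt (fun t : ℝ => (ν : ℂ) * t * Complex.I) (ν * Complex.I) θ := by
    have := (((hasDerivAt_id θ).ofReal_comp).const_mul (ν : ℂ)).mul_const Complex.I
    simpa using this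
  exact h1.cexp

lemma hasDerivAt_zz (θ : ℝ) : HasDerivAt zz (zz θ * Complex.I) θ := by
  have := hasDerivAt_cexp 1 θ
  simp only [Complex.ofReal_one, one_mul] at this
  exact this

lemma hasDerivAt_UU (θ : ℝ) :
    HasDerivAt UU (Complex.I * ((-3 / (5 - 4 * cos θ) : ℝ) : ℂ) * UU θ) θ := by
  have h1 := ((hasDerivAt_zz θ).const_sub 2).div
    (((hasDerivAt_zz θ).const_mul 2).sub_const 1) (two_mul_sub_ne θ)
  refine h1.congr_deriv ?_
  have h2 := prod_eq θ
  have h3 := two_mul_sub_ne θ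
  have h4 : ((5 - 4 * cos θ : ℝ) : ℂ) ≠ 0 := by exact_mod_cast (den_pos θ).ne'
  rw [Complex.ofReal_div]
  generalize ((5 - 4 * cos θ : ℝ) : ℂ) = D at h2 h4
  simp only [UU]
  have h5 : 2 - zz θ = (3 - (2 * zz θ - 1)) / 2 := by ring
  have h6 : zz θ = ((2 * zz θ - 1) + 1) / 2 := by ring
  rw [h5] at h2 ⊢
  generalize 2 * zz θ - 1 = y at h2 h3 h6
  rw [h6] at h2 ⊢
  push_cast
  field_simp
  linear_combination 6 * h2

lemma norm_EE (ν : ℝ) (k : ℕ) (θ : ℝ) : ‖EE ν k θ‖ = 1 := by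
  rw [EE, norm_mul, norm_pow, norm_UU, one_pow, mul_one, ← Complex.ofReal_mul]
  exact Complex.norm_exp_ofReal_mul_I _

lemma hasDerivAt_EE (ν : ℝ) (k : ℕ) (θ : ℝ) :
    HasDerivAt (EE ν k) (Complex.I * ((ν - 3 * k / (5 - 4 * cos θ) : ℝ) : ℂ) * EE ν k θ) θ := by
  have h1 := (hasDerivAt_cexp ν θ).mul ((hasDerivAt_UU θ).pow k)
  refine h1.congr_deriv ?_
  simp only [EE, Pi.pow_apply]
  push_cast
  rcases k with _ | k
  · simp
    ring
  · simp only [Nat.add_sub_cancel]
    push_cast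
    ring

lemma continuous_EE (ν : ℝ) (k : ℕ) : Continuous (EE ν k) :=
  continuous_iff_continuousAt.2 fun t => (hasDerivAt_EE ν k t).continuousAt

lemma sin_lower {x : ℝ} (h0 : 0 ≤ x) (h1 : x ≤ 1) : 3 * x / 4 ≤ sin x := by
  have h := Real.sin_ge_sub_cube h0
  have : x ^ 3 ≤ x := by nlinarith [mul_nonneg h0 h0, mul_nonneg h0 (sub_nonneg.2 h1)]
  linarith

lemma osc_bound (ν : ℝ) {m : ℝ} (hm : 1 ≤ m) {k : ℕ} (hk : m ^ 12 ≤ k) :
    ‖∫ θ in (1 / (2 * m ^ 2))..(1 / m ^ 2), EE ν k θ‖ ≤ 77 / m ^ 5 := by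
  have hm0 : 0 < m := one_pos.trans_le hm
  have hm2 : 1 ≤ m ^ 2 := one_le_pow₀ hm
  have hab : 1 / (2 * m ^ 2) ≤ 1 / m ^ 2 := by
    apply one_div_le_one_div_of_le (by positivity)
    nlinarith
  have h := vdc (E := EE ν k) (η := fun θ => ν - 3 * k / (5 - 4 * cos θ))
    (η' := fun θ => 12 * k * sin θ / (5 - 4 * cos θ) ^ 2) (lam := m ^ 10 / 18) (δ := m ^ 5)
    hab (by positivity) (by positivity) (hasDerivAt_EE ν k) (norm_EE ν k) ?_ ?_ ?_
  · refine h.trans ?_
    have hpi := Real.pi_le_four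
    have : π * m ^ 5 / (m ^ 10 / 18) + (1 + π) / m ^ 5 = (19 * π + 1) / m ^ 5 := by
      field_simp
      ring
    rw [this]
    gcongr
    linarith
  · intro θ
    have h1 := ((hasDerivAt_const θ (3 * (k : ℝ))).div
      (((Real.hasDerivAt_cos θ).const_mul 4).const_sub 5) (den_pos θ).ne').const_sub ν
    refine h1.congr_deriv ?_
    ring
  · exact Continuous.div (by fun_prop) (by fun_prop) fun θ => (pow_pos (den_pos θ) 2).ne'
  · intro θ hθ
    have h0 : 0 < θ := lt_of_lt_of_le (by positivity) hθ.1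
    have h1 : θ ≤ 1 := hθ.2.trans ((div_le_one (by positivity)).2 hm2)
    have hs := sin_lower h0.le h1
    have hc : (5 - 4 * cos θ) ^ 2 ≤ 81 := by
      have := Real.neg_one_le_cos θ
      have := den_pos θ
      nlinarith
    have hs' : 3 / (8 * m ^ 2) ≤ sin θ := by
      refine le_trans ?_ hs
      have := hθ.1
      calc 3 / (8 * m ^ 2) = 3 * (1 / (2 * m ^ 2)) / 4 := by field_simp; norm_num
        _ ≤ _ := by gcongr
    calc m ^ 10 / 18 = 12 * m ^ 12 * (3 / (8 * m ^ 2)) / 81 := by field_simp; norm_num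
      _ ≤ _ := by
        have := pow_pos (den_pos θ) 2
        have : 0 ≤ sin θ := le_trans (by positivity) hs'
        gcongr

lemma one_sub_zz (θ : ℝ) :
    1 - zz θ = ((2 * sin (θ / 2) : ℝ) : ℂ) * (-Complex.I)
      * Complex.exp (((1 / 2 : ℝ) : ℂ) * θ * Complex.I) := by
  have h1 : zz θ = Complex.exp (((1 / 2 : ℝ) : ℂ) * θ * Complex.I) ^ 2 := by
    rw [zz, ← Complex.exp_nat_mul]
    congr 1
    push_cast
    ring
  have h2 : ((2 * sin (θ / 2) : ℝ) : ℂ)
      = ((Complex.exp (((1 / 2 : ℝ) : ℂ) * θ * Complex.I))⁻¹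
        - Complex.exp (((1 / 2 : ℝ) : ℂ) * θ * Complex.I)) * Complex.I := by
    rw [← Complex.exp_neg]
    push_cast
    rw [Complex.sin]
    ring_nf
  rw [h1, h2]
  have h3 := Complex.exp_ne_zero (((1 / 2 : ℝ) : ℂ) * θ * Complex.I)
  generalize Complex.exp (((1 / 2 : ℝ) : ℂ) * θ * Complex.I) = e at h3
  field_simp
  simp only [Complex.I_sq]
  ring

lemma value_mul_test (k : ℕ) (θ : ℝ) :
    (1 - zz θ) ^ 7 / 64
      * ((2 * zz θ - 1) * (64 * zz θ ^ 3 + (1 - zz θ) ^ 6) / (64 * (2 - zz θ))) ^ k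
      * EE (-(3 * k + 7 / 2)) k θ
    = Complex.I * (((2 * sin (θ / 2)) ^ 7 / 64 * (1 - (2 * sin (θ / 2)) ^ 6 / 64) ^ k : ℝ) : ℂ) := by
  have hn : ‖1 - zz θ‖ ^ 6 = (2 * sin (θ / 2)) ^ 6 := by
    rw [one_sub_zz, norm_mul, norm_mul, norm_neg, Complex.norm_I, ← Complex.ofReal_mul,
      Complex.norm_exp_ofReal_mul_I, mul_one, mul_one, Complex.norm_real, Real.norm_eq_abs]
    exact Even.pow_abs (by decide) _
  rw [G_circle (norm_zz θ), hn]
  have h1 : (2 * zz θ - 1) * (zz θ ^ 3 * ((64 - (2 * sin (θ / 2)) ^ 6 : ℝ) : ℂ))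
      / (64 * (2 - zz θ)) * UU θ
      = zz θ ^ 3 * ((1 - (2 * sin (θ / 2)) ^ 6 / 64 : ℝ) : ℂ) := by
    have h2 := two_sub_ne θ
    have h3 := two_mul_sub_ne θ
    simp only [UU]
    push_cast
    field_simp
  have h4 : Complex.exp (((1 / 2 : ℝ) : ℂ) * θ * Complex.I) ^ 7 * (zz θ ^ 3) ^ k
      * Complex.exp (((-(3 * k + 7 / 2) : ℝ) : ℂ) * θ * Complex.I) = 1 := by
    rw [← pow_mul, zz, ← Complex.exp_nat_mul, ← Complex.exp_nat_mul, ← Complex.exp_add,
      ← Complex.exp_add, ← Complex.exp_zero]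
    congr 1
    push_cast
    ring
  have h5 : (-Complex.I) ^ 7 = Complex.I := by
    have : (-Complex.I) ^ 7 = -(Complex.I ^ 2) ^ 3 * Complex.I := by ring
    rw [this, Complex.I_sq]
    ring
  calc _ = (1 - zz θ) ^ 7 / 64 * ((2 * zz θ - 1)
        * (zz θ ^ 3 * ((64 - (2 * sin (θ / 2)) ^ 6 : ℝ) : ℂ)) / (64 * (2 - zz θ)) * UU θ) ^ k
        * Complex.exp (((-(3 * k + 7 / 2) : ℝ) : ℂ) * θ * Complex.I) := by
          rw [EE, mul_pow _ (UU θ)]
          ring
    _ = (-Complex.I) ^ 7 * (((2 * sin (θ / 2) : ℝ) : ℂ) ^ 7 / 64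
          * ((1 - (2 * sin (θ / 2)) ^ 6 / 64 : ℝ) : ℂ) ^ k)
          * (Complex.exp (((1 / 2 : ℝ) : ℂ) * θ * Complex.I) ^ 7 * (zz θ ^ 3) ^ k
            * Complex.exp (((-(3 * k + 7 / 2) : ℝ) : ℂ) * θ * Complex.I)) := by
          rw [h1, one_sub_zz, mul_pow, mul_pow, mul_pow]
          ring
    _ = _ := by
          rw [h4, h5]
          push_cast
          ring

lemma amp_lower {m : ℝ} (hm : 1 ≤ m) {k : ℕ} (hk : (k : ℝ) ≤ 2 * m ^ 12) {θ : ℝ}
    (hθ : θ ∈ Set.Icc (1 / (2 * m ^ 2)) (1 / m ^ 2)) :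
    (1 / (4 * m ^ 2)) ^ 7 / 128
      ≤ (2 * sin (θ / 2)) ^ 7 / 64 * (1 - (2 * sin (θ / 2)) ^ 6 / 64) ^ k := by
  have hm0 : 0 < m := one_pos.trans_le hm
  have hm2 : 1 ≤ m ^ 2 := one_le_pow₀ hm
  have h0 : 0 < θ := lt_of_lt_of_le (by positivity) hθ.1
  have h1' : 1 / m ^ 2 ≤ 1 := (div_le_one (by positivity)).2 hm2
  have h1 : θ ≤ 1 := hθ.2.trans h1'
  have hs := sin_lower (x := θ / 2) (by linarith) (by linarith)
  have hs2 := Real.sin_le (x := θ / 2) (by linarith)
  set r := 2 * sin (θ / 2) with hr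
  have hr1 : 1 / (4 * m ^ 2) ≤ r := by
    have := hθ.1
    have h2 : 1 / (4 * m ^ 2) = (1 / (2 * m ^ 2)) / 2 := by field_simp; norm_num
    rw [h2]
    linarith
  have hr0 : 0 ≤ r := le_trans (by positivity) hr1
  have hr2 : r ≤ 1 / m ^ 2 := by linarith [hθ.2]
  have hr6 : r ^ 6 ≤ (1 / m ^ 2) ^ 6 := pow_le_pow_left₀ hr0 hr2 6
  have hr6' : r ^ 6 ≤ 1 := pow_le_one₀ hr0 (hr2.trans h1')
  have hk6 : (k : ℝ) * r ^ 6 ≤ 2 := by
    calc (k : ℝ) * r ^ 6 ≤ 2 * m ^ 12 * (1 / m ^ 2) ^ 6 := by gcongr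
      _ = 2 := by field_simp
  have hb : 1 + (k : ℝ) * (-(r ^ 6 / 64)) ≤ (1 + -(r ^ 6 / 64)) ^ k :=
    one_add_mul_le_pow (by linarith) k
  have hb' : 1 / 2 ≤ (1 - r ^ 6 / 64) ^ k := by
    rw [sub_eq_add_neg]
    linarith
  calc (1 / (4 * m ^ 2)) ^ 7 / 128 = (1 / (4 * m ^ 2)) ^ 7 / 64 * (1 / 2) := by ring
    _ ≤ _ := by gcongr

end Pool.Agent.Work.MP_a1ab50_an
end

-- merged part: Pool.Agent.Work.MP_a1ab50_an.T.Ex
section
/-! The examples: lower bound for the denominator and smoothness. -/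

set_option autoImplicit false

namespace Pool.Agent.Work.MP_a1ab50_an.T

open Filter Topology Metric Finset MvPolynomial
open scoped NNReal

section
variable {A : Type} [CommRing A]

/-- First factor. -/
def fa (m : ℕ) (x : A) : A := 4 ^ m * (2 - x)

/-- The flat factor. -/
def fg (m : ℕ) (x : A) : A := 4 ^ m * x ^ m - (-1) ^ m * (1 - x) ^ (2 * m)

/-- Second factor. -/
def fb (m : ℕ) (x : A) : A := (2 * x - 1) * fg m x

/-- Factor of the numerator. -/
def fn (N : ℕ) (x : A) : A := (1 - x) ^ N * (2 - x)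

end

/-- Product over the variables. -/
noncomputable def pr (d : ℕ) (f : MvPolynomial (Fin d) ℝ → MvPolynomial (Fin d) ℝ) :
    MvPolynomial (Fin d) ℝ := ∏ j, f (X j)

/-- The denominator. -/
noncomputable def Q0 (d m : ℕ) : MvPolynomial (Fin (d + 1)) ℝ :=
  rename Fin.succ (pr d (fa m)) - rename Fin.succ (pr d (fb m)) * X 0

/-- The numerator. -/
noncomputable def P0 (d N : ℕ) : MvPolynomial (Fin (d + 1)) ℝ := rename Fin.succ (pr d (fn N))

variable {d m N : ℕ}

theorem ev_fa (z : Fin d → ℂ) : aeval z (pr d (fa m)) = ∏ j, fa m (z j) := by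
  simp [pr, fa, map_ofNat]

theorem ev_fb (z : Fin d → ℂ) : aeval z (pr d (fb m)) = ∏ j, fb m (z j) := by
  simp [pr, fb, fg, map_ofNat]

theorem ev_fn (z : Fin d → ℂ) : aeval z (pr d (fn N)) = ∏ j, fn N (z j) := by
  simp [pr, fn, map_ofNat]

theorem ev_Q0 (z : Fin (d + 1) → ℂ) :
    aeval z (Q0 d m) = ∏ j : Fin d, fa m (z j.succ) - (∏ j : Fin d, fb m (z j.succ)) * z 0 := by
  rw [Q0, map_sub, map_mul, aeval_rename, aeval_rename, ev_fa, ev_fb, aeval_X]
  rfl

theorem ev_P0 (z : Fin (d + 1) → ℂ) : aeval z (P0 d N) = ∏ j : Fin d, fn N (z j.succ) := by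
  rw [P0, aeval_rename, ev_fn]
  rfl

theorem fg_circle {z : ℂ} (hz : ‖z‖ = 1) :
    fg m z = z ^ m * ((4 ^ m - ‖1 - z‖ ^ (2 * m) : ℝ) : ℂ) := by
  have h : ((-1 : ℂ) ^ m) * (-1) ^ m = 1 := by rw [← mul_pow]; simp
  rw [fg, pow_mul, one_sub_sq_of_norm_one hz, mul_pow, neg_pow z, ← pow_mul]
  push_cast
  linear_combination (-(z ^ m * (‖1 - z‖ : ℂ) ^ (2 * m))) * h

theorem pow_le_four {z : ℂ} (hz : ‖z‖ ≤ 1) : ‖1 - z‖ ^ (2 * m) ≤ 4 ^ m :=
  (pow_le_pow_left₀ (norm_nonneg _) (norm_one_sub_le_two hz) _).trans_eq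
    (by rw [pow_mul]; norm_num)

theorem fg_bound {z : ℂ} (hz : ‖z‖ ≤ 1) : ‖fg m z‖ + ‖1 - z‖ ^ (2 * m) ≤ 4 ^ m := by
  obtain ⟨u, hu, hu'⟩ := exists_unit (fg m z)
  obtain ⟨v, hv, hv'⟩ := exists_unit ((1 - z) ^ (2 * m))
  have h1 : ‖u * fg m z + v * (1 - z) ^ (2 * m)‖ ≤ 4 ^ m := by
    refine Complex.norm_le_of_forall_mem_frontier_norm_le (U := ball (0 : ℂ) 1)
      (f := fun x => u * fg m x + v * (1 - x) ^ (2 * m)) isBounded_ball
      (Differentiable.diffContOnCl (by unfold fg; fun_prop)) (fun x hx => ?_) ?_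
    · rw [frontier_ball _ one_ne_zero, mem_sphere_zero_iff_norm] at hx
      refine (norm_add_le _ _).trans ?_
      rw [norm_mul, norm_mul, hu, hv, one_mul, one_mul, norm_pow, fg_circle hx, norm_mul, norm_pow,
        hx, one_pow, one_mul, Complex.norm_real,
        Real.norm_of_nonneg (sub_nonneg.2 (pow_le_four hx.le)), sub_add_cancel]
    · rwa [closure_ball _ one_ne_zero, mem_closedBall_zero_iff]
  rw [hu', hv', ← Complex.ofReal_add, Complex.norm_real, Real.norm_eq_abs, norm_pow] at h1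
  exact (le_abs_self _).trans h1

theorem one_le_fa {z : ℂ} (hz : ‖z‖ ≤ 1) : 1 ≤ ‖fa m z‖ := by
  rw [fa, norm_mul, norm_pow]
  exact one_le_mul_of_one_le_of_one_le (one_le_pow₀ (by simp)) (one_le_norm_two_sub hz)

theorem fb_le {z : ℂ} (hz : ‖z‖ ≤ 1) : ‖fb m z‖ + ‖1 - z‖ ^ (2 * m) ≤ ‖fa m z‖ := by
  have h1 := fg_bound (m := m) hz
  have h2 := blaschke_le hz
  have h3 := one_le_norm_two_sub hz
  have h4 : 0 ≤ ‖1 - z‖ ^ (2 * m) := by positivity
  rw [fa, fb, norm_mul, norm_mul, norm_pow, Complex.norm_ofNat]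
  nlinarith [mul_le_mul_of_nonneg_right h2 (norm_nonneg (fg m z))]

theorem Q0_lower {z : Fin (d + 1) → ℂ} (hz : z ∈ polydisc (d + 1)) (j : Fin d) :
    ‖1 - z j.succ‖ ^ (2 * m) ≤ ‖(aeval z (Q0 d m) : ℂ)‖ := by
  rw [ev_Q0]
  refine le_trans ?_ (norm_sub_norm_le _ _)
  rw [norm_mul, norm_prod, norm_prod, ← mul_prod_erase _ _ (mem_univ j),
    ← mul_prod_erase _ _ (mem_univ j)]
  have h1 : ∏ i ∈ univ.erase j, ‖fb m (z i.succ)‖ ≤ ∏ i ∈ univ.erase j, ‖fa m (z i.succ)‖ :=
    prod_le_prod (fun _ _ => norm_nonneg _) fun i _ =>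
      le_trans (le_add_of_nonneg_right (by positivity)) (fb_le (hz _))
  have h2 : 1 ≤ ∏ i ∈ univ.erase j, ‖fa m (z i.succ)‖ :=
    prod_induction _ (1 ≤ ·) (fun _ _ => one_le_mul_of_one_le_of_one_le) le_rfl
      fun i _ => one_le_fa (hz _)
  have h3 := fb_le (m := m) (hz j.succ)
  have h4 : ‖fb m (z j.succ)‖ * (∏ i ∈ univ.erase j, ‖fb m (z i.succ)‖) * ‖z 0‖ ≤
      ‖fb m (z j.succ)‖ * (∏ i ∈ univ.erase j, ‖fa m (z i.succ)‖) * 1 := by
    gcongr
    exact hz 0
  have h5 : 0 ≤ ‖1 - z j.succ‖ ^ (2 * m) := by positivity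
  nlinarith

theorem Q0_zero (hm' : m ≠ 0) {z : Fin (d + 1) → ℂ} (hz : z ∈ polydisc (d + 1))
    (h : (aeval z (Q0 d m) : ℂ) = 0) : z = 1 := by
  have h1 : ∀ j : Fin d, z j.succ = 1 := fun j => by
    have := Q0_lower (m := m) hz j
    rw [h, norm_zero] at this
    exact (sub_eq_zero.1 (norm_eq_zero.1 (pow_eq_zero_iff'.1
      (le_antisymm this (by positivity))).1)).symm
  funext i
  refine Fin.cases ?_ h1 i
  have h2 : fa m (1 : ℂ) = 4 ^ m := by norm_num [fa]
  have h3 : fb m (1 : ℂ) = 4 ^ m := by norm_num [fb, fg, hm']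
  simp only [ev_Q0, h1, h2, h3] at h
  have h4 : ∏ _j : Fin d, (4 : ℂ) ^ m ≠ 0 :=
    prod_ne_zero_iff.2 fun _ _ => pow_ne_zero _ (by norm_num)
  exact (mul_left_cancel₀ h4 ((mul_one _).trans (sub_eq_zero.1 h))).symm

theorem smooth_ex {r : ℕ} {β : ℝ≥0} (b1 : β ≤ 1) (hm' : 0 < m)
    (h : 2 * m * (r + (β : ℝ) + 1) < d * N) :
    ContDiffOn ℝ r (fun z => (aeval z (P0 d N) : ℂ) / aeval z (Q0 d m)) (polydisc (d + 1)) ∧
      ∃ C, HolderOnWith C β (iteratedFDerivWithin ℝ r
        (fun z => (aeval z (P0 d N) : ℂ) / aeval z (Q0 d m)) (polydisc (d + 1)))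
        (polydisc (d + 1)) := by
  obtain ⟨L, L0, hL⟩ := lip_aeval (Q0 d m)
  obtain ⟨B, B0, hB⟩ := bdd_aeval (Q0 d m)
  set Λ := L + B + 1 with hΛ
  have Λ1 : 1 ≤ Λ := by linarith
  have m0 : (0 : ℝ) < 2 * m := by positivity
  have n1 : ∀ x ∈ polydisc (d + 1), ‖x‖ ≤ 1 := fun x hx =>
    (pi_norm_le_iff_of_nonneg zero_le_one).2 hx
  have l1 : ∀ x ∈ polydisc (d + 1), ‖(aeval x (Q0 d m) : ℂ)‖ / Λ ≤ 1 := fun x hx =>
    (div_le_one (by positivity)).2 ((hB x (by linarith [n1 x hx])).trans (by linarith))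
  refine smooth_ext (lam := fun x => ‖(aeval x (Q0 d m) : ℂ)‖ / Λ) (γ := d * N / (2 * m) - 1)
    (K := 2 * ((Λ + 1) ^ N * 5) ^ d) b1 ?_ (by positivity) (fun x => by positivity) l1
    (fun x hx y hy => ?_) (fun x _ h0 => ?_) fun x hx h0 => ?_
  · rw [lt_sub_iff_add_lt, lt_div_iff₀' m0]
    exact h
  · have h1 := hL y x (by linarith [n1 y hy]) (by linarith [n1 x hx])
    have h2 := norm_sub_norm_le (aeval y (Q0 d m) : ℂ) (aeval x (Q0 d m))
    rw [div_add' _ _ _ (by positivity)]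
    refine div_le_div_of_nonneg_right ?_ (by positivity)
    linarith only [h1, h2, mul_le_mul_of_nonneg_left
      (show L ≤ Λ by linarith only [hΛ, B0]) (norm_nonneg (y - x))]
  · rw [norm_eq_zero.1 ((div_eq_zero_iff.1 h0).resolve_right (by positivity)), div_zero]
  · have l2 := l1 x hx
    set lam := ‖(aeval x (Q0 d m) : ℂ)‖ / Λ with hlam
    have e1 : ‖(aeval x (Q0 d m) : ℂ)‖ = Λ * lam := by rw [hlam, mul_div_cancel₀ _ (by positivity)]
    have n2 : ∀ y ∈ ball x (lam / 2), ‖y‖ ≤ 3 := fun y hy => by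
      have := norm_sub_norm_le y x
      linarith [n1 x hx, mem_ball_iff_norm.1 hy]
    have q1 : ∀ y ∈ ball x (lam / 2), lam / 2 ≤ ‖(aeval y (Q0 d m) : ℂ)‖ := fun y hy => by
      have h1 := hL x y (by linarith [n1 x hx]) (n2 y hy)
      have h2 := norm_sub_norm_le (aeval x (Q0 d m) : ℂ) (aeval y (Q0 d m))
      have h3 := mul_le_mul_of_nonneg_left (mem_ball_iff_norm'.1 hy).le L0.le
      linarith only [h1, h2, h3, e1, mul_nonneg
        (show 0 ≤ Λ - L / 2 - 1 / 2 by linarith only [hΛ, B0, L0]) h0.le]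
    refine ⟨fun y hy => (an_aeval _ y).div (an_aeval _ y)
      (norm_pos_iff.1 (lt_of_lt_of_le (by positivity) (q1 y hy))), fun y hy => ?_⟩
    set τ := lam ^ (1 / (2 * m : ℝ)) with hτ
    have t0 : 0 < τ := by positivity
    have t1 : τ ^ (2 * m) = lam := by
      rw [hτ, ← Real.rpow_natCast, ← Real.rpow_mul h0.le]
      push_cast
      rw [one_div_mul_cancel m0.ne', Real.rpow_one]
    have t2 : lam ≤ τ := by
      have h1 : (1 : ℝ) ≤ m := by exact_mod_cast hm'
      have h2 : 1 / (2 * m : ℝ) ≤ 1 := (div_le_one m0).2 (by linarith)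
      exact (Real.rpow_one lam).symm.trans_le (Real.rpow_le_rpow_of_exponent_ge h0 l2 h2)
    have p1 : ∀ j : Fin d, ‖fn N (y j.succ)‖ ≤ ((Λ + 1) * τ) ^ N * 5 := fun j => by
      have h1 : ‖1 - x j.succ‖ ≤ Λ * τ := by
        refine (pow_le_pow_iff_left₀ (norm_nonneg _) (by positivity) (by omega : 2 * m ≠ 0)).1 ?_
        rw [mul_pow, t1]
        refine (Q0_lower hx j).trans (e1.trans_le ?_)
        exact mul_le_mul_of_nonneg_right (le_self_pow₀ Λ1 (by omega)) h0.le
      have h2 := (norm_le_pi_norm (x - y) j.succ).trans (mem_ball_iff_norm'.1 hy).le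
      have h3 := norm_add_le (1 - x j.succ) ((x - y) j.succ)
      rw [Pi.sub_apply, sub_add_sub_cancel, ← Pi.sub_apply] at h3
      have h4 := norm_sub_le (2 : ℂ) (y j.succ)
      have h5 := (norm_le_pi_norm y j.succ).trans (n2 y hy)
      rw [Complex.norm_ofNat] at h4
      rw [fn, norm_mul, norm_pow]
      gcongr <;> linarith
    rw [norm_div, ev_P0, norm_prod]
    refine (div_le_div₀ (by positivity) (prod_le_prod (fun _ _ => norm_nonneg _) fun j _ => p1 j)
      (by positivity) (q1 y hy)).trans_eq ?_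
    have t3 : lam ^ ((d : ℝ) * N / (2 * m) - 1) = (τ ^ N) ^ d / lam := by
      rw [Real.rpow_sub_one h0.ne', hτ, ← pow_mul, ← Real.rpow_natCast, ← Real.rpow_mul h0.le]
      push_cast
      ring_nf
    rw [t3, prod_const, card_univ, Fintype.card_fin, mul_pow, mul_pow, mul_pow, mul_pow]
    field_simp

end Pool.Agent.Work.MP_a1ab50_an.T
end
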